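import Mathlib

/-!
Rigidity of blown-up hyperedges: if all sums over a blown-up edge are sums of few elements, then
many different top summands are needed.
-/

set_option autoImplicit false

namespace Pool.Agent.Lib.MP_36fd63_nt

open Finset

theorem count_fix {ι S : Type} [Fintype ι] [DecidableEq ι] [Fintype S] [DecidableEq S]
    (J : Finset ι) (g : ι → S) :
    #{f : ι → S | ∀ c ∈ J, f c = g c} * Fintype.card S ^ #J = Fintype.card S ^ Fintype.card ι := by
  have h : ({f : ι → S | ∀ c ∈ J, f c = g c} : Finset (ι → S)) =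
      Fintype.piFinset fun c => if c ∈ J then {g c} else univ := by
    ext f
    simp only [mem_filter, mem_univ, true_and, Fintype.mem_piFinset]
    refine forall_congr' fun c => ?_
    split_ifs with hc <;> simp [hc]
  rw [h, Fintype.card_piFinset]
  have : ∀ c, #(if c ∈ J then ({g c} : Finset S) else univ) =
      if c ∈ J then 1 else Fintype.card S := fun c => by split_ifs <;> simp
  simp only [this]
  rw [prod_ite, prod_const_one, one_mul, prod_const, ← pow_add]
  congr 1
  rw [filter_not, filter_mem_eq_inter, univ_inter, card_univ_sdiff]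
  exact Nat.sub_add_cancel (card_le_univ J)

theorem dichotomy {α β : Type} [DecidableEq β] (low : α → Finset β) (k : ℕ)
    (hk : ∀ f, #(low f) ≤ k) (P : α → Prop) (L : ℕ) :
    (∃ g : Fin L → α, (∀ i, P (g i)) ∧ ∀ i j, i ≠ j → Disjoint (low (g i)) (low (g j))) ∨
      ∃ K : Finset β, #K ≤ k * L ∧ ∀ f, P f → ∃ c ∈ K, c ∈ low f := by
  induction L with
  | zero => exact Or.inl ⟨Fin.elim0, fun i => i.elim0, fun i => i.elim0⟩
  | succ L ih =>
    rcases ih with ⟨g, hg, hd⟩ | ⟨K, hK, h⟩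
    · by_cases h : ∀ f, P f → ∃ c ∈ univ.biUnion fun i => low (g i), c ∈ low f
      · refine Or.inr ⟨_, card_biUnion_le.trans ?_, h⟩
        calc ∑ i, #(low (g i)) ≤ ∑ _i : Fin L, k := sum_le_sum fun i _ => hk _
          _ ≤ k * (L + 1) := by simp [mul_comm, mul_add]
      · push Not at h
        obtain ⟨f, hf, h⟩ := h
        have h' : ∀ i, Disjoint (low (g i)) (low f) := fun i =>
          disjoint_left.2 fun c hc => h c (mem_biUnion.2 ⟨i, mem_univ _, hc⟩)
        refine Or.inl ⟨Fin.cons f g, fun i => Fin.cases hf hg i, fun i j => ?_⟩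
        refine Fin.cases ?_ (fun i => ?_) i <;> refine Fin.cases ?_ (fun j => ?_) j
        · exact fun h => absurd rfl h
        · exact fun _ => (h' j).symm
        · exact fun _ => h' i
        · exact fun h => hd i j fun e => h (e ▸ rfl)
    · exact Or.inr ⟨K, hK.trans (Nat.mul_le_mul_left _ (Nat.le_succ _)), h⟩

theorem hit_half {β : Type} [Fintype β] [DecidableEq β] (R k : ℕ) [NeZero R]
    (S : Fin (R ^ k) → Finset β) (hS : ∀ i, #(S i) ≤ k)
    (hd : ∀ i j, i ≠ j → Disjoint (S i) (S j)) :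
    R ^ Fintype.card β ≤ 2 * #{χ : β → Fin R | ∃ i, ∀ c ∈ S i, χ c = 0} := by
  have hR : 0 < R := Nat.pos_of_ne_zero (NeZero.ne R)
  set N := Fintype.card β
  set G : Finset (β → Fin R) := {χ | ∃ i, ∀ c ∈ S i, χ c = 0} with hG
  let I : Finset β → (β → Fin R) → ℕ := fun T χ => if ∀ c ∈ T, χ c = 0 then 1 else 0
  have hI : ∀ T, R ^ #T * ∑ χ, I T χ = R ^ N := fun T => by
    have := count_fix T (fun _ => (0 : Fin R))
    rw [Fintype.card_fin] at this
    rw [← this, mul_comm, card_filter]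
  let Z : (β → Fin R) → ℕ := fun χ => ∑ i, R ^ #(S i) * I (S i) χ
  have h1 : ∑ χ ∈ G, Z χ = R ^ k * R ^ N := by
    rw [sum_subset (subset_univ G) fun χ _ hχ => sum_eq_zero fun i _ => by
      have : ¬ ∀ c ∈ S i, χ c = 0 := fun h => hχ (mem_filter.2 ⟨mem_univ _, i, h⟩)
      simp only [I, if_neg this, mul_zero], sum_comm]
    simp only [← mul_sum, hI, sum_const, card_univ, Fintype.card_fin, smul_eq_mul]
  have h2 : ∑ χ, Z χ ^ 2 ≤ 2 * (R ^ k * R ^ k * R ^ N) := by
    have e : ∀ χ, Z χ ^ 2 = ∑ i, ∑ j, R ^ #(S i) * R ^ #(S j) * I (S i ∪ S j) χ := fun χ => by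
      rw [sq, sum_mul_sum]
      refine sum_congr rfl fun i _ => sum_congr rfl fun j _ => ?_
      simp only [I, forall_mem_union]
      by_cases a : ∀ c ∈ S i, χ c = 0
      · by_cases b : ∀ c ∈ S j, χ c = 0
        · rw [if_pos a, if_pos b, if_pos ⟨a, b⟩]; ring
        · rw [if_neg b, if_neg fun h : _ ∧ _ => b h.2]; ring
      · rw [if_neg a, if_neg fun h : _ ∧ _ => a h.1]; ring
    simp only [e]
    rw [sum_comm]
    have h3 : ∀ i, ∑ χ, ∑ j, R ^ #(S i) * R ^ #(S j) * I (S i ∪ S j) χ ≤ 2 * (R ^ k * R ^ N) := by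
      intro i
      rw [sum_comm]
      have h4 : ∀ j, ∑ χ, R ^ #(S i) * R ^ #(S j) * I (S i ∪ S j) χ ≤
          R ^ N + if j = i then R ^ k * R ^ N else 0 := by
        intro j
        rw [← mul_sum]
        split_ifs with h
        · subst h
          rw [union_self, mul_assoc, hI]
          exact (Nat.mul_le_mul_right _ (Nat.pow_le_pow_right hR (hS j))).trans (Nat.le_add_left _ _)
        · rw [← pow_add, ← card_union_of_disjoint (hd i j (Ne.symm h)), hI, add_zero]
      refine (sum_le_sum fun j _ => h4 j).trans ?_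
      rw [sum_add_distrib]
      simp [two_mul]
    refine (sum_le_sum fun i _ => h3 i).trans ?_
    simp only [sum_const, card_univ, Fintype.card_fin, smul_eq_mul]
    exact le_of_eq (by ring)
  have h5 := sq_sum_le_card_mul_sum_sq (s := G) (f := Z)
  rw [h1, Nat.cast_id] at h5
  have h6 := h5.trans (Nat.mul_le_mul_left _ ((sum_le_sum_of_subset (subset_univ G)).trans h2))
  have h7 : 0 < R ^ k * R ^ k * R ^ N := by positivity
  refine Nat.le_of_mul_le_mul_right ?_ h7
  calc R ^ N * (R ^ k * R ^ k * R ^ N) = (R ^ k * R ^ N) ^ 2 := by ring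
    _ ≤ _ := h6
    _ = _ := by ring

theorem stepA {ι S β : Type} [Fintype ι] [DecidableEq ι] [Fintype S] [DecidableEq S] [Fintype β]
    [DecidableEq β] (low : (ι → S) → Finset β) (hk : ∀ f, #(low f) < Fintype.card ι) {B L θ : ℕ}
    (hc : ∀ c, #{f | c ∈ low f} ≤ B) (free : ι → S → Prop) [∀ j, DecidablePred (free j)]
    (hK : ∀ j x, ¬ free j x → ∃ K : Finset β, #K ≤ Fintype.card ι * L ∧
      ∀ f, f j = x → ∃ c ∈ K, c ∈ low f)
    (hθ : 0 < θ) (hL : 0 < L) (hs : Fintype.card S = 4 * Fintype.card ι ^ 3 * L * θ)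
    (hB : 16 * Fintype.card ι ^ 5 * L ^ 2 * B ≤ Fintype.card S ^ Fintype.card ι)
    (hι : 0 < Fintype.card ι) :
    ∃ j, Fintype.card S ≤ 4 * Fintype.card ι * #{x | free j x} := by
  classical
  by_contra hne
  push Not at hne
  set k := Fintype.card ι with hkd
  set s := Fintype.card S with hsd
  have hs0 : 0 < s := by rw [hs]; positivity
  have hK' : ∀ j x, ∃ K : Finset β, #K ≤ k * L ∧
      (¬ free j x → ∀ f, f j = x → ∃ c ∈ K, c ∈ low f) := fun j x => by
    by_cases h : free j x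
    · exact ⟨∅, by simp, fun h' => absurd h h'⟩
    · obtain ⟨K, h1, h2⟩ := hK j x h
      exact ⟨K, h1, fun _ => h2⟩
  choose K hK1 hK2 using hK'
  let P : Finset β := {c | ∃ j, θ < #{x | c ∈ K j x}}
  have hP : #P ≤ 4 * k ^ 5 * L ^ 2 := by
    have h1 : #P * θ ≤ ∑ c, ∑ j, #{x | c ∈ K j x} := by
      rw [← smul_eq_mul, ← sum_const]
      refine (sum_le_sum fun c hc => ?_).trans (sum_le_sum_of_subset (subset_univ P))
      obtain ⟨j, hj⟩ := (mem_filter.1 hc).2
      exact hj.le.trans (single_le_sum (f := fun j => #{x | c ∈ K j x})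
        (fun _ _ => Nat.zero_le _) (mem_univ j))
    have h2 : ∑ c, ∑ j, #{x | c ∈ K j x} ≤ k * (s * (k * L)) := by
      rw [sum_comm]
      refine (sum_le_card_nsmul _ _ (s * (k * L)) fun j _ => ?_).trans (by simp [hkd])
      simp only [card_filter]
      rw [sum_comm]
      refine (sum_le_card_nsmul _ _ (k * L) fun x _ => ?_).trans (by simp [hsd])
      rw [← card_filter, filter_mem_eq_inter, univ_inter]
      exact hK1 j x
    refine Nat.le_of_mul_le_mul_right ((h1.trans h2).trans (le_of_eq ?_)) hθ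
    rw [hs]; ring
  let b1 : ι → Finset (ι → S) := fun j => {f | free j (f j)}
  let b3 : ι × ι → Finset (ι → S) := fun p =>
    {f | ∃ c ∈ K p.1 (f p.1), c ∉ P ∧ c ∈ K p.2 (f p.2)}
  have hcov : (univ : Finset (ι → S)) ⊆ univ.biUnion b1 ∪ P.biUnion (fun c => {f | c ∈ low f}) ∪
      (univ.offDiag).biUnion b3 := by
    intro f _
    by_cases h1 : ∃ j, free j (f j)
    · obtain ⟨j, hj⟩ := h1
      exact mem_union_left _ (mem_union_left _ (mem_biUnion.2 ⟨j, mem_univ _, by simpa [b1]⟩))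
    push Not at h1
    choose c hc1 hc2 using fun j => hK2 j (f j) (h1 j) f rfl
    obtain ⟨i, -, j, -, hij, e⟩ := exists_ne_map_eq_of_card_lt_of_maps_to (s := univ) (t := low f)
      (hk f) (f := c) fun j _ => hc2 j
    by_cases h2 : c i ∈ P
    · exact mem_union_left _ (mem_union_right _ (mem_biUnion.2 ⟨_, h2, by simpa using hc2 i⟩))
    · refine mem_union_right _ (mem_biUnion.2 ⟨(i, j), by simpa using hij, ?_⟩)
      exact mem_filter.2 ⟨mem_univ _, c i, hc1 i, h2, e ▸ hc1 j⟩
  have h1 : ∀ j, 4 * k * #(b1 j) ≤ s ^ k := fun j => by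
    have e : #(b1 j) * s ≤ #{x | free j x} * s ^ k := by
      have : b1 j ⊆ ({x | free j x} : Finset S).biUnion
          fun x => {f : ι → S | ∀ c ∈ ({j} : Finset ι), f c = x} := fun f hf =>
        mem_biUnion.2 ⟨f j, by simpa [b1] using hf, by simp⟩
      refine (Nat.mul_le_mul_right _ ((card_le_card this).trans card_biUnion_le)).trans ?_
      rw [sum_mul, ← smul_eq_mul, ← sum_const]
      refine sum_le_sum fun x _ => le_of_eq ?_
      have := count_fix {j} (fun _ => x)
      rwa [card_singleton, pow_one] at this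
    refine Nat.le_of_mul_le_mul_right ?_ hs0
    calc 4 * k * #(b1 j) * s = 4 * k * (#(b1 j) * s) := by ring
      _ ≤ 4 * k * (#{x | free j x} * s ^ k) := Nat.mul_le_mul_left _ e
      _ = (4 * k * #{x | free j x}) * s ^ k := by ring
      _ ≤ s * s ^ k := Nat.mul_le_mul_right _ (hne j).le
      _ = _ := mul_comm _ _
  have h3 : ∀ p ∈ (univ : Finset ι).offDiag, 4 * k ^ 2 * #(b3 p) ≤ s ^ k := fun p hp => by
    have hp' : p.1 ≠ p.2 := (mem_offDiag.1 hp).2.2
    have e : #(b3 p) * s ^ 2 ≤ s * (k * L * (θ * s ^ k)) := by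
      have : b3 p ⊆ univ.biUnion fun x => (K p.1 x \ P).biUnion fun c =>
          ({y | c ∈ K p.2 y} : Finset S).biUnion fun y =>
            {f : ι → S | ∀ c ∈ ({p.1, p.2} : Finset ι), f c = if c = p.1 then x else y} := by
        intro f hf
        obtain ⟨c, h1, h2, h3⟩ := (mem_filter.1 hf).2
        refine mem_biUnion.2 ⟨f p.1, mem_univ _, mem_biUnion.2 ⟨c, mem_sdiff.2 ⟨h1, h2⟩,
          mem_biUnion.2 ⟨f p.2, by simpa using h3, ?_⟩⟩⟩
        simp [hp'.symm]
      refine (Nat.mul_le_mul_right _ ((card_le_card this).trans card_biUnion_le)).trans ?_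
      rw [sum_mul]
      refine (sum_le_card_nsmul _ _ (k * L * (θ * s ^ k)) fun x _ => ?_).trans (by simp [hsd])
      refine (Nat.mul_le_mul_right _ card_biUnion_le).trans ?_
      rw [sum_mul]
      refine (sum_le_card_nsmul _ _ (θ * s ^ k) fun c hc => ?_).trans
        (Nat.mul_le_mul_right _ ((card_le_card sdiff_subset).trans (hK1 _ _)))
      refine (Nat.mul_le_mul_right _ card_biUnion_le).trans ?_
      rw [sum_mul]
      refine (sum_le_card_nsmul _ _ (s ^ k) fun y _ => le_of_eq ?_).trans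
        (Nat.mul_le_mul_right _ ?_)
      · have := count_fix {p.1, p.2} (fun c => if c = p.1 then x else y)
        rwa [card_pair hp'] at this
      · by_contra h
        exact (mem_sdiff.1 hc).2 (mem_filter.2 ⟨mem_univ _, p.2, not_le.1 h⟩)
    refine Nat.le_of_mul_le_mul_right ?_ (pow_pos hs0 2)
    calc 4 * k ^ 2 * #(b3 p) * s ^ 2 = 4 * k ^ 2 * (#(b3 p) * s ^ 2) := by ring
      _ ≤ 4 * k ^ 2 * (s * (k * L * (θ * s ^ k))) := Nat.mul_le_mul_left _ e
      _ = (4 * k ^ 3 * L * θ) * s * s ^ k := by ring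
      _ = _ := by rw [← hs]; ring
  have t1 : 4 * #(univ.biUnion b1) ≤ s ^ k := by
    refine Nat.le_of_mul_le_mul_left ?_ hι
    calc k * (4 * #(univ.biUnion b1)) ≤ k * (4 * ∑ j, #(b1 j)) := by gcongr; exact card_biUnion_le
      _ = ∑ j, 4 * k * #(b1 j) := by rw [← mul_sum]; ring
      _ ≤ _ := (sum_le_card_nsmul _ _ _ fun j _ => h1 j).trans (by simp [hkd])
  have t2 : 4 * #(P.biUnion fun c => ({f | c ∈ low f} : Finset (ι → S))) ≤ s ^ k := by
    have := card_biUnion_le.trans (sum_le_card_nsmul P _ B fun c _ => hc c)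
    rw [smul_eq_mul] at this
    calc _ ≤ 4 * (4 * k ^ 5 * L ^ 2 * B) :=
          Nat.mul_le_mul_left _ (this.trans (Nat.mul_le_mul_right _ hP))
      _ = 16 * k ^ 5 * L ^ 2 * B := by ring
      _ ≤ _ := hB
  have t3 : 4 * #((univ.offDiag).biUnion b3) ≤ s ^ k := by
    refine Nat.le_of_mul_le_mul_left ?_ (pow_pos hι 2)
    calc k ^ 2 * (4 * #((univ.offDiag).biUnion b3)) ≤ k ^ 2 * (4 * ∑ p ∈ univ.offDiag, #(b3 p)) := by
          gcongr; exact card_biUnion_le
      _ = ∑ p ∈ univ.offDiag, 4 * k ^ 2 * #(b3 p) := by rw [← mul_sum]; ring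
      _ ≤ _ := (sum_le_card_nsmul _ _ _ h3).trans (by
          rw [smul_eq_mul, offDiag_card, card_univ, sq]
          exact Nat.mul_le_mul_right _ (Nat.sub_le _ _))
  have t4 := (card_le_card hcov).trans ((card_union_le _ _).trans
    (Nat.add_le_add_right (card_union_le _ _) _))
  rw [card_univ, Fintype.card_fun] at t4
  have := pow_pos hs0 k
  rw [← hsd, ← hkd] at t4
  omega

theorem stepB {E ι S β : Type} [Fintype E] [DecidableEq E] [Fintype ι] [DecidableEq ι] [Fintype S]
    [DecidableEq S] [Fintype β] [DecidableEq β] (low : E → (ι → S) → Finset β)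
    (hk : ∀ w f, #(low w f) < Fintype.card ι) {B R θ T : ℕ} (hc : ∀ w c, #{f | c ∈ low w f} ≤ B)
    (hθ : 0 < θ) (hR : 0 < R)
    (hs : Fintype.card S = 4 * Fintype.card ι ^ 3 * R ^ Fintype.card ι * θ)
    (hB : 16 * Fintype.card ι ^ 5 * (R ^ Fintype.card ι) ^ 2 * B ≤ Fintype.card S ^ Fintype.card ι)
    (hι : 0 < Fintype.card ι)
    (hrank : ∀ (C : Finset β) (j : ι) (Y : Finset (E × S)),
      (∀ p ∈ Y, ∃ f, f j = p.2 ∧ low p.1 f ⊆ C) → #Y ≤ 2 * (T + #C)) :
    Fintype.card E * Fintype.card S * R ≤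
      16 * Fintype.card ι ^ 2 * (T * R + Fintype.card β) := by
  classical
  have : NeZero R := ⟨hR.ne'⟩
  set k := Fintype.card ι with hkd
  set N := Fintype.card β with hNd
  let free : E → ι → S → Prop := fun w j x => ∃ g : Fin (R ^ k) → ι → S, (∀ i, g i j = x) ∧
    ∀ i i', i ≠ i' → Disjoint (low w (g i)) (low w (g i'))
  have hA : ∀ w, ∃ j, Fintype.card S ≤ 4 * k * #{x | free w j x} := fun w =>
    stepA (low w) (hk w) (hc w) (free w) (fun j x h =>
      (dichotomy (low w) k (fun f => (hk w f).le) (fun f => f j = x) (R ^ k)).resolve_left h)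
      hθ (pow_pos hR _) hs hB hι
  let F : ι → Finset (E × S) := fun j => {p | free p.1 j p.2}
  have h1 : Fintype.card E * Fintype.card S ≤ ∑ j, 4 * k * #(F j) := by
    have : ∀ j, #(F j) = ∑ w, #{x | free w j x} := fun j => by
      simp only [F, card_filter, Fintype.sum_prod_type]
    simp only [this, mul_sum]
    rw [sum_comm, ← card_univ, ← smul_eq_mul, ← sum_const]
    refine sum_le_sum fun w _ => ?_
    obtain ⟨j, hj⟩ := hA w
    exact hj.trans (single_le_sum (f := fun j => 4 * k * #{x | free w j x})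
      (fun _ _ => Nat.zero_le _) (mem_univ j))
  have h2 : ∀ j, #(F j) * R ≤ 4 * (T * R + N) := fun j => by
    let C : (β → Fin R) → Finset β := fun χ => {c | χ c = 0}
    let Y : (β → Fin R) → Finset (E × S) := fun χ => {p | ∃ f, f j = p.2 ∧ low p.1 f ⊆ C χ}
    have e1 : #(F j) * R ^ N ≤ 2 * ∑ χ, #(Y χ) := by
      simp only [Y, card_filter]
      rw [sum_comm, mul_sum, ← smul_eq_mul, ← sum_const]
      refine (sum_le_sum fun p hp => ?_).trans (sum_le_sum_of_subset (subset_univ _))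
      obtain ⟨g, hg, hd⟩ := (mem_filter.1 hp).2
      refine (hit_half R k (fun i => low p.1 (g i)) (fun i => (hk _ _).le) hd).trans ?_
      rw [← card_filter]
      refine Nat.mul_le_mul_left _ (card_le_card fun χ hχ => ?_)
      obtain ⟨i, hi⟩ := (mem_filter.1 hχ).2
      exact mem_filter.2 ⟨mem_univ _, g i, hg i, fun c hc => mem_filter.2 ⟨mem_univ _, hi c hc⟩⟩
    have e2 : (∑ χ, #(C χ)) * R = N * R ^ N := by
      simp only [C, card_filter]
      rw [sum_comm, sum_mul, hNd, ← card_univ, ← smul_eq_mul, ← sum_const]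
      refine sum_congr rfl fun c _ => ?_
      have := count_fix {c} (fun _ => (0 : Fin R))
      rw [card_singleton, pow_one, Fintype.card_fin] at this
      rw [card_univ, ← this, ← card_filter]
      simp
    have e3 : ∑ χ, #(Y χ) ≤ 2 * (R ^ N * T + ∑ χ, #(C χ)) := by
      refine (sum_le_sum fun χ _ => hrank (C χ) j (Y χ) fun p hp => (mem_filter.1 hp).2).trans ?_
      rw [← mul_sum, sum_add_distrib]
      simp [hNd]
    refine Nat.le_of_mul_le_mul_right ?_ (pow_pos hR N)
    calc #(F j) * R * R ^ N = (#(F j) * R ^ N) * R := by ring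
      _ ≤ (2 * (2 * (R ^ N * T + ∑ χ, #(C χ)))) * R :=
          Nat.mul_le_mul_right _ (e1.trans (Nat.mul_le_mul_left _ e3))
      _ = 4 * (R ^ N * T * R + (∑ χ, #(C χ)) * R) := by ring
      _ = _ := by rw [e2]; ring
  calc _ ≤ (∑ j, 4 * k * #(F j)) * R := Nat.mul_le_mul_right _ h1
    _ = ∑ j, 4 * k * (#(F j) * R) := by rw [sum_mul]; exact sum_congr rfl fun j _ => by ring
    _ ≤ ∑ _j : ι, 4 * k * (4 * (T * R + N)) := sum_le_sum fun j _ => Nat.mul_le_mul_left _ (h2 j)
    _ = _ := by simp only [sum_const, card_univ, smul_eq_mul, ← hkd]; ring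

end Pool.Agent.Lib.MP_36fd63_nt
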