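import Mathlib
import Pool.Agent.Lib.MP_36fd63_nt.H41Rigid

/-!
From a locally decodable family of integer vectors to a set of integers whose nonnegative sums
need a large nonnegative basis.
-/

set_option autoImplicit false

namespace Pool.Agent.Lib.MP_36fd63_nt

open Finset

theorem digits_zero (Q : ℕ) (μ : ℕ → ℤ) (hμ : ∀ i, |μ i| < Q) (n : ℕ)
    (h : (Q : ℤ) ^ n ∣ ∑ i ∈ range n, μ i * Q ^ i) : ∀ i < n, μ i = 0 := by
  induction n with
  | zero => intro i hi; omega
  | succ n ih =>
    rw [sum_range_succ] at h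
    have h1 := ih ((dvd_add_left (dvd_mul_left _ _)).1 ((pow_dvd_pow _ (Nat.le_succ n)).trans h))
    rw [sum_eq_zero fun i hi => by rw [h1 i (mem_range.1 hi), zero_mul], zero_add, pow_succ'] at h
    have hQ : (0 : ℤ) < Q := (abs_nonneg _).trans_lt (hμ 0)
    have h2 := Int.eq_zero_of_abs_lt_dvd ((mul_dvd_mul_iff_right (pow_pos hQ n).ne').1 h) (hμ n)
    intro i hi
    rcases Nat.lt_succ_iff_lt_or_eq.1 hi with hi | rfl
    · exact h1 i hi
    · exact h2

theorem digits_fam {I Z : Type} [Fintype I] [Fintype Z] [DecidableEq Z] {n Q : ℕ} (e : Z ≃ Fin n)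
    (z : I → Z) (l : I → ℤ) (hl : ∑ i, |l i| < Q)
    (h : (Q : ℤ) ^ n ∣ ∑ i, l i * Q ^ (e (z i) : ℕ)) {i0 : I} (h0 : ∀ i, z i = z i0 → i = i0) :
    l i0 = 0 := by
  let μ : ℕ → ℤ := fun m => ∑ i with (e (z i) : ℕ) = m, l i
  have h1 := digits_zero Q μ (fun m => (abs_sum_le_sum_abs _ _).trans_lt
    ((sum_le_sum_of_subset_of_nonneg (filter_subset _ _) fun _ _ _ => abs_nonneg _).trans_lt hl))
    n (by
      rw [← sum_fiberwise_of_maps_to (s := univ) (t := range n) (g := fun i => (e (z i) : ℕ))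
        fun i _ => mem_range.2 (e (z i)).2] at h
      convert h using 2 with m
      rw [sum_mul]
      exact sum_congr rfl fun i hi => by rw [(mem_filter.1 hi).2]) (e (z i0)) (e (z i0)).2
  have h2 : ({i | (e (z i) : ℕ) = e (z i0)} : Finset I) = {i0} := by
    ext i
    simp only [mem_filter, mem_univ, true_and, mem_singleton]
    exact ⟨fun h => h0 i (e.injective (Fin.ext h)), fun h => by rw [h]⟩
  simpa only [μ, h2, sum_singleton] using h1

attribute [local instance] Matrix.seminormedAddCommGroup in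
theorem small_relation {I ι : Type} [Fintype I] [Fintype ι] (C : Finset ℕ) (c : I → ι → ℕ)
    (hc : ∀ i j, c i j ∈ C) (hι : 0 < Fintype.card ι) (h : 2 * #C < Fintype.card I) :
    ∃ l : I → ℤ, l ≠ 0 ∧ (∀ i, |l i| ≤ Fintype.card I * Fintype.card ι) ∧
      ∑ i, l i * ((∑ j, c i j : ℕ) : ℤ) = 0 := by
  classical
  obtain ⟨i0⟩ := Fintype.card_pos_iff.1 ((Nat.zero_le _).trans_lt h)
  obtain ⟨j0⟩ := Fintype.card_pos_iff.1 hι
  have hC : 0 < #C := card_pos.2 ⟨_, hc i0 j0⟩
  let A : Matrix C I ℤ := fun x i => #{j | c i j = x}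
  obtain ⟨t, ht, hA, hn⟩ := Int.Matrix.exists_ne_zero_int_vec_norm_le A
    (by rw [Fintype.card_coe]; omega) (by rwa [Fintype.card_coe])
  refine ⟨t, ht, fun i => ?_, ?_⟩
  · have h1 : ‖A‖ ≤ Fintype.card ι := (Matrix.norm_le_iff (Nat.cast_nonneg _)).2 fun x i => by
      simp only [A, Int.norm_natCast, Nat.cast_le]
      exact card_le_univ _
    have h2 : max 1 ‖A‖ ≤ Fintype.card ι := max_le (by exact_mod_cast hι) h1
    have h3 : (1 : ℝ) ≤ Fintype.card I := by exact_mod_cast (Nat.zero_le _).trans_lt h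
    have h4 : (1 : ℝ) ≤ Fintype.card I * max 1 ‖A‖ := one_le_mul_of_one_le_of_one_le h3 (le_max_left _ _)
    have h5 : ((Fintype.card C : ℝ) / (Fintype.card I - Fintype.card C)) ≤ 1 := by
      rw [Fintype.card_coe]
      have : (2 * #C : ℝ) < Fintype.card I := by exact_mod_cast h
      refine div_le_one_of_le₀ (by linarith) (by have := Nat.cast_nonneg (α := ℝ) #C; linarith)
    have h6 := (norm_le_pi_norm t i).trans (hn.trans ((Real.rpow_le_self_of_one_le h4 h5).trans
      (mul_le_mul_of_nonneg_left h2 (Nat.cast_nonneg _))))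
    rw [Int.norm_eq_abs] at h6
    exact_mod_cast h6
  · have h1 : ∀ i, ((∑ j, c i j : ℕ) : ℤ) = ∑ x : C, (x : ℕ) * A x i := fun i => by
      rw [← sum_fiberwise_of_maps_to (s := univ) (t := C) (g := c i) fun j _ => hc i j,
        ← sum_coe_sort, Nat.cast_sum]
      refine sum_congr rfl fun x _ => ?_
      rw [sum_congr rfl fun j hj => (mem_filter.1 hj).2]
      simp [A, mul_comm]
    simp only [h1, mul_sum]
    rw [sum_comm]
    refine sum_eq_zero fun x _ => ?_
    have := congrFun hA x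
    simp only [Matrix.mulVec, dotProduct, Pi.zero_apply] at this
    calc ∑ i, t i * ((x : ℕ) * A x i) = (x : ℕ) * ∑ i, A x i * t i := by
          rw [mul_sum]; exact sum_congr rfl fun i _ => by ring
      _ = 0 := by rw [this, mul_zero]

/-- a family of integer vectors in which every unit vector is a sum along many disjoint edges -/
structure Code (Γ ι : Type) [Fintype Γ] [Fintype ι] (d : ℕ) where
  v : Γ → ι → Fin d → ℤ
  W : Fin d → Finset Γ
  pos : Fin d → Γ → ι → Γ
  inj : ∀ l j, Function.Injective fun w => pos l w j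
  sum : ∀ l, ∀ w ∈ W l, ∀ l', ∑ j, v (pos l w j) j l' = if l' = l then 1 else 0
  big : ∀ l, Fintype.card Γ ≤ 6 * #(W l)

theorem transfer {Γ ι : Type} [Fintype Γ] [Fintype ι] {d : ℕ} (K : Code Γ ι d)
    (hι : 0 < Fintype.card ι) (hd : 0 < d) (hΓ : 0 < Fintype.card Γ) :
    ∃ B : Finset ℤ, d ≤ #B ∧
      #B ≤ (200 * Fintype.card ι ^ 4 * d * Fintype.card Γ) ^ (3 * Fintype.card ι + 4) ∧
      ∀ C : Finset ℕ, (∀ a : ℕ, (∃ f : ι → ℤ, (∀ i, f i ∈ B) ∧ ∑ i, f i = a) →
        ∃ g : ι → ℕ, (∀ i, g i ∈ C) ∧ ∑ i, g i = a) →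
        #B * d ≤ 200 * Fintype.card ι ^ 3 * #C := by
  classical
  set k := Fintype.card ι with hk
  set m := Fintype.card Γ with hm
  obtain ⟨R, hR⟩ : ∃ R, R = 200 * k ^ 3 * d := ⟨_, rfl⟩
  have hR0 : 0 < R := by rw [hR]; positivity
  obtain ⟨θ, hθ⟩ : ∃ θ, θ = 4 * k ^ 3 * R ^ k * (m * k * d) ^ (k - 1) := ⟨_, rfl⟩
  have hθ0 : 0 < θ := by rw [hθ]; positivity
  obtain ⟨s, hs⟩ : ∃ s, s = 4 * k ^ 3 * R ^ k * θ := ⟨_, rfl⟩
  have hs0 : 0 < s := by rw [hs]; positivity
  obtain ⟨n, hn⟩ : ∃ n, n = m * (k * s) := ⟨_, rfl⟩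
  have hn0 : 0 < n := by rw [hn]; positivity
  let e : Γ × ι × Fin s ≃ Fin n := Fintype.equivFinOfCardEq (by simp [hn, hm, hk])
  obtain ⟨Q, hQ⟩ : ∃ Q, Q = n * k * (n * k) + 2 * k + 1 := ⟨_, rfl⟩
  have hQk : 2 * k < Q := by omega
  let b : Γ × ι × Fin s → ℤ := fun z =>
    (Q : ℤ) ^ (e z : ℕ) + Q ^ n * ∑ l : Fin d, K.v z.1 z.2.1 l * Q ^ (l : ℕ)
  have hb : Function.Injective b := by
    intro z z' h
    by_contra hne
    have := digits_fam (Q := Q) e (fun i : Bool => cond i z z') (fun i => cond i 1 (-1))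
      (by simp; omega) (by
        simp only [Fintype.sum_bool, cond_true, cond_false]
        refine ⟨∑ l : Fin d, K.v z'.1 z'.2.1 l * Q ^ (l : ℕ) -
          ∑ l : Fin d, K.v z.1 z.2.1 l * Q ^ (l : ℕ), ?_⟩
        simp only [b] at h
        linear_combination h) (i0 := true) (by
        rintro (_ | _) h
        · exact absurd h.symm hne
        · rfl)
    simp at this
  have hB : #(univ.image b) = n := by rw [card_image_of_injective _ hb, card_univ]; simp [hn, hm, hk]
  refine ⟨univ.image b, ?_, ?_, fun C hC => ?_⟩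
  · rw [hB, hn, hs]
    calc d ≤ R := by rw [hR]; exact Nat.le_mul_of_pos_left _ (by positivity)
      _ ≤ R ^ k := Nat.le_self_pow hι.ne' _
      _ ≤ (m * k * (4 * k ^ 3) * θ) * R ^ k := Nat.le_mul_of_pos_left _ (by positivity)
      _ = _ := by ring
  · obtain ⟨X, hX⟩ : ∃ X, X = 200 * k ^ 4 * d * m := ⟨_, rfl⟩
    have h1 : R ≤ X := by
      rw [hR, hX]
      calc 200 * k ^ 3 * d = 200 * k ^ 3 * d * 1 * 1 := by ring
        _ ≤ 200 * k ^ 3 * d * k * m := by gcongr <;> omega
        _ = _ := by ring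
    have h2 : 4 * k ^ 3 ≤ X := le_trans (by
      rw [hR]
      calc 4 * k ^ 3 = 4 * k ^ 3 * 1 := by ring
        _ ≤ 200 * k ^ 3 * d := by gcongr <;> omega) h1
    have h3 : m * k * d ≤ X := by
      rw [hX]
      calc m * k * d = 1 * (m * k * d) := by ring
        _ ≤ (200 * k ^ 3) * (m * k * d) := Nat.mul_le_mul_right _ (by
          have : 0 < 200 * k ^ 3 := by positivity
          omega)
        _ = _ := by ring
    have h4 : m * k ≤ X := (Nat.le_mul_of_pos_right _ hd).trans h3
    have hX0 : 0 < X := hR0.trans_le h1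
    rw [hB, hn, hs, hθ, ← hX, ← mul_assoc]
    calc m * k * (4 * k ^ 3 * R ^ k * (4 * k ^ 3 * R ^ k * (m * k * d) ^ (k - 1)))
        ≤ X * (X * X ^ k * (X * X ^ k * X ^ (k - 1))) := by gcongr
      _ = X ^ (2 * k + (k - 1) + 3) := by ring
      _ ≤ _ := Nat.pow_le_pow_right hX0 (by omega)
  rw [hB]
  by_contra hlt
  rw [not_le] at hlt
  have hN : #C ≤ n * d := by
    have : 0 < 200 * k ^ 3 := by positivity
    nlinarith
  let a : Fin d → Γ → (ι → Fin s) → ℕ := fun l w f =>
    Q ^ (n + l) + ∑ j, Q ^ (e (K.pos l w j, j, f j) : ℕ)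
  have ha : ∀ l (w : K.W l) f, ∃ g : ι → ℕ, (∀ i, g i ∈ C) ∧ ∑ i, g i = a l w f := by
    intro l w f
    refine hC _ ⟨fun j => b (K.pos l w j, j, f j), fun j => mem_image_of_mem _ (mem_univ _), ?_⟩
    simp only [a, b, sum_add_distrib, ← mul_sum]
    rw [sum_comm]
    simp only [← sum_mul, K.sum l w w.2, ite_mul, one_mul, zero_mul, sum_ite_eq', mem_univ, if_true]
    push_cast
    ring
  choose g hg1 hg2 using ha
  have htop : ∀ l (w : K.W l) f, ∃ j, a l w f ≤ k * g l w f j := by
    intro l w f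
    obtain ⟨j0⟩ := Fintype.card_pos_iff.1 hι
    obtain ⟨j, -, hj⟩ := exists_max_image univ (g l w f) ⟨j0, mem_univ _⟩
    exact ⟨j, hg2 l w f ▸ sum_le_card_nsmul _ _ _ hj⟩
  choose top htop using htop
  let T : Fin d → Finset ℕ := fun l => {c ∈ C | Q ^ (n + l) ≤ k * c ∧ c ≤ 2 * Q ^ (n + l)}
  have hT : ∀ l (w : K.W l) f, g l w f (top l w f) ∈ T l := by
    intro l w f
    refine mem_filter.2 ⟨hg1 _ _ _ _, (Nat.le_add_right _ _).trans (htop l w f), ?_⟩
    refine (single_le_sum (f := g l w f) (fun _ _ => Nat.zero_le _) (mem_univ _)).trans ?_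
    rw [hg2, two_mul]
    refine Nat.add_le_add_left ((sum_le_card_nsmul _ _ (Q ^ (n - 1)) fun j _ =>
      Nat.pow_le_pow_right (by omega) (by have := (e (K.pos l w j, j, f j)).2; omega)).trans ?_) _
    calc Finset.card univ • Q ^ (n - 1) ≤ Q * Q ^ (n - 1) := Nat.mul_le_mul_right _ (by rw [card_univ]; omega)
      _ ≤ _ := by rw [← pow_succ']; exact Nat.pow_le_pow_right (by omega) (by omega)
  have hTd : ∑ l, #(T l) ≤ #C := by
    have key : ∀ l l' : Fin d, l < l' → Disjoint (T l) (T l') := fun l l' h =>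
      disjoint_left.2 fun c hc hc' => by
        have h1 := (mem_filter.1 hc).2.2
        have h2 := (mem_filter.1 hc').2.1
        have h3 : Q * Q ^ (n + l) ≤ Q ^ (n + l') := by
          rw [← pow_succ']; exact Nat.pow_le_pow_right (by omega) (by have := Fin.lt_def.1 h; omega)
        have h4 : 0 < Q ^ (n + l) := pow_pos (by omega) _
        nlinarith
    rw [← card_biUnion fun l _ l' _ h => (lt_or_gt_of_ne h).elim (key l l') fun h => (key l' l h).symm]
    exact card_le_card (biUnion_subset.2 fun l _ => filter_subset _ _)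
  have hind : ∀ (l : Fin d) (I : Type) [Fintype I] (w : I → Γ) (f : I → ι → Fin s) (t : I → ℤ),
      (∑ i, |t i|) * k < Q → ∑ i, t i * a l (w i) (f i) = 0 → ∀ i0 j0,
      (∀ i, w i = w i0 → f i j0 = f i0 j0 → i = i0) → t i0 = 0 := by
    intro l I _ w f t h1 h2 i0 j0 h3
    refine digits_fam (Q := Q) e (fun p : I × ι => (K.pos l (w p.1) p.2, p.2, f p.1 p.2))
      (fun p => t p.1) ?_ ?_ (i0 := (i0, j0)) ?_
    · rw [Fintype.sum_prod_type]
      simpa [← sum_mul, ← mul_sum, mul_comm] using h1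
    · refine ⟨-∑ i, t i * Q ^ (l : ℕ), ?_⟩
      rw [Fintype.sum_prod_type, mul_neg, eq_neg_iff_add_eq_zero, ← h2, mul_sum, ← sum_add_distrib]
      refine sum_congr rfl fun i _ => ?_
      simp only [a, ← mul_sum]
      push_cast
      ring
    · rintro ⟨i, j⟩ h
      simp only [Prod.mk.injEq] at h ⊢
      obtain ⟨h4, rfl, h5⟩ := h
      exact ⟨h3 i (K.inj l j h4) h5, rfl⟩
  have hnk : 0 < n * k := by positivity
  have hainj : ∀ l w, Function.Injective (a l w) := by
    intro l w f f' h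
    funext j
    by_contra hne
    have := hind l Bool (fun _ => w) (fun i => cond i f f') (fun i => cond i 1 (-1))
      (by simp; omega) (by simp [h]) true j (by
        rintro (_ | _) _ h
        · exact absurd h.symm hne
        · rfl)
    simp at this
  have hmain : ∀ l, #(K.W l) * s * R ≤ 16 * k ^ 2 * (#(T l) * R + #C) := by
    intro l
    let G : K.W l → (ι → Fin s) → ι → C := fun w f j => ⟨g l w f j, hg1 l w f j⟩
    have := stepB (E := K.W l) (S := Fin s) (β := C)
      (fun w f => (univ.erase (top l w f)).image (G w f)) (B := k * (n * d) ^ (k - 1)) (R := R)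
      (θ := θ) (T := #(T l)) (fun w f => card_image_le.trans_lt (by
        rw [card_erase_of_mem (mem_univ _), card_univ]; omega)) (fun w c => ?_) hθ0 hR0
      (by rw [Fintype.card_fin, hs]) ?_ hι fun C' j Y hY => ?_
    · rwa [Fintype.card_coe, Fintype.card_fin, Fintype.card_coe] at this
    · have hG : Function.Injective (G w) := fun f f' h => hainj l w (by
        rw [← hg2, ← hg2]
        exact sum_congr rfl fun j _ => congrArg Subtype.val (congrFun h j))
      have h1 : ({f | c ∈ (univ.erase (top l w f)).image (G w f)} : Finset (ι → Fin s)).image (G w)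
          ⊆ univ.biUnion fun j => {r : ι → C | ∀ i ∈ ({j} : Finset ι), r i = c} := by
        intro r hr
        obtain ⟨f, hf, rfl⟩ := mem_image.1 hr
        obtain ⟨j, -, hj⟩ := mem_image.1 (mem_filter.1 hf).2
        exact mem_biUnion.2 ⟨j, mem_univ _, by simpa using hj⟩
      rw [← card_image_of_injective _ hG]
      refine (card_le_card h1).trans (card_biUnion_le.trans
        ((sum_le_card_nsmul _ _ ((n * d) ^ (k - 1)) fun j _ => ?_).trans (by simp [hk])))
      have h2 := count_fix {j} (fun _ : ι => c)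
      have h3 : 0 < #C := card_pos.2 ⟨_, c.2⟩
      rw [card_singleton, pow_one, Fintype.card_coe, ← hk, show k = k - 1 + 1 by omega,
        pow_succ] at h2
      rw [Nat.eq_of_mul_eq_mul_right h3 h2]
      exact Nat.pow_le_pow_left hN _
    · rw [Fintype.card_fin, ← hk]
      refine le_of_eq ?_
      calc _ = (4 * k ^ 3 * R ^ k * θ) * s ^ (k - 1) := by
            rw [hθ, hn, show m * (k * s) * d = (m * k * d) * s by ring, mul_pow _ s]; ring
        _ = _ := by rw [← hs, ← pow_succ', Nat.sub_add_cancel hι]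
    · choose f hf1 hf2 using fun p : Y => hY p p.2
      by_contra hlt'
      have hY' : Fintype.card Y ≤ n := by
        rw [Fintype.card_coe, hn]
        refine (card_le_univ Y).trans ?_
        rw [Fintype.card_prod, Fintype.card_coe, Fintype.card_fin]
        exact Nat.mul_le_mul (card_le_univ _) (Nat.le_mul_of_pos_left _ hι)
      obtain ⟨t, ht, ht1, ht2⟩ := small_relation (T l ∪ C'.image Subtype.val)
        (fun (p : Y) i => g l p.1.1 (f p) i) (fun p i => by
          by_cases h : i = top l p.1.1 (f p)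
          · exact mem_union_left _ (h ▸ hT _ _ _)
          · exact mem_union_right _ (mem_image.2 ⟨G p.1.1 (f p) i,
              hf2 p (mem_image_of_mem _ (mem_erase.2 ⟨h, mem_univ _⟩)), rfl⟩)) hι (by
          rw [Fintype.card_coe]
          refine lt_of_le_of_lt (Nat.mul_le_mul_left _ ((card_union_le _ _).trans ?_)) (not_le.1 hlt')
          exact Nat.add_le_add_left card_image_le _)
      refine ht (funext fun p => hind l Y (fun p => p.1.1) f t ?_ (by simpa only [hg2] using ht2)
        p j fun p' h1 h2 => Subtype.ext (Prod.ext (Subtype.ext h1) (by rwa [hf1, hf1] at h2)))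
      have h4 : ∑ i, |t i| ≤ n * (n * k) := by
        refine (sum_le_card_nsmul _ _ _ fun i _ => ht1 i).trans ?_
        rw [card_univ, nsmul_eq_mul]
        have : (Fintype.card Y : ℤ) ≤ n := by exact_mod_cast hY'
        gcongr
      calc (∑ i, |t i|) * k ≤ n * (n * k) * k := by gcongr
        _ < Q := by rw [hQ]; push_cast; nlinarith
  have h1 : ∀ l, n * R ≤ 96 * k ^ 3 * (#(T l) * R + #C) := fun l =>
    calc n * R = m * (k * s * R) := by rw [hn]; ring
      _ ≤ (6 * #(K.W l)) * (k * s * R) := Nat.mul_le_mul_right _ (K.big l)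
      _ = 6 * k * (#(K.W l) * s * R) := by ring
      _ ≤ 6 * k * (16 * k ^ 2 * (#(T l) * R + #C)) := Nat.mul_le_mul_left _ (hmain l)
      _ = _ := by ring
  have h2 : d * (n * R) ≤ 96 * k ^ 3 * (#C * R + d * #C) := by
    calc d * (n * R) = ∑ _l : Fin d, n * R := by simp
      _ ≤ ∑ l, 96 * k ^ 3 * (#(T l) * R + #C) := sum_le_sum fun l _ => h1 l
      _ = 96 * k ^ 3 * ((∑ l, #(T l)) * R + d * #C) := by
          rw [← mul_sum, sum_add_distrib, ← sum_mul]; simp
      _ ≤ _ := by gcongr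
  have h3 : d ≤ R := by rw [hR]; exact Nat.le_mul_of_pos_left _ (by positivity)
  have h4 : d * (n * R) ≤ 192 * k ^ 3 * #C * R :=
    h2.trans (by nlinarith [Nat.mul_le_mul_right (96 * k ^ 3 * #C) h3])
  have h5 : n * d ≤ 192 * k ^ 3 * #C := Nat.le_of_mul_le_mul_right (by linarith) hR0
  nlinarith [Nat.zero_le (k ^ 3 * #C)]

end Pool.Agent.Lib.MP_36fd63_nt
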