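import Pool.Agent.Lib.MP_36fd63_nt.H1Kik

/-! Covering signed sums by few patterns, and the classes of tuples. -/

set_option linter.unusedSectionVars false

namespace Pool.Agent.Lib.MP_36fd63_nt.Up

open Finset

variable {A : Type} [Fintype A] [DecidableEq A] {ι : Type} [Fintype ι] [DecidableEq ι]

/-- The weight of a family of patterns. -/
noncomputable def wt (κ : ℝ) (P : Finset (ι → Option A)) : ℝ := ∑ π ∈ P, (κ ^ #(supp π))⁻¹

lemma wt_union_le {κ : ℝ} (hκ : 0 < κ) (P Q : Finset (ι → Option A)) :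
    wt κ (P ∪ Q) ≤ wt κ P + wt κ Q := by
  rw [wt, wt, wt, ← sum_union_inter]
  exact le_add_of_nonneg_right (sum_nonneg fun _ _ => by positivity)

lemma greedy {T : Type} [DecidableEq T] {κ : ℝ} (hκ : 0 < κ) (w w' : T → ι → Option A)
    (F : Finset T) (h : ∀ F' ⊆ F, F'.Nonempty → ¬(Spread κ F' w ∧ Spread κ F' w')) :
    ∃ P : Finset (ι → Option A), (∀ π ∈ P, (supp π).Nonempty) ∧
      wt κ P ≤ 2 * Real.log (#F + 1) ∧ ∀ μ ∈ F, ∃ π ∈ P, Sub π (w μ) ∨ Sub π (w' μ) := by
  induction F using Finset.strongInduction with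
  | H F ih =>
  rcases F.eq_empty_or_nonempty with rfl | hF
  · exact ⟨∅, by simp, by simp [wt], by simp⟩
  obtain ⟨u, hu, π, hπ⟩ : ∃ u : T → ι → Option A, (u = w ∨ u = w') ∧ ∃ π : ι → Option A,
      (#F : ℝ) < κ ^ #(supp π) * #{μ ∈ F | Sub π (u μ)} := by
    rcases not_and_or.1 (h F Subset.rfl hF) with h1 | h1
    · exact ⟨w, Or.inl rfl, by simpa [Spread] using h1⟩
    · exact ⟨w', Or.inr rfl, by simpa [Spread] using h1⟩
  have hc := card_filter_add_card_filter_not (s := F) fun μ => Sub π (u μ)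
  have hc' : (#{μ ∈ F | Sub π (u μ)} : ℝ) + #{μ ∈ F | ¬Sub π (u μ)} = #F := by exact_mod_cast hc
  have hF0 : (1 : ℝ) ≤ #F := by exact_mod_cast hF.card_pos
  have hk : 0 < κ ^ #(supp π) := by positivity
  have hr : (0 : ℝ) < #{μ ∈ F | Sub π (u μ)} := by
    by_contra h1
    have := mul_nonpos_of_nonneg_of_nonpos hk.le (not_lt.1 h1)
    linarith
  have hs : (0 : ℝ) ≤ #{μ ∈ F | ¬Sub π (u μ)} := by positivity
  obtain ⟨P, h1, h2, h3⟩ := ih {μ ∈ F | ¬Sub π (u μ)}
    (Finset.ssubset_iff_subset_ne.2 ⟨filter_subset _ _, fun h1 => by rw [h1] at hc'; linarith⟩)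
    fun F' hF' => h F' (hF'.trans (filter_subset _ _))
  refine ⟨{π} ∪ P, fun π' hπ' => ?_, (wt_union_le hκ _ _).trans ?_, fun μ hμ => ?_⟩
  · rcases mem_union.1 hπ' with h4 | h4
    · rw [mem_singleton.1 h4, nonempty_iff_ne_empty]
      intro h5
      rw [h5, card_empty, pow_zero] at hπ
      linarith
    · exact h1 _ h4
  · rw [wt, sum_singleton]
    generalize (#{μ ∈ F | Sub π (u μ)} : ℝ) = r at *
    generalize (#{μ ∈ F | ¬Sub π (u μ)} : ℝ) = s at *
    generalize (#F : ℝ) = f at *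
    have h4 := Real.one_sub_inv_le_log_of_pos (x := (f + 1) / (s + 1)) (by positivity)
    rw [Real.log_div (by positivity) (by positivity), inv_div] at h4
    have h5 : (κ ^ #(supp π))⁻¹ ≤ 2 * (1 - (s + 1) / (f + 1)) := by
      rw [inv_le_iff_one_le_mul₀ hk, show 1 - (s + 1) / (f + 1) = r / (f + 1) by
        field_simp; linarith, ← mul_div_assoc, div_mul_eq_mul_div, le_div_iff₀ (by positivity)]
      linarith
    linarith
  · by_cases h4 : Sub π (u μ)
    · refine ⟨π, by simp, ?_⟩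
      rcases hu with rfl | rfl
      · exact Or.inl h4
      · exact Or.inr h4
    · obtain ⟨π', h5, h6⟩ := h3 μ (mem_filter.2 ⟨hμ, h4⟩)
      exact ⟨π', mem_union_right _ h5, h6⟩

/-- The restriction of a tuple to a set of places. -/
def res (e : ι → A) (I : Finset ι) : ι → Option A := fun i => if i ∈ I then some (e i) else none

lemma supp_res (e : ι → A) (I : Finset ι) : supp (res e I) = I := by
  ext i
  by_cases h : i ∈ I <;> simp [supp, res, h]

lemma pv_res (v : A → ℤ) (e : ι → A) (I : Finset ι) : pv v (res e I) = ∑ i ∈ I, v (e i) := by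
  rw [pv, ← sum_filter_add_sum_filter_not univ (· ∈ I), sum_eq_zero (s := filter (¬· ∈ I) univ)
    fun i hi => by simp [res, (mem_filter.1 hi).2, ov], add_zero, filter_mem_eq_inter, univ_inter]
  exact sum_congr rfl fun i hi => by simp [res, hi, ov]

lemma res_inj {e e' : ι → A} {I I' : Finset ι} (h : res e I = res e' I') :
    I = I' ∧ ∀ i ∈ I, e i = e' i := by
  have h1 : I = I' := by rw [← supp_res e I, h, supp_res]
  subst h1
  exact ⟨rfl, fun i hi => by simpa [res, hi] using congrFun h i⟩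

/-- The tuples with a sum, or a difference of sums, between `M` and `H` are covered by a light
family of patterns. -/
def Cover (ι : Type) [Fintype ι] [DecidableEq ι] (v : A → ℤ) (κ L : ℝ) (M H : ℕ) : Prop :=
  ∃ P : Finset (ι → Option A), (∀ π ∈ P, (supp π).Nonempty) ∧ wt κ P ≤ L ∧
    (∀ e : ι → A, (M : ℤ) ≤ ∑ i, v (e i) → ∑ i, v (e i) ≤ H → ∀ I : Finset ι,
      ∃ I', (I' ⊆ I ∨ I' ⊆ Iᶜ) ∧ res e I' ∈ P) ∧
    ∀ (e e' : ι → A) (I : Finset ι), (∀ i ∈ I, e i = e' i) →
      (M : ℤ) ≤ |∑ i, v (e i) - ∑ i, v (e' i)| → |∑ i, v (e i) - ∑ i, v (e' i)| ≤ H →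
      ∃ I' ⊆ Iᶜ, res e I' ∈ P ∨ res e' I' ∈ P

lemma sub_res {π : ι → Option (A × Bool)} {e : ι → A} {I : Finset ι} {s : Bool}
    (h : Sub π (res (fun i => (e i, s)) I)) :
    supp π ⊆ I ∧ res e (supp π) = fun i => (π i).map Prod.fst := by
  refine ⟨fun i hi => ?_, funext fun i => ?_⟩
  · have h1 : π i ≠ none := by simpa [supp] using hi
    by_contra h2
    exact h1 (by simpa [res, h2] using (h i h1).symm)
  · by_cases h1 : π i = none
    · simp [res, supp, h1]
    · have h2 := h i h1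
      by_cases h3 : i ∈ I
      · simp only [res, h3, if_true] at h2
        simp [res, supp, ← h2]
      · exact absurd (by simpa [res, h3] using h2.symm) h1

theorem exists_pot_cover [Nonempty A] (v : A → ℤ) {κ : ℝ} {m : ℕ} (hm : 1 ≤ m) (hκ0 : 0 < κ)
    (hκ : 4 * (Fintype.card A : ℝ) ≤ κ * m) : ∃ ψ : ℕ → ℝ, (∀ M, 1 ≤ M → 0 ≤ ψ M) ∧
      (∀ M, 1 ≤ M → ψ M ≤ 8 * 4 ^ Fintype.card ι * (Fintype.card ι * m *
        Real.log (4 * Fintype.card A))) ∧
      ∀ M H : ℕ, 1 ≤ M → ¬Cover ι v κ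
        (2 * Real.log ((2 * Fintype.card A + 1) ^ (2 * Fintype.card ι) + 1)) M H →
        ψ M + 1 ≤ ψ (3 * H) := by
  let v' : A × Bool → ℤ := fun q => if q.2 then v q.1 else -v q.1
  have hc : (Fintype.card (A × Bool) : ℝ) = 2 * Fintype.card A := by simp [mul_comm]
  obtain ⟨ψ, h1, h2, h3⟩ := exists_pot (ι := ι) v' hm (κ := κ) (by rw [hc]; linarith)
  refine ⟨ψ, h1, fun M hM => by
    simpa only [hc, ← mul_assoc, show (2 : ℝ) * 2 = 4 by norm_num] using h2 M hM,
    fun M H hM hC => ?_⟩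
  by_contra hlt
  let F : Finset ((ι → Option (A × Bool)) × (ι → Option (A × Bool))) :=
    {q | (M : ℤ) ≤ |pv v' q.1 - pv v' q.2| ∧ |pv v' q.1 - pv v' q.2| ≤ H}
  obtain ⟨P, a1, a2, a3⟩ := greedy hκ0 Prod.fst Prod.snd F fun F' hF' hne hs =>
    hlt (h3 M H _ F' _ _ hM hne hs.1 hs.2 fun μ hμ => (mem_filter.1 (hF' hμ)).2)
  have hsupp : ∀ π : ι → Option (A × Bool), supp (fun i => (π i).map Prod.fst) = supp π :=
    fun π => by ext i; simp [supp]
  have hp : ∀ (e : ι → A) (I : Finset ι),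
      pv v' (res (fun i => (e i, true)) I) = ∑ i ∈ I, v (e i) := fun e I => by
    simp [pv_res, v']
  have hn : ∀ (e : ι → A) (I : Finset ι),
      pv v' (res (fun i => (e i, false)) I) = -∑ i ∈ I, v (e i) := fun e I => by
    simp [pv_res, v']
  refine hC ⟨P.image fun π i => (π i).map Prod.fst, fun π hπ => ?_, ?_, fun e b1 b2 I => ?_,
    fun e e' I b1 b2 b3 => ?_⟩
  · obtain ⟨π, h4, rfl⟩ := mem_image.1 hπ
    rw [hsupp]
    exact a1 π h4
  · refine (sum_image_le_of_nonneg fun _ _ => by positivity).trans ?_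
    simp only [hsupp]
    refine a2.trans (mul_le_mul_of_nonneg_left (Real.log_le_log (by positivity) ?_) zero_le_two)
    have h4 : #F ≤ (2 * Fintype.card A + 1) ^ (2 * Fintype.card ι) :=
      (card_le_univ F).trans (le_of_eq (by simp [mul_comm, pow_mul, sq]))
    exact_mod_cast Nat.succ_le_succ h4
  · have h4 : pv v' (res (fun i => (e i, true)) I) - pv v' (res (fun i => (e i, false)) Iᶜ) =
        ∑ i, v (e i) := by rw [hp, hn, sub_neg_eq_add, sum_add_sum_compl]
    obtain ⟨π, h5, h6⟩ := a3 (res (fun i => (e i, true)) I, res (fun i => (e i, false)) Iᶜ) (by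
      simp only [F, mem_filter, mem_univ, true_and, h4]
      rw [abs_of_nonneg (by omega)]
      exact ⟨b1, b2⟩)
    rcases h6 with h6 | h6
    · exact ⟨supp π, Or.inl (sub_res h6).1, mem_image.2 ⟨π, h5, (sub_res h6).2.symm⟩⟩
    · exact ⟨supp π, Or.inr (sub_res h6).1, mem_image.2 ⟨π, h5, (sub_res h6).2.symm⟩⟩
  · have h4 : pv v' (res (fun i => (e i, true)) Iᶜ) - pv v' (res (fun i => (e' i, true)) Iᶜ) =
        ∑ i, v (e i) - ∑ i, v (e' i) := by
      rw [hp, hp, ← sum_add_sum_compl I fun i => v (e i), ← sum_add_sum_compl I fun i => v (e' i),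
        sum_congr (s₁ := I) (f := fun i => v (e i)) (g := fun i => v (e' i)) rfl
          fun i hi => by rw [b1 i hi]]
      ring
    obtain ⟨π, h5, h6⟩ := a3 (res (fun i => (e i, true)) Iᶜ, res (fun i => (e' i, true)) Iᶜ) (by
      simp only [F, mem_filter, mem_univ, true_and, h4]
      exact ⟨b2, b3⟩)
    rcases h6 with h6 | h6
    · exact ⟨supp π, (sub_res h6).1, Or.inl (mem_image.2 ⟨π, h5, (sub_res h6).2.symm⟩)⟩
    · exact ⟨supp π, (sub_res h6).1, Or.inr (mem_image.2 ⟨π, h5, (sub_res h6).2.symm⟩)⟩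

/-- Disjoint unions of at most `t` patterns of `P`. -/
def un (P : Finset (ι → Option A)) : ℕ → Finset (ι → Option A)
  | 0 => {fun _ => none}
  | t + 1 => un P t ∪ ((un P t ×ˢ P).filter fun q => Disjoint (supp q.1) (supp q.2)).image
      fun q i => (q.1 i).or (q.2 i)

lemma un_mono (P : Finset (ι → Option A)) : Monotone (un P) :=
  monotone_nat_of_le_succ fun _ => subset_union_left

lemma wt_un {κ L : ℝ} (hκ : 0 < κ) {P : Finset (ι → Option A)} (h : wt κ P ≤ L) (t : ℕ) :
    wt κ (un P t) ≤ (1 + L) ^ t := by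
  have h0 : ∀ Q : Finset (ι → Option A), 0 ≤ wt κ Q := fun Q =>
    sum_nonneg fun _ _ => by positivity
  induction t with
  | zero => simp [un, wt, supp]
  | succ t ih =>
    refine (wt_union_le hκ _ _).trans ?_
    have h1 : wt κ (((un P t ×ˢ P).filter fun q => Disjoint (supp q.1) (supp q.2)).image
        fun q i => (q.1 i).or (q.2 i)) ≤ wt κ (un P t) * wt κ P := by
      refine (sum_image_le_of_nonneg fun _ _ => by positivity).trans ?_
      rw [wt, wt, sum_mul_sum, ← sum_product']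
      refine le_trans (le_of_eq (sum_congr rfl fun q hq => ?_))
        (sum_le_sum_of_subset_of_nonneg (filter_subset _ _) fun _ _ _ => by positivity)
      have h2 : supp (fun i => (q.1 i).or (q.2 i)) = supp q.1 ∪ supp q.2 := by
        ext i
        cases h3 : q.1 i <;> simp [supp, h3]
      rw [h2, card_union_of_disjoint (mem_filter.1 hq).2, pow_add, mul_inv]
    have h2 := mul_le_mul ih h (h0 P) ((h0 _).trans ih)
    rw [pow_succ]
    linarith

lemma res_union_mem {P : Finset (ι → Option A)} {t : ℕ} {e : ι → A} {I I' : Finset ι}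
    (h : res e I ∈ un P t) (h' : res e I' ∈ P) (hd : Disjoint I I') :
    res e (I ∪ I') ∈ un P (t + 1) := by
  refine mem_union_right _ (mem_image.2 ⟨(res e I, res e I'), mem_filter.2
    ⟨mem_product.2 ⟨h, h'⟩, by simpa only [supp_res] using hd⟩, funext fun i => ?_⟩)
  by_cases h1 : i ∈ I <;> by_cases h2 : i ∈ I' <;> simp [res, h1, h2]

lemma res_mem_un {P : Finset (ι → Option A)} (hP : ∀ π ∈ P, (supp π).Nonempty) {e : ι → A}
    {I : Finset ι} (h : res e I ∈ P) : res e I ∈ un P #I := by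
  have h1 := res_union_mem (P := P) (t := 0) (e := e) (I := ∅)
    (mem_singleton.2 (funext fun i => by simp [res])) h (disjoint_empty_left I)
  rw [empty_union] at h1
  have h2 := hP _ h
  rw [supp_res] at h2
  exact un_mono P h2.card_pos h1

/-- The proper disjoint unions of patterns of `P`. -/
def prop (P : Finset (ι → Option A)) : Finset (ι → Option A) :=
  {δ ∈ un P (Fintype.card ι) | supp δ ≠ univ}

lemma card_prop {κ L : ℝ} (hκ : 1 ≤ κ) {P : Finset (ι → Option A)} (h : wt κ P ≤ L) :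
    (#(prop P) : ℝ) ≤ κ ^ (Fintype.card ι - 1) * (1 + L) ^ Fintype.card ι := by
  have hκ0 : 0 < κ := by linarith
  refine le_trans ?_ (mul_le_mul_of_nonneg_left (wt_un hκ0 h _) (by positivity))
  rw [wt, mul_sum, card_eq_sum_ones, Nat.cast_sum]
  refine le_trans (sum_le_sum fun δ hδ => ?_)
    (sum_le_sum_of_subset_of_nonneg (filter_subset _ _) fun _ _ _ => by positivity)
  have h1 : #(supp δ) < Fintype.card ι := (card_lt_iff_ne_univ _).2 (mem_filter.1 hδ).2
  rw [Nat.cast_one, ← div_eq_mul_inv, one_le_div (by positivity)]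
  exact pow_le_pow_right₀ hκ (by omega)

lemma exists_class {P : Finset (ι → Option A)} (hP : ∀ π ∈ P, (supp π).Nonempty) {e : ι → A}
    {I₀ : Finset ι} (h : res e I₀ ∈ P) (h0 : I₀ ≠ univ) :
    ∃ I : Finset ι, I.Nonempty ∧ I ≠ univ ∧ res e I ∈ prop P ∧
      (res e Iᶜ ∈ prop P ∨ ∀ I' ⊆ Iᶜ, res e I' ∉ P) := by
  have hne : ∀ I, res e I ∈ P → I.Nonempty := fun I hI => supp_res e I ▸ hP _ hI
  obtain ⟨I, hI, hmax⟩ := exists_max_image
    ({I | I.Nonempty ∧ I ≠ univ ∧ res e I ∈ un P #I} : Finset (Finset ι)) card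
    ⟨I₀, mem_filter.2 ⟨mem_univ _, hne _ h, h0, res_mem_un hP h⟩⟩
  obtain ⟨-, h1, h2, h3⟩ := mem_filter.1 hI
  refine ⟨I, h1, h2, mem_filter.2 ⟨un_mono P (card_le_univ I) h3, by rwa [supp_res]⟩, ?_⟩
  by_cases h4 : ∃ I' ⊆ Iᶜ, res e I' ∈ P
  · obtain ⟨I', h5, h6⟩ := h4
    have hd : Disjoint I I' := disjoint_compl_right.mono_right h5
    have h7 := (hne _ h6).card_pos
    have h8 := card_union_of_disjoint hd
    have h9 : I ∪ I' = univ := by
      by_contra h9
      have := hmax (I ∪ I') (mem_filter.2 ⟨mem_univ _, h1.mono subset_union_left, h9,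
        un_mono P (by omega) (res_union_mem h3 h6 hd)⟩)
      omega
    have h10 : I' = Iᶜ := Subset.antisymm h5 fun i hi =>
      (mem_union.1 (h9 ▸ mem_univ i)).resolve_left (mem_compl.1 hi)
    refine Or.inl (mem_filter.2 ⟨un_mono P (card_le_univ _) (res_mem_un hP (h10 ▸ h6)), ?_⟩)
    rw [supp_res]
    simpa using h1.ne_empty
  · exact Or.inr fun I' h5 h6 => h4 ⟨I', h5, h6⟩

end Pool.Agent.Lib.MP_36fd63_nt.Up
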