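import Mathlib

/-! Planted random sums: a spread family of signed sums of one size forces a doubling. -/

set_option linter.unusedSectionVars false

namespace Pool.Agent.Lib.MP_36fd63_nt.Up

open Finset

variable {A : Type} [Fintype A] [DecidableEq A] {m : ℕ}

/-- The value of an optional letter. -/
def ov (v : A → ℤ) (o : Option A) : ℤ := o.elim 0 v

/-- The value of a block. -/
def bv (v : A → ℤ) (y : Fin m → A × Bool) : ℤ := ∑ t, if (y t).2 then v (y t).1 else 0

/-- Planting an optional letter into a block. -/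
def pl (o : Option A) (j : (Fin m → A × Bool) × Fin m × A) : Fin m → A × Bool :=
  Function.update j.1 j.2.1 (o.elim (j.2.2, false) fun a => (a, true))

lemma bv_pl (v : A → ℤ) (o : Option A) (j : (Fin m → A × Bool) × Fin m × A) :
    bv v (pl o j) = ov v o + ∑ t ∈ univ.erase j.2.1, if (j.1 t).2 then v (j.1 t).1 else 0 := by
  rw [bv, ← add_sum_erase _ _ (mem_univ j.2.1)]
  congr 1
  · cases o <;> simp [pl, ov]
  · exact sum_congr rfl fun t ht => by rw [pl, Function.update_of_ne (ne_of_mem_erase ht)]

/-- The number of plantings with a given outcome. -/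
def G (o : Option A) (y : Fin m → A × Bool) : ℕ := #{j | pl o j = y}

/-- The number of occurrences of a letter. -/
def cnt (a : A) (y : Fin m → A × Bool) : ℕ := #{t | y t = (a, true)}

lemma G_none (y : Fin m → A × Bool) : G none y ≤ 2 * Fintype.card A * m := by
  have : #(univ : Finset ((A × Bool) × Fin m)) = 2 * Fintype.card A * m := by
    simp [mul_comm]
  rw [← this]
  refine card_le_card_of_surjOn (fun q => (Function.update y q.2 q.1, q.2, (y q.2).1)) ?_
  rintro ⟨x, t, z⟩ hj
  have h : pl none (x, t, z) = y := by simpa using hj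
  refine ⟨(x t, t), by simp, ?_⟩
  subst h
  simp [pl]

lemma G_some (a : A) (y : Fin m → A × Bool) :
    G (some a) y ≤ 2 * Fintype.card A * Fintype.card A * cnt a y := by
  have : #((univ : Finset ((A × Bool) × A)) ×ˢ ({t | y t = (a, true)} : Finset (Fin m))) =
      2 * Fintype.card A * Fintype.card A * cnt a y := by
    simp [cnt, mul_comm]
  rw [← this]
  refine card_le_card_of_surjOn (fun q => (Function.update y q.2 q.1.1, q.2, q.1.2)) ?_
  rintro ⟨x, t, z⟩ hj
  have h : pl (some a) (x, t, z) = y := by simpa using hj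
  refine ⟨((x t, z), t), ?_, ?_⟩
  · subst h
    simp [pl]
  · subst h
    simp [pl]

lemma sum_G_mul (o : Option A) (f : (Fin m → A × Bool) → ℕ) :
    ∑ y, G o y * f y = ∑ j, f (pl o j) := by
  rw [← sum_fiberwise (s := univ) (g := pl o) (f := fun j => f (pl o j))]
  refine sum_congr rfl fun y _ => ?_
  rw [sum_congr rfl fun j hj => by rw [(mem_filter.1 hj).2], sum_const, smul_eq_mul, G]

lemma sum_cnt (a : A) : 2 * Fintype.card A * ∑ x : Fin m → A × Bool, cnt a x =
    m * (2 * Fintype.card A) ^ m := by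
  have h1 : ∀ t : Fin m, #{x : Fin m → A × Bool | x t = (a, true)} =
      (2 * Fintype.card A) ^ (m - 1) := fun t => by
    have := Fintype.card_filter_piFinset_const_eq_of_mem (univ : Finset (A × Bool)) t
      (mem_univ (a, true))
    simpa [mul_comm] using this
  have h2 : ∑ x : Fin m → A × Bool, cnt a x =
      ∑ t : Fin m, #{x : Fin m → A × Bool | x t = (a, true)} := by
    simp only [cnt, card_filter]
    exact sum_comm
  rw [h2]
  simp only [h1, sum_const, card_univ, Fintype.card_fin, smul_eq_mul]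
  cases m with
  | zero => simp
  | succ m => rw [Nat.add_sub_cancel]; ring

lemma cnt_pl (a b : A) (j : (Fin m → A × Bool) × Fin m × A) :
    cnt b (pl (some a) j) ≤ cnt b j.1 + if a = b then 1 else 0 := by
  split_ifs with h
  · refine (card_le_card (t := insert j.2.1 (univ.filter fun t => j.1 t = (b, true)))
      fun t ht => ?_).trans (card_insert_le _ _)
    by_cases h1 : t = j.2.1
    · simp [h1]
    · simpa [pl, Function.update_of_ne h1, h1] using ht
  · rw [add_zero]
    refine card_le_card fun t ht => ?_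
    by_cases h1 : t = j.2.1
    · simp [pl, h1, h] at ht
    · simpa [pl, Function.update_of_ne h1] using ht

lemma card_J : Fintype.card ((Fin m → A × Bool) × Fin m × A) =
    (2 * Fintype.card A) ^ m * m * Fintype.card A := by
  simp [mul_comm, mul_left_comm, mul_assoc]

/-- The inner product of two planting densities. -/
lemma inner_G {κ : ℝ} (hκ : 2 * (Fintype.card A : ℝ) ≤ κ * m) (o o' : Option A) :
    (∑ y : Fin m → A × Bool, (G o y : ℝ) * G o' y) ≤
      2 * ((2 * Fintype.card A) ^ m * m ^ 2 * (Fintype.card A) ^ 2) *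
        (1 + if o = o' ∧ o ≠ none then κ else 0) := by
  have hn : ∀ o : Option A, (∑ y : Fin m → A × Bool, (G o y : ℝ) * G none y) ≤
      2 * ((2 * Fintype.card A) ^ m * m ^ 2 * (Fintype.card A) ^ 2) := fun o => by
    have h1 : ∑ y : Fin m → A × Bool, G o y * G none y ≤
        2 * ((2 * Fintype.card A) ^ m * m ^ 2 * (Fintype.card A) ^ 2) := by
      rw [sum_G_mul]
      refine (sum_le_card_nsmul _ _ _ fun j _ => G_none _).trans (le_of_eq ?_)
      rw [card_univ, card_J, smul_eq_mul]
      ring
    exact_mod_cast h1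
  rcases o' with _ | b
  · simpa using hn o
  rcases o with _ | a
  · simpa [mul_comm] using hn (some b)
  have h1 : ∑ y : Fin m → A × Bool, G (some a) y * G (some b) y ≤
      (2 * Fintype.card A) ^ m * m ^ 2 * (Fintype.card A) ^ 2 +
        2 * Fintype.card A * ((2 * Fintype.card A) ^ m * m * (Fintype.card A) ^ 2) *
          if a = b then 1 else 0 := by
    rw [sum_G_mul]
    refine (sum_le_sum fun j _ => (G_some b _).trans
      (Nat.mul_le_mul_left _ (cnt_pl a b j))).trans (le_of_eq ?_)
    rw [← mul_sum, sum_add_distrib, sum_const, card_univ, card_J, smul_eq_mul,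
      Fintype.sum_prod_type]
    simp only [sum_const, card_univ, Fintype.card_prod, Fintype.card_fin, smul_eq_mul]
    rw [← mul_sum]
    have := sum_cnt (m := m) b
    calc _ = Fintype.card A * (m * Fintype.card A) *
          (2 * Fintype.card A * ∑ x : Fin m → A × Bool, cnt b x) +
          2 * Fintype.card A * ((2 * Fintype.card A) ^ m * m * (Fintype.card A) ^ 2) *
          if a = b then 1 else 0 := by ring
      _ = _ := by rw [this]; ring
  have h2 : (∑ y : Fin m → A × Bool, (G (some a) y : ℝ) * G (some b) y) ≤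
      (2 * Fintype.card A) ^ m * m ^ 2 * (Fintype.card A) ^ 2 +
        2 * Fintype.card A * ((2 * Fintype.card A) ^ m * m * (Fintype.card A) ^ 2) *
          if a = b then 1 else 0 := by exact_mod_cast h1
  refine h2.trans ?_
  have h3 : (0 : ℝ) ≤ (2 * Fintype.card A) ^ m * m * (Fintype.card A) ^ 2 := by positivity
  have h4 : (0 : ℝ) ≤ (2 * Fintype.card A) ^ m * m ^ 2 * (Fintype.card A) ^ 2 := by positivity
  by_cases h : a = b
  · have h5 := mul_le_mul_of_nonneg_right hκ h3
    have h6 : (0 : ℝ) ≤ 2 * Fintype.card A := by positivity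
    have h7 := mul_nonneg h6 h3
    simp only [h, if_true, ne_eq, reduceCtorEq, not_false_eq_true, and_self]
    nlinarith
  · simp only [h, if_false, Option.some.injEq, false_and]
    linarith

variable {ι : Type} [Fintype ι] [DecidableEq ι]

/-- The support of a pattern. -/
def supp (π : ι → Option A) : Finset ι := {i | π i ≠ none}

/-- The pattern `π` occurs in `w`. -/
def Sub (π w : ι → Option A) : Prop := ∀ i, π i ≠ none → w i = π i

instance subDec (π w : ι → Option A) : Decidable (Sub π w) := by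
  unfold Sub
  infer_instance

/-- No pattern occurs too often in the family. -/
def Spread {T : Type} (κ : ℝ) (F : Finset T) (w : T → ι → Option A) : Prop :=
  ∀ π : ι → Option A, κ ^ #(supp π) * #{μ ∈ F | Sub π (w μ)} ≤ #F

lemma Spread.sum_prod {T : Type} {κ : ℝ} {F : Finset T} {w : T → ι → Option A}
    (h : Spread κ F w) (u : ι → Option A) :
    ∑ μ ∈ F, ∏ i, (1 + if u i = w μ i ∧ u i ≠ none then κ else 0) ≤
      2 ^ Fintype.card ι * #F := by
  simp only [prod_one_add]
  rw [sum_comm]
  refine (sum_le_card_nsmul _ _ (#F : ℝ) fun I _ => ?_).trans (by simp)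
  by_cases hI : ∀ i ∈ I, u i ≠ none
  · have h1 := h fun i => if i ∈ I then u i else none
    have h2 : supp (fun i => if i ∈ I then u i else none) = I := by
      ext i
      by_cases hi : i ∈ I
      · simp [supp, hi, hI i hi]
      · simp [supp, hi]
    rw [h2] at h1
    refine le_trans (le_of_eq ?_) h1
    rw [card_filter, Nat.cast_sum, mul_sum]
    refine sum_congr rfl fun μ _ => ?_
    by_cases h3 : Sub (fun i => if i ∈ I then u i else none) (w μ)
    · rw [if_pos h3, Nat.cast_one, mul_one, ← prod_const]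
      refine prod_congr rfl fun i hi => if_pos ⟨?_, hI i hi⟩
      have := h3 i (by simpa [hi] using hI i hi)
      simpa [hi] using this.symm
    · rw [if_neg h3, Nat.cast_zero, mul_zero]
      simp only [Sub, not_forall] at h3
      obtain ⟨i, h4, h5⟩ := h3
      have hi : i ∈ I := by
        by_contra hi
        simp [hi] at h4
      refine prod_eq_zero hi (if_neg fun h6 => h5 ?_)
      simpa [hi] using h6.1.symm
  · simp only [not_forall, not_not] at hI
    obtain ⟨i, hi, h1⟩ := hI
    rw [sum_eq_zero fun μ _ => prod_eq_zero hi (by simp [h1])]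
    positivity

/-- The number of plantings of the family that land in `D`. -/
def hits {T : Type} (F : Finset T) (w : T → ι → Option A) (D : Finset (ι → Fin m → A × Bool)) :
    ℕ :=
  ∑ μ ∈ F, #{j : ι → (Fin m → A × Bool) × Fin m × A | (fun i => pl (w μ i) (j i)) ∈ D}

lemma hits_eq {T : Type} (F : Finset T) (w : T → ι → Option A)
    (D : Finset (ι → Fin m → A × Bool)) :
    hits F w D = ∑ y ∈ D, ∑ μ ∈ F, ∏ i, G (w μ i) (y i) := by
  rw [sum_comm]
  refine sum_congr rfl fun μ _ => ?_
  rw [card_eq_sum_card_fiberwise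
    (f := fun (j : ι → (Fin m → A × Bool) × Fin m × A) i => pl (w μ i) (j i)) (t := D)
    (s := univ.filter fun j => (fun i => pl (w μ i) (j i)) ∈ D)
    fun j hj => (mem_filter.1 hj).2]
  refine sum_congr rfl fun y hy => ?_
  simp only [G]
  rw [← Fintype.card_piFinset]
  congr 1
  ext j
  simp only [mem_filter, mem_univ, true_and, Fintype.mem_piFinset]
  constructor
  · exact fun h i => congrFun h.2 i
  · intro h
    have := funext h
    exact ⟨this ▸ hy, this⟩

lemma hits_sq_le {T : Type} {κ : ℝ} (hκ : 2 * (Fintype.card A : ℝ) ≤ κ * m) {F : Finset T}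
    {w : T → ι → Option A} (h : Spread κ F w) (D : Finset (ι → Fin m → A × Bool)) :
    (hits F w D : ℝ) ^ 2 ≤ #D * (#F ^ 2 *
      (4 * ((2 * Fintype.card A) ^ m * m ^ 2 * (Fintype.card A) ^ 2)) ^ Fintype.card ι) := by
  rw [hits_eq]
  push_cast
  refine sq_sum_le_card_mul_sum_sq.trans (mul_le_mul_of_nonneg_left ?_ (by positivity))
  refine (sum_le_sum_of_subset_of_nonneg (subset_univ D) fun _ _ _ => sq_nonneg _).trans ?_
  set Z : ℝ := (2 * Fintype.card A) ^ m * m ^ 2 * (Fintype.card A) ^ 2 with hZ
  have hZ0 : 0 ≤ Z := by positivity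
  have h1 : ∑ y : ι → Fin m → A × Bool, (∑ μ ∈ F, ∏ i, (G (w μ i) (y i) : ℝ)) ^ 2 =
      ∑ μ ∈ F, ∑ μ' ∈ F, ∏ i, ∑ y : Fin m → A × Bool, (G (w μ i) y : ℝ) * G (w μ' i) y := by
    simp only [sq, sum_mul_sum, prod_univ_sum, Fintype.piFinset_univ, prod_mul_distrib]
    rw [sum_comm]
    exact sum_congr rfl fun μ _ => sum_comm
  rw [h1]
  refine (sum_le_card_nsmul _ _ ((2 * Z) ^ Fintype.card ι * (2 ^ Fintype.card ι * #F))
    fun μ _ => ?_).trans (le_of_eq ?_)
  · refine le_trans (sum_le_sum fun μ' _ => prod_le_prod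
      (fun i _ => sum_nonneg fun _ _ => by positivity)
      fun i _ => inner_G hκ (w μ i) (w μ' i)) ?_
    simp only [prod_mul_distrib, prod_const, card_univ, ← mul_sum, ← hZ]
    rw [← mul_pow]
    exact mul_le_mul_of_nonneg_left (h.sum_prod (w μ)) (by positivity)
  · rw [nsmul_eq_mul, show (4 : ℝ) * Z = 2 * Z * 2 by ring, mul_pow (2 * Z)]
    ring

/-- The value of a pattern. -/
def pv (v : A → ℤ) (w : ι → Option A) : ℤ := ∑ i, ov v (w i)

/-- The number of outcomes with a value close to that of `y`. -/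
def rho (v : A → ℤ) (M : ℕ) (y : ι → Fin m → A × Bool) : ℕ :=
  #{y' : ι → Fin m → A × Bool | 2 * |∑ i, bv v (y' i) - ∑ i, bv v (y i)| < M}

lemma rho_pos (v : A → ℤ) {M : ℕ} (hM : 1 ≤ M) (y : ι → Fin m → A × Bool) : 0 < rho v M y :=
  card_pos.2 ⟨y, by simp; omega⟩

lemma rho_mono (v : A → ℤ) {M M' : ℕ} (hM : M ≤ M') (y : ι → Fin m → A × Bool) :
    rho v M y ≤ rho v M' y :=
  card_le_card fun y' hy => by
    simp only [mem_filter, mem_univ, true_and] at hy ⊢
    omega

lemma rho_double (v : A → ℤ) {M H : ℕ} {y y' : ι → Fin m → A × Bool}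
    (h1 : (M : ℤ) ≤ |∑ i, bv v (y i) - ∑ i, bv v (y' i)|)
    (h2 : |∑ i, bv v (y i) - ∑ i, bv v (y' i)| ≤ H) :
    rho v M y + rho v M y' ≤ rho v (3 * H) y := by
  rw [rho, rho, ← card_union_of_disjoint]
  · refine card_le_card fun z hz => ?_
    simp only [mem_union, mem_filter, mem_univ, true_and] at hz ⊢
    push_cast
    generalize ∑ i, bv v (y i) = a at *
    generalize ∑ i, bv v (y' i) = b at *
    generalize ∑ i, bv v (z i) = c at *
    rcases abs_cases (a - b) with h3 | h3 <;> rcases abs_cases (c - a) with h4 | h4 <;>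
      rcases abs_cases (c - b) with h5 | h5 <;> omega
  · refine disjoint_left.2 fun z hz hz' => ?_
    simp only [mem_filter, mem_univ, true_and] at hz hz'
    generalize ∑ i, bv v (y i) = a at *
    generalize ∑ i, bv v (y' i) = b at *
    generalize ∑ i, bv v (z i) = c at *
    rcases abs_cases (a - b) with h3 | h3 <;> rcases abs_cases (c - a) with h4 | h4 <;>
      rcases abs_cases (c - b) with h5 | h5 <;> omega

/-- A spread family of differences between `M` and `H` makes many outcomes double. -/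
lemma many_double [Nonempty A] (v : A → ℤ) {κ : ℝ} (hm : 1 ≤ m)
    (hκ : 2 * (Fintype.card A : ℝ) ≤ κ * m) {T : Type} {F : Finset T} (hF : F.Nonempty)
    {w w' : T → ι → Option A} (h : Spread κ F w) (h' : Spread κ F w') {M H : ℕ}
    (hv : ∀ μ ∈ F, (M : ℤ) ≤ |pv v (w μ) - pv v (w' μ)| ∧ |pv v (w μ) - pv v (w' μ)| ≤ H) :
    (Fintype.card (ι → Fin m → A × Bool) : ℝ) ≤ 4 * 4 ^ Fintype.card ι *
      #{y : ι → Fin m → A × Bool | 2 * rho v M y ≤ rho v (3 * H) y} := by
  set D : Finset (ι → Fin m → A × Bool) := {y | 2 * rho v M y ≤ rho v (3 * H) y} with hD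
  have h1 : #F * ((2 * Fintype.card A) ^ m * m * Fintype.card A) ^ Fintype.card ι ≤
      hits F w D + hits F w' D := by
    rw [hits, hits, ← sum_add_distrib, ← smul_eq_mul]
    refine card_nsmul_le_sum _ _ _ fun μ hμ => le_trans ?_ (card_union_le _ _)
    rw [← card_J, ← Fintype.card_fun, ← card_univ]
    refine card_le_card fun j _ => ?_
    have h2 : ∑ i, bv v (pl (w μ i) (j i)) - ∑ i, bv v (pl (w' μ i) (j i)) =
        pv v (w μ) - pv v (w' μ) := by
      simp only [bv_pl, sum_add_distrib, pv]
      ring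
    have h3 := hv μ hμ
    rw [← h2] at h3
    have h4 := rho_double v h3.1 h3.2
    rw [abs_sub_comm] at h3
    have h5 := rho_double v h3.1 h3.2
    simp only [hD, mem_union, mem_filter, mem_univ, true_and]
    omega
  have h2 := hits_sq_le hκ h D
  have h3 := hits_sq_le hκ h' D
  have h4 : (#F * ((2 * Fintype.card A) ^ m * m * Fintype.card A) ^ Fintype.card ι : ℝ) ≤
      hits F w D + hits F w' D := by exact_mod_cast h1
  have hA : (0 : ℝ) < Fintype.card A := by exact_mod_cast Fintype.card_pos
  have hm' : (0 : ℝ) < m := by exact_mod_cast hm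
  have hF' : (0 : ℝ) < #F := by exact_mod_cast hF.card_pos
  have h5 : (Fintype.card (ι → Fin m → A × Bool) : ℝ) =
      ((2 * Fintype.card A) ^ m) ^ Fintype.card ι := by
    simp [mul_comm]
  rw [h5]
  set S : ℝ := (2 * Fintype.card A) ^ m with hS
  have hS0 : 0 < S := by positivity
  have h6 := pow_le_pow_left₀ (by positivity) h4 2
  have h7 : (hits F w D + hits F w' D : ℝ) ^ 2 ≤ 4 * (#D * (#F ^ 2 *
      (4 * (S * m ^ 2 * (Fintype.card A) ^ 2)) ^ Fintype.card ι)) := by
    nlinarith [sq_nonneg ((hits F w D : ℝ) - hits F w' D)]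
  have h8 : (0 : ℝ) < #F ^ 2 * (S * m ^ 2 * (Fintype.card A) ^ 2) ^ Fintype.card ι := by
    positivity
  refine le_of_mul_le_mul_right (le_trans (le_of_eq ?_) ((h6.trans h7).trans (le_of_eq ?_))) h8
  · simp only [mul_pow, ← pow_mul]
    ring
  · rw [mul_pow 4]
    ring

/-- The doubling potential. -/
theorem exists_pot [Nonempty A] (v : A → ℤ) {κ : ℝ} (hm : 1 ≤ m)
    (hκ : 2 * (Fintype.card A : ℝ) ≤ κ * m) : ∃ ψ : ℕ → ℝ, (∀ M, 1 ≤ M → 0 ≤ ψ M) ∧
      (∀ M, 1 ≤ M → ψ M ≤ 8 * 4 ^ Fintype.card ι * (Fintype.card ι * m *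
        Real.log (2 * Fintype.card A))) ∧
      ∀ (M H : ℕ) (T : Type) (F : Finset T) (w w' : T → ι → Option A), 1 ≤ M → F.Nonempty →
        Spread κ F w → Spread κ F w' →
        (∀ μ ∈ F, (M : ℤ) ≤ |pv v (w μ) - pv v (w' μ)| ∧ |pv v (w μ) - pv v (w' μ)| ≤ H) →
        ψ M + 1 ≤ ψ (3 * H) := by
  set N : ℝ := (Fintype.card (ι → Fin m → A × Bool) : ℝ) with hN
  have hN0 : 0 < N := by rw [hN]; exact_mod_cast Fintype.card_pos
  have hc : 0 < 8 * 4 ^ Fintype.card ι / N := by positivity
  refine ⟨fun M => 8 * 4 ^ Fintype.card ι / N *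
    ∑ y : ι → Fin m → A × Bool, Real.log (rho v M y), fun M hM => ?_, fun M hM => ?_,
    fun M H T F w w' hM hF h h' hv => ?_⟩
  · exact mul_nonneg hc.le (sum_nonneg fun y _ => Real.log_natCast_nonneg _)
  · have h1 : ∑ y : ι → Fin m → A × Bool, Real.log (rho v M y) ≤ N * Real.log N := by
      refine (sum_le_card_nsmul _ _ (Real.log N) fun y _ => ?_).trans (by simp [hN])
      refine Real.log_le_log (by exact_mod_cast rho_pos v hM y) ?_
      rw [hN]
      exact_mod_cast card_le_univ _
    refine (mul_le_mul_of_nonneg_left h1 hc.le).trans (le_of_eq ?_)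
    have h5 : N = ((2 * Fintype.card A) ^ m) ^ Fintype.card ι := by
      simp [hN, mul_comm]
    rw [← mul_assoc, div_mul_cancel₀ _ hN0.ne', h5, Real.log_pow, Real.log_pow]
    ring
  · have h1 := many_double v hm hκ hF h h' hv
    have hMH : M ≤ 3 * H := by
      obtain ⟨μ, hμ⟩ := hF
      have := (hv μ hμ).1.trans (hv μ hμ).2
      omega
    have h2 : ∑ y : ι → Fin m → A × Bool, Real.log (rho v M y) +
        #{y : ι → Fin m → A × Bool | 2 * rho v M y ≤ rho v (3 * H) y} / 2 ≤
        ∑ y : ι → Fin m → A × Bool, Real.log (rho v (3 * H) y) := by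
      rw [card_filter, Nat.cast_sum, sum_div, ← sum_add_distrib]
      refine sum_le_sum fun y _ => ?_
      have h3 : (0 : ℝ) < rho v M y := by exact_mod_cast rho_pos v hM y
      split_ifs with h4
      · have h5 : (2 * rho v M y : ℝ) ≤ rho v (3 * H) y := by exact_mod_cast h4
        have h6 := Real.log_le_log (by positivity) h5
        rw [Real.log_mul two_ne_zero h3.ne'] at h6
        have := Real.log_two_gt_d9
        push_cast
        linarith
      · simpa using Real.log_le_log h3 (by exact_mod_cast rho_mono v hMH y)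
    refine le_trans ?_ (mul_le_mul_of_nonneg_left h2 hc.le)
    rw [mul_add]
    refine add_le_add le_rfl ?_
    rw [div_mul_eq_mul_div, le_div_iff₀ hN0]
    linarith

end Pool.Agent.Lib.MP_36fd63_nt.Up
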