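import Pool.Agent.Lib.MP_36fd63_nt.H1Win

/-! The induction over windows and the final count. -/

set_option linter.unusedSectionVars false

namespace Pool.Agent.Lib.MP_36fd63_nt.Up

open Finset

variable {A : Type} [Fintype A] [DecidableEq A] {ι : Type} [Fintype ι] [DecidableEq ι]

lemma naive [Nonempty ι] (v : A → ℤ) {H : ℕ} (hH : Fintype.card ι ≤ H) :
    ∃ C : Finset ℤ, #C ≤ Fintype.card A * (12 * Fintype.card ι ^ 2) ∧
      ∀ e : ι → A, (H : ℤ) ≤ ∑ i, v (e i) → ∑ i, v (e i) ≤ 6 * Fintype.card ι * H →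
        Rep ι C (∑ i, v (e i)) := by
  have hk : 0 < Fintype.card ι := Fintype.card_pos
  generalize hk' : Fintype.card ι = k at *
  have hM : 1 ≤ H / k := (Nat.le_div_iff_mul_le hk).2 (by omega)
  have h1 : k * (H / k) ≤ H := Nat.mul_div_le H k
  have h2 : H < k * (H / k + 1) := Nat.lt_mul_div_succ H hk
  generalize H / k = M at *
  have h3 : 6 * k * H < 12 * k ^ 2 * M := by nlinarith [Nat.mul_le_mul_left k hM]
  have h4 : M ≤ 12 * k ^ 2 * M := Nat.le_mul_of_pos_left _ (by positivity)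
  have h1' : (k : ℤ) * M ≤ H := by exact_mod_cast h1
  have h3' : (6 : ℤ) * k * H < ((12 * k ^ 2 : ℕ) : ℤ) * M := by exact_mod_cast h3
  have h4' : (M : ℤ) ≤ ((12 * k ^ 2 : ℕ) : ℤ) * M := by exact_mod_cast h4
  have hC : ∀ (a : A) (c : ℤ), (M : ℤ) ∣ c - v a → 0 ≤ c → c < ((12 * k ^ 2 : ℕ) : ℤ) * M →
      c ∈ univ.biUnion fun a => prog M (v a) 0 (12 * k ^ 2) := fun a c b1 b2 b3 =>
    mem_biUnion.2 ⟨a, mem_univ a, mem_prog hM b1 b2 (by linarith)⟩
  refine ⟨univ.biUnion fun a => prog M (v a) 0 (12 * k ^ 2),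
    card_biUnion_le_card_mul _ _ _ fun a _ => card_prog _ _ _ _, fun e b1 b2 => ?_⟩
  refine rep_one v hM e (Classical.arbitrary ι) (by rw [hk']; linarith) (fun a => hC a _ ?_
    (Int.emod_nonneg _ (by omega)) ((Int.emod_lt_of_pos _ (by omega)).trans_le h4'))
    fun c c1 c2 c3 => hC _ c c1 (by rw [hk'] at c2; linarith) (by linarith)
  rw [← dvd_neg, neg_sub]
  exact Int.dvd_self_sub_emod

lemma cover_zero (v : A → ℤ) (κ : ℝ) {L : ℝ} (hL : 0 ≤ L) {M : ℕ} (hM : 1 ≤ M) :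
    Cover ι v κ L M 0 :=
  ⟨∅, by simp, by simpa [wt] using hL, fun e h1 h2 => by omega, fun e e' I _ h1 h2 => by omega⟩

theorem all_windows [Nontrivial ι] (v : A → ℤ) {κ L β c : ℝ} (hL : 0 ≤ L) {ψ : ℕ → ℝ}
    (h0 : ∀ M, 1 ≤ M → 0 ≤ ψ M) (h1 : ∀ M, 1 ≤ M → ψ M ≤ β)
    (h2 : ∀ M H : ℕ, 1 ≤ M → ¬Cover ι v κ L M H → ψ M + 1 ≤ ψ (3 * H))
    (h3 : ∀ M H : ℕ, 1 ≤ M → Cover ι v κ L M H → ∃ C : Finset ℤ, (#C : ℝ) ≤ c ∧
      ∀ e : ι → A, 2 * Fintype.card ι * M ≤ ∑ i, v (e i) → ∑ i, v (e i) ≤ H →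
        Rep ι C (∑ i, v (e i))) :
    ∃ C : Finset ℤ, (#C : ℝ) ≤ 2 * Fintype.card ι +
      (β + 1) * (c + Fintype.card A * (12 * Fintype.card ι ^ 2)) ∧
      ∀ e : ι → A, 0 ≤ ∑ i, v (e i) → Rep ι C (∑ i, v (e i)) := by
  classical
  have hk : 0 < Fintype.card ι := Fintype.card_pos
  have hc : 0 ≤ c := by
    obtain ⟨C, h4, -⟩ := h3 1 0 le_rfl (cover_zero v κ hL le_rfl)
    exact le_trans (by positivity) h4
  set c' : ℝ := c + Fintype.card A * (12 * Fintype.card ι ^ 2) with hc'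
  have hcc : c ≤ c' := le_add_of_nonneg_right (by positivity)
  have key : ∀ b : ℕ, ∀ M, 1 ≤ M → β < ψ M + b → ∃ C : Finset ℤ, (#C : ℝ) ≤ b * c' ∧
      ∀ e : ι → A, 2 * Fintype.card ι * M ≤ ∑ i, v (e i) → Rep ι C (∑ i, v (e i)) := by
    intro b
    induction b with
    | zero => exact fun M hM h => absurd (h1 M hM) (by simpa using h)
    | succ b ih =>
      intro M hM h
      by_cases h4 : ∃ H, ¬Cover ι v κ L M H
      · have h5 := Nat.find_spec h4
        obtain ⟨H, hH⟩ : ∃ H, Nat.find h4 = H + 1 := Nat.exists_eq_succ_of_ne_zero fun h6 =>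
          (h6 ▸ h5) (cover_zero v κ hL hM)
        have h6 : Cover ι v κ L M H := not_not.1 (Nat.find_min h4 (by omega))
        rw [hH] at h5
        obtain ⟨C₁, a1, a2⟩ := h3 M H hM h6
        obtain ⟨C₂, b1, b2⟩ := naive (ι := ι) v (H := max (H + 1) (2 * Fintype.card ι * M))
          (le_max_of_le_right (by nlinarith))
        obtain ⟨C₃, c1, c2⟩ := ih (3 * (H + 1)) (by omega) (by
          have := h2 M _ hM h5
          push_cast at h
          linarith)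
        refine ⟨C₁ ∪ (C₂ ∪ C₃), ?_, fun e he => ?_⟩
        · have d1 : (#(C₁ ∪ (C₂ ∪ C₃)) : ℝ) ≤ #C₁ + (#C₂ + #C₃) := by
            exact_mod_cast (card_union_le _ _).trans (add_le_add le_rfl (card_union_le _ _))
          have d2 : (#C₂ : ℝ) ≤ Fintype.card A * (12 * Fintype.card ι ^ 2) := by exact_mod_cast b1
          push_cast
          linarith
        by_cases d1 : ∑ i, v (e i) ≤ H
        · exact (a2 e he d1).mono subset_union_left
        by_cases d2 : ∑ i, v (e i) ≤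
          6 * Fintype.card ι * (max (H + 1) (2 * Fintype.card ι * M) : ℕ)
        · refine (b2 e ?_ d2).mono (subset_union_left.trans subset_union_right)
          push_cast
          exact max_le (by omega) he
        · refine (c2 e (le_trans ?_ (not_le.1 d2).le)).mono
            (subset_union_right.trans subset_union_right)
          have d3 : 2 * Fintype.card ι * (3 * (H + 1)) ≤
              6 * Fintype.card ι * max (H + 1) (2 * Fintype.card ι * M) :=
            le_trans (le_of_eq (by ring)) (Nat.mul_le_mul_left _ (le_max_left _ _))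
          exact_mod_cast d3
      · obtain ⟨C, a1, a2⟩ := h3 M (univ.sup fun e : ι → A => (∑ i, v (e i)).toNat) hM
          (not_not.1 fun h5 => h4 ⟨_, h5⟩)
        refine ⟨C, ?_, fun e he => a2 e he ?_⟩
        · push_cast
          nlinarith [mul_nonneg (Nat.cast_nonneg (α := ℝ) b) (hc.trans hcc)]
        · have := le_sup (f := fun e : ι → A => (∑ i, v (e i)).toNat) (mem_univ e)
          omega
  have hβ : 0 ≤ β := (h0 1 le_rfl).trans (h1 1 le_rfl)
  obtain ⟨C, a1, a2⟩ := key (⌊β⌋₊ + 1) 1 le_rfl (by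
    have := Nat.lt_floor_add_one β
    have := h0 1 le_rfl
    push_cast
    linarith)
  refine ⟨Ico (0 : ℤ) (2 * Fintype.card ι) ∪ C, ?_, fun e he => ?_⟩
  · have d1 : #(Ico (0 : ℤ) (2 * Fintype.card ι) ∪ C) ≤ 2 * Fintype.card ι + #C :=
      (card_union_le _ _).trans (add_le_add (by rw [Int.card_Ico]; omega) le_rfl)
    have d2 : (#(Ico (0 : ℤ) (2 * Fintype.card ι) ∪ C) : ℝ) ≤ 2 * Fintype.card ι + #C := by
      exact_mod_cast d1
    refine d2.trans (add_le_add le_rfl (a1.trans ?_))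
    push_cast
    exact mul_le_mul_of_nonneg_right (by linarith [Nat.floor_le hβ]) (hc.trans hcc)
  by_cases d1 : 2 * Fintype.card ι * (1 : ℕ) ≤ ∑ i, v (e i)
  · exact (a2 e d1).mono subset_union_right
  · refine ⟨Pi.single (Classical.arbitrary ι) (∑ i, v (e i)), fun i => ?_, by simp⟩
    rw [Pi.single_apply]
    split_ifs
    · exact ⟨mem_union_left _ (mem_Ico.2 ⟨he, by omega⟩), he⟩
    · exact ⟨mem_union_left _ (mem_Ico.2 ⟨le_rfl, by omega⟩), le_rfl⟩

lemma numeric {k n κ x g β c : ℝ} {j : ℕ} (hk : 0 ≤ k) (hn : 1 ≤ n) (hx : 1 ≤ x) (hg : 1 ≤ 2 * g)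
    {K₁ K₂ : ℝ} (hK₁ : 0 ≤ K₁) (hβ0 : 0 ≤ β) (hβ : β ≤ K₁ * (x * g))
    (hc0 : 0 ≤ c) (hc : c ≤ n + K₂ * (n * g ^ (j + 1))) :
    2 * k + (β + 1) * (c + n * κ) ≤
      (2 * k * 2 ^ (j + 2) + (K₁ + 2) * (K₂ + (1 + |κ|) * 2 ^ (j + 1))) * (n * x) * g ^ (j + 2) := by
  have hg0 : 0 ≤ g := by linarith
  have h1 : ∀ i : ℕ, 1 ≤ 2 ^ i * g ^ i := fun i => by
    rw [← mul_pow]
    exact one_le_pow₀ hg
  have h2 : β + 1 ≤ (K₁ + 2) * (x * g) := by nlinarith
  have h3 : c + n * |κ| ≤ (K₂ + (1 + |κ|) * 2 ^ (j + 1)) * (n * g ^ (j + 1)) := by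
    have := mul_le_mul_of_nonneg_left (h1 (j + 1)) (show 0 ≤ (1 + |κ|) * n by positivity)
    nlinarith
  have h4 : (β + 1) * (c + n * κ) ≤ (β + 1) * (c + n * |κ|) := by
    gcongr
    exact le_abs_self κ
  have h5 := mul_le_mul h2 h3 (by positivity) (by positivity)
  have h6 : 2 * k ≤ 2 * k * ((n * x) * (2 ^ (j + 2) * g ^ (j + 2))) :=
    le_mul_of_one_le_right (by positivity)
      (one_le_mul_of_one_le_of_one_le (one_le_mul_of_one_le_of_one_le hn hx) (h1 _))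
  calc _ ≤ 2 * k * ((n * x) * (2 ^ (j + 2) * g ^ (j + 2))) + (K₁ + 2) * (x * g) *
        ((K₂ + (1 + |κ|) * 2 ^ (j + 1)) * (n * g ^ (j + 1))) := by linarith
    _ = _ := by ring

theorem upper (k : ℕ) (hk : 2 ≤ k) : ∃ K : ℝ, ∀ (A : Type) [Fintype A] [DecidableEq A]
    (v : A → ℤ), 2 ≤ Fintype.card A → ∃ C : Finset ℤ,
      (#C : ℝ) ≤ K * (Fintype.card A : ℝ) ^ (2 - 1 / ((k : ℝ) - 1)) *
        Real.log (Fintype.card A) ^ (k + 2) ∧
      ∀ e : Fin k → A, 0 ≤ ∑ i, v (e i) → Rep (Fin k) C (∑ i, v (e i)) := by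
  refine ⟨2 * k * 2 ^ (k + 2) + (120 * 4 ^ k * k + 2) * ((12 * k + 4) ^ k * (k * (10 * k + 12)) +
    (1 + |12 * (k : ℝ) ^ 2|) * 2 ^ (k + 1)), fun A _ _ v hA => ?_⟩
  have : Nonempty A := Fintype.card_pos_iff.1 (by omega)
  have : Nontrivial (Fin k) := Fin.nontrivial_iff_two_le.2 hk
  obtain ⟨n, hn⟩ : ∃ n : ℝ, n = Fintype.card A := ⟨_, rfl⟩
  have hn2 : 2 ≤ n := by rw [hn]; exact_mod_cast hA
  have hk' : (2 : ℝ) ≤ k := by exact_mod_cast hk
  obtain ⟨κ, hκ⟩ : ∃ κ : ℝ, κ = n ^ (1 / ((k : ℝ) - 1)) := ⟨_, rfl⟩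
  have hκ1 : 1 ≤ κ := hκ ▸ Real.one_le_rpow (by linarith) (one_div_nonneg.2 (by linarith))
  have hκn : κ ≤ n := by
    rw [hκ]
    exact Real.rpow_le_self_of_one_le (by linarith) ((div_le_one (by linarith)).2 (by linarith))
  have hκk : κ ^ (k - 1) = n := by
    rw [hκ, ← Real.rpow_natCast, ← Real.rpow_mul (by linarith), Nat.cast_sub (by omega),
      Nat.cast_one, one_div_mul_cancel (by linarith), Real.rpow_one]
  have hx : 1 ≤ n / κ := (one_le_div (by linarith)).2 hκn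
  have hpow : n ^ (2 - 1 / ((k : ℝ) - 1)) = n * (n / κ) := by
    rw [Real.rpow_sub (by linarith), ← hκ, Real.rpow_two]
    ring
  have hl2 := Real.log_two_gt_d9
  have hg : 1 ≤ 2 * Real.log n := by linarith [Real.log_le_log two_pos hn2]
  have hm : (⌈4 * n / κ⌉₊ : ℝ) ≤ 5 * (n / κ) := by
    have := Nat.ceil_lt_add_one (show 0 ≤ 4 * n / κ by positivity)
    rw [mul_div_assoc] at this ⊢
    linarith
  obtain ⟨ψ, h0, h1, h2⟩ := exists_pot_cover (ι := Fin k) v (κ := κ) (m := ⌈4 * n / κ⌉₊)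
    (Nat.ceil_pos.2 (by positivity)) (by linarith) (by
      rw [← hn, mul_comm κ, ← div_le_iff₀ (by linarith)]
      exact Nat.le_ceil _)
  have hl : 2 * (Fintype.card A + 1) ^ Fintype.card (Fin k) ≤
      2 ^ (k * (Nat.log 2 (Fintype.card A) + 1) + 1) := by
    rw [Fintype.card_fin, pow_succ' 2, mul_comm k, pow_mul]
    exact Nat.mul_le_mul_left _ (Nat.pow_le_pow_left (Nat.lt_pow_succ_log_self one_lt_two _) _)
  have hL0 : 0 ≤ 2 * Real.log ((2 * n + 1) ^ (2 * k) + 1) :=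
    mul_nonneg zero_le_two (Real.log_nonneg (le_add_of_nonneg_left (by positivity)))
  simp only [Fintype.card_fin, ← hn] at h1 h2
  obtain ⟨C, a1, a2⟩ := all_windows v hL0 h0 h1 h2 fun M H hM h => h.basis hκ1 hM hl
  refine ⟨C, a1.trans ?_, a2⟩
  simp only [Fintype.card_fin, ← hn]
  rw [hpow, hκk]
  have hlog : (Nat.log 2 (Fintype.card A) : ℝ) ≤ 2 * Real.log n := by
    have b1 : ((2 : ℝ)) ^ Nat.log 2 (Fintype.card A) ≤ n := by
      rw [hn]
      exact_mod_cast Nat.pow_log_le_self 2 (by omega)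
    have b2 := Real.log_le_log (by positivity) b1
    rw [Real.log_pow] at b2
    nlinarith [Nat.cast_nonneg (α := ℝ) (Nat.log 2 (Fintype.card A))]
  have hL : 1 + 2 * Real.log ((2 * n + 1) ^ (2 * k) + 1) ≤ (12 * k + 4) * Real.log n := by
    have b1 : 2 * n + 1 ≤ n ^ 3 := by
      nlinarith [sq_nonneg (n - 2), mul_nonneg (sub_nonneg.2 hn2) (sq_nonneg n)]
    have b2 : (2 * n + 1) ^ (2 * k) ≤ n ^ (6 * k) := by
      rw [show 6 * k = 3 * (2 * k) by ring, pow_mul n]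
      exact pow_le_pow_left₀ (by positivity) b1 _
    have b3 : 1 ≤ n ^ (6 * k) := one_le_pow₀ (by linarith)
    have b4 : (2 * n + 1) ^ (2 * k) + 1 ≤ n ^ (6 * k + 1) := by
      rw [pow_succ]
      nlinarith
    have b5 := Real.log_le_log (by positivity) b4
    rw [Real.log_pow] at b5
    push_cast at b5
    linarith
  have h4n : Real.log (4 * n) ≤ 3 * Real.log n := by
    have b1 : 4 * n ≤ n ^ 3 := by
      nlinarith [sq_nonneg (n - 2), mul_nonneg (sub_nonneg.2 hn2) (sq_nonneg n)]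
    simpa using Real.log_le_log (by positivity) b1
  have h4n0 : 0 ≤ Real.log (4 * n) := Real.log_nonneg (by linarith)
  have hg0 : 0 ≤ Real.log n := by linarith
  have hn0 : 0 ≤ n := by linarith
  refine numeric (by positivity) (by linarith) hx hg (by positivity) (by positivity) ?_
    (by positivity) (add_le_add le_rfl ?_)
  · calc _ ≤ 8 * 4 ^ k * (k * (5 * (n / κ)) * (3 * Real.log n)) := by gcongr
      _ = _ := by ring
  · calc _ ≤ n * ((12 * k + 4) * Real.log n) ^ k * (k * ((10 * k + 12) * Real.log n)) := by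
          gcongr
          push_cast
          nlinarith
      _ = _ := by rw [mul_pow]; ring

end Pool.Agent.Lib.MP_36fd63_nt.Up
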