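import Pool.Agent.Lib.MP_36fd63_nt.H1Cov

/-! A small basis for the sums in a covered window. -/

set_option linter.unusedSectionVars false

namespace Pool.Agent.Lib.MP_36fd63_nt.Up

open Finset

variable {A : Type} [Fintype A] [DecidableEq A] {ι : Type} [Fintype ι] [DecidableEq ι]

/-- `a` is a sum of nonnegative elements of `C`. -/
def Rep (ι : Type) [Fintype ι] (C : Finset ℤ) (a : ℤ) : Prop :=
  ∃ c : ι → ℤ, (∀ i, c i ∈ C ∧ 0 ≤ c i) ∧ ∑ i, c i = a

lemma Rep.mono {C C' : Finset ℤ} {a : ℤ} (h : Rep ι C a) (hC : C ⊆ C') : Rep ι C' a :=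
  let ⟨c, h1, h2⟩ := h
  ⟨c, fun i => ⟨hC (h1 i).1, (h1 i).2⟩, h2⟩

/-- The first `t` numbers from `lo` on in the class of `b` modulo `M`. -/
def prog (M : ℕ) (b lo : ℤ) (t : ℕ) : Finset ℤ :=
  (range t).image fun j : ℕ => lo + (b - lo) % M + j * M

lemma card_prog (M : ℕ) (b lo : ℤ) (t : ℕ) : #(prog M b lo t) ≤ t :=
  card_image_le.trans (card_range t).le

lemma mem_prog {M t : ℕ} (hM : 1 ≤ M) {b lo c : ℤ} (h : (M : ℤ) ∣ c - b) (h1 : lo ≤ c)
    (h2 : c < lo + t * M) : c ∈ prog M b lo t := by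
  have hM' : (0 : ℤ) < M := by omega
  have h3 : 0 ≤ (c - lo) / M := Int.ediv_nonneg (by omega) hM'.le
  have h4 : (c - lo) / M < t := Int.ediv_lt_of_lt_mul hM' (by omega)
  refine mem_image.2 ⟨((c - lo) / M).toNat, mem_range.2 (by omega), ?_⟩
  have h5 : (b - lo) % M = (c - lo) % M :=
    (Int.emod_emod_of_dvd _ dvd_rfl).symm.trans <| (Int.emod_emod_of_dvd _ dvd_rfl).trans <|
      (Int.modEq_iff_dvd.2 (by simpa using h))
  rw [h5, Int.toNat_of_nonneg h3]
  have := Int.emod_add_ediv_mul (c - lo) M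
  omega

lemma exists_thresholds (l : ℕ) (P : Finset ℤ) (hP : #P ≤ 2 ^ l) :
    ∃ T : ℤ → Finset ℤ, (∀ p, #(T p) ≤ l + 1) ∧
      ∀ p ∈ P, ∀ p' ∈ P, p ≤ p' → ∃ τ ∈ T p, τ ∈ T p' ∧ p ≤ τ ∧ τ ≤ p' := by
  induction l generalizing P with
  | zero =>
    refine ⟨fun p => {p}, fun p => by simp, fun p hp p' hp' _ => ?_⟩
    have := card_le_one.1 (by simpa using hP) p hp p' hp'
    exact ⟨p, by simp, by simp [this], le_rfl, this.le⟩
  | succ l ih =>
    rcases P.eq_empty_or_nonempty with rfl | hne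
    · exact ⟨fun _ => ∅, by simp, by simp⟩
    obtain ⟨μ, h1, h2⟩ := exists_max_image {μ ∈ P | #{p ∈ P | p < μ} ≤ 2 ^ l} id
      ⟨P.min' hne, mem_filter.2 ⟨min'_mem _ _, by
        rw [filter_eq_empty_iff.2 fun p hp => not_lt.2 (min'_le P p hp)]
        simp⟩⟩
    have h3 : #{p ∈ P | μ < p} ≤ 2 ^ l := by
      rcases ({p ∈ P | μ < p} : Finset ℤ).eq_empty_or_nonempty with h | h
      · simp [h]
      have h4 := mem_filter.1 (min'_mem _ h)
      have h5 : ¬#{p ∈ P | p < min' _ h} ≤ 2 ^ l := fun h5 =>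
        not_lt.2 (h2 _ (mem_filter.2 ⟨h4.1, h5⟩)) h4.2
      have h6 : #{p ∈ P | p < min' _ h} + #{p ∈ P | μ < p} ≤ #P := by
        rw [← card_union_of_disjoint (disjoint_left.2 fun p hp hp' =>
          not_lt.2 (min'_le _ p hp') (mem_filter.1 hp).2)]
        exact card_le_card (union_subset (filter_subset _ _) (filter_subset _ _))
      rw [pow_succ] at hP
      omega
    obtain ⟨T₁, a1, a2⟩ := ih _ (mem_filter.1 h1).2
    obtain ⟨T₂, b1, b2⟩ := ih _ h3
    refine ⟨fun p => insert μ (if p < μ then T₁ p else T₂ p), fun p => ?_,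
      fun p hp p' hp' h => ?_⟩
    · refine (card_insert_le _ _).trans (Nat.succ_le_succ ?_)
      split_ifs
      · exact a1 p
      · exact b1 p
    · by_cases c1 : p' < μ
      · obtain ⟨τ, d1, d2, d3⟩ := a2 p (mem_filter.2 ⟨hp, by omega⟩) p' (mem_filter.2 ⟨hp', c1⟩) h
        exact ⟨τ, by simp [show p < μ by omega, d1], by simp [c1, d2], d3⟩
      by_cases c2 : μ < p
      · obtain ⟨τ, d1, d2, d3⟩ := b2 p (mem_filter.2 ⟨hp, c2⟩) p' (mem_filter.2 ⟨hp', by omega⟩) h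
        exact ⟨τ, by simp [show ¬p < μ by omega, d1], by simp [c1, d2], d3⟩
      · exact ⟨μ, by simp, by simp, by omega, by omega⟩

/-- The sum of the residues of a pattern outside one place. -/
def rest (v : A → ℤ) (M : ℕ) (δ : ι → Option A) (i : ι) : ℤ :=
  ∑ j ∈ univ.erase i, ov v (δ j) % M

lemma rest_res (v : A → ℤ) (M : ℕ) (e : ι → A) (I : Finset ι) (i : ι) :
    rest v M (res e I) i = ∑ j ∈ I.erase i, v (e j) % M := by
  rw [rest, ← sum_subset (erase_subset_erase i (subset_univ I)) fun j h1 h2 => ?_]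
  · exact sum_congr rfl fun j hj => by simp [res, mem_of_mem_erase hj, ov]
  · have : j ∉ I := fun h => h2 (mem_erase.2 ⟨ne_of_mem_erase h1, h⟩)
    simp [res, this, ov]

lemma rest_bounds (v : A → ℤ) {M : ℕ} (hM : 1 ≤ M) (δ : ι → Option A) (i : ι) :
    0 ≤ rest v M δ i ∧ rest v M δ i ≤ Fintype.card ι * M := by
  refine ⟨sum_nonneg fun j _ => Int.emod_nonneg _ (by omega), ?_⟩
  refine (sum_le_card_nsmul _ _ (M : ℤ) fun j _ => (Int.emod_lt_of_pos _ (by omega)).le).trans ?_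
  rw [nsmul_eq_mul]
  exact mul_le_mul_of_nonneg_right (by exact_mod_cast card_le_univ _) (by omega)

lemma exists_part (v : A → ℤ) {M : ℕ} (hM : 1 ≤ M) (e : ι → A) {I : Finset ι} {i : ι}
    (hi : i ∈ I) {ρ : ℤ} (hρ : Fintype.card ι * M ≤ ρ) {C : Finset ℤ} (h0 : ∀ a, v a % M ∈ C)
    (h1 : ρ - rest v M (res e I) i ∈ C) :
    ∃ c : ι → ℤ, (∀ j, c j ∈ C ∧ 0 ≤ c j) ∧ ∑ j ∈ I, c j = ρ := by
  refine ⟨fun j => if j = i then ρ - rest v M (res e I) i else v (e j) % M, fun j => ?_, ?_⟩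
  · dsimp only
    split_ifs
    · exact ⟨h1, by linarith [(rest_bounds v hM (res e I) i).2]⟩
    · exact ⟨h0 _, Int.emod_nonneg _ (by omega)⟩
  · rw [← add_sum_erase _ _ hi, if_pos rfl,
      sum_congr rfl fun j hj => if_neg (ne_of_mem_erase hj), rest_res, sub_add_cancel]

lemma rep_one (v : A → ℤ) {M : ℕ} (hM : 1 ≤ M) (e : ι → A) (i : ι)
    (hρ : Fintype.card ι * M ≤ ∑ j, v (e j)) {C : Finset ℤ} (h0 : ∀ a, v a % M ∈ C)
    (h1 : ∀ c, (M : ℤ) ∣ c - v (e i) → ∑ j, v (e j) - Fintype.card ι * M ≤ c →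
      c ≤ ∑ j, v (e j) → c ∈ C) : Rep ι C (∑ j, v (e j)) := by
  have h2 := rest_bounds v hM (res e univ) i
  refine exists_part v hM e (mem_univ i) hρ h0 (h1 _ ?_ (by linarith [h2.2]) (by linarith [h2.1]))
  rw [rest_res, ← add_sum_erase _ _ (mem_univ i), add_sub_assoc, add_sub_cancel_left,
    ← sum_sub_distrib]
  exact dvd_sum fun j _ => Int.dvd_self_sub_emod

lemma rep_two (v : A → ℤ) {M : ℕ} (hM : 1 ≤ M) (e : ι → A) {I : Finset ι} {i i' : ι}
    (hi : i ∈ I) (hi' : i' ∈ Iᶜ) {τ : ℤ} (hτ : Fintype.card ι * M ≤ pv v (res e I) - τ)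
    (hτ' : Fintype.card ι * M ≤ pv v (res e Iᶜ) + τ) {C : Finset ℤ} (h0 : ∀ a, v a % M ∈ C)
    (h1 : pv v (res e I) - τ - rest v M (res e I) i ∈ C)
    (h2 : pv v (res e Iᶜ) + τ - rest v M (res e Iᶜ) i' ∈ C) : Rep ι C (∑ j, v (e j)) := by
  obtain ⟨c, a1, a2⟩ := exists_part v hM e hi hτ h0 h1
  obtain ⟨c', b1, b2⟩ := exists_part v hM e hi' hτ' h0 h2
  refine ⟨fun j => if j ∈ I then c j else c' j, fun j => ?_, ?_⟩
  · dsimp only
    split_ifs
    · exact a1 j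
    · exact b1 j
  · rw [← sum_add_sum_compl I, sum_congr rfl fun j hj => if_pos hj,
      sum_congr rfl fun j hj => if_neg (mem_compl.1 hj), a2, b2, pv_res, pv_res,
      ← sum_add_sum_compl I]
    ring

theorem Cover.basis [Nontrivial ι] {v : A → ℤ} {κ L : ℝ} {M H l : ℕ} (h : Cover ι v κ L M H)
    (hκ : 1 ≤ κ) (hM : 1 ≤ M) (hl : 2 * (Fintype.card A + 1) ^ Fintype.card ι ≤ 2 ^ l) :
    ∃ C : Finset ℤ, (#C : ℝ) ≤ Fintype.card A + κ ^ (Fintype.card ι - 1) *
      (1 + L) ^ Fintype.card ι * (Fintype.card ι * (Fintype.card ι + 2 * l + 4)) ∧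
      ∀ e : ι → A, 2 * Fintype.card ι * M ≤ ∑ i, v (e i) → ∑ i, v (e i) ≤ H →
        Rep ι C (∑ i, v (e i)) := by
  obtain ⟨P, h1, h2, h3, h4⟩ := h
  set k := Fintype.card ι with hk
  have hk1 : (1 : ℤ) ≤ k := by exact_mod_cast Fintype.card_pos
  have hM1 : (1 : ℤ) ≤ M := by exact_mod_cast hM
  have hkM : (M : ℤ) ≤ k * M := by nlinarith
  have h5 : ∀ δ : ι → Option A, ∃ a₀ : ℤ, ∀ (e : ι → A) (I : Finset ι), res e I = δ →
      0 ≤ ∑ i, v (e i) → ∑ i, v (e i) ≤ H → (∀ I' ⊆ Iᶜ, res e I' ∉ P) →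
      |∑ i, v (e i) - a₀| < M := fun δ => by
    by_cases h5 : ∃ (e : ι → A) (I : Finset ι), res e I = δ ∧ 0 ≤ ∑ i, v (e i) ∧
      ∑ i, v (e i) ≤ H ∧ ∀ I' ⊆ Iᶜ, res e I' ∉ P
    · obtain ⟨e', I', a1, a2, a3, a4⟩ := h5
      refine ⟨∑ i, v (e' i), fun e I b1 b2 b3 b4 => ?_⟩
      obtain ⟨rfl, c1⟩ := res_inj (b1.trans a1.symm)
      by_contra c2
      obtain ⟨J, c3, c4⟩ := h4 e e' I c1 (not_lt.1 c2) (abs_le.2 ⟨by omega, by omega⟩)
      exact c4.elim (b4 J c3) (a4 J c3)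
    · exact ⟨0, fun e I b1 b2 b3 b4 => absurd ⟨e, I, b1, b2, b3, b4⟩ h5⟩
  choose a₀ ha₀ using h5
  obtain ⟨T, hT1, hT2⟩ := exists_thresholds l
    (((prop P).image fun δ => pv v δ - k * M) ∪ (prop P).image fun δ => k * M - pv v δ) (by
      refine ((card_union_le _ _).trans (add_le_add card_image_le card_image_le)).trans ?_
      have : #(prop P) ≤ (Fintype.card A + 1) ^ k := (card_le_univ _).trans (by simp [hk])
      omega)
  let S : (ι → Option A) × ι → Finset ℤ := fun q =>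
    prog M (ov v (q.1 q.2)) (a₀ q.1 - (k + 1) * M) (k + 2) ∪
      ((T (pv v q.1 - k * M)).image (fun τ => pv v q.1 - τ - rest v M q.1 q.2) ∪
        (T (k * M - pv v q.1)).image fun τ => pv v q.1 + τ - rest v M q.1 q.2)
  have hS : ∀ q, #(S q) ≤ k + 2 * l + 4 := fun q => by
    refine (card_union_le _ _).trans ((add_le_add (card_prog _ _ _ _) ((card_union_le _ _).trans
      (add_le_add (card_image_le.trans (hT1 _)) (card_image_le.trans (hT1 _))))).trans ?_)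
    omega
  have hC0 : ∀ a, v a % M ∈ (univ.image fun a => v a % M) ∪ (prop P ×ˢ univ).biUnion S :=
    fun a => mem_union_left _ (mem_image_of_mem _ (mem_univ a))
  have hC1 : ∀ δ ∈ prop P, ∀ i, S (δ, i) ⊆
      (univ.image fun a => v a % M) ∪ (prop P ×ˢ univ).biUnion S := fun δ hδ i =>
    (subset_biUnion_of_mem S (mem_product.2 ⟨hδ, mem_univ i⟩)).trans subset_union_right
  refine ⟨(univ.image fun a => v a % M) ∪ (prop P ×ˢ univ).biUnion S, ?_, fun e b1 b2 => ?_⟩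
  · have a1 : #((univ.image fun a => v a % M) ∪ (prop P ×ˢ univ).biUnion S) ≤
        Fintype.card A + #(prop P) * (k * (k + 2 * l + 4)) := by
      refine (card_union_le _ _).trans (add_le_add card_image_le ?_)
      refine (card_biUnion_le_card_mul _ _ _ fun q _ => hS q).trans (le_of_eq ?_)
      rw [card_product, card_univ, mul_assoc]
    have a2 : (#((univ.image fun a => v a % M) ∪ (prop P ×ˢ univ).biUnion S) : ℝ) ≤
        Fintype.card A + #(prop P) * (k * (k + 2 * l + 4)) := by exact_mod_cast a1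
    exact a2.trans (add_le_add le_rfl
      (mul_le_mul_of_nonneg_right (card_prop hκ h2) (by positivity)))
  have b3 : (k : ℤ) * M + k * M ≤ ∑ i, v (e i) := by linarith
  obtain ⟨i₀, i₁, hi⟩ := exists_pair_ne ι
  obtain ⟨I₀, c1, c2⟩ := h3 e (by omega) b2 {i₀}
  obtain ⟨I, ⟨i, d1⟩, d2, d3, d4⟩ := exists_class h1 c2 (by
    rintro rfl
    rcases c1 with c1 | c1
    · exact hi.symm (mem_singleton.1 (c1 (mem_univ i₁)))
    · simpa using c1 (mem_univ i₀))
  rcases d4 with d4 | d4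
  · obtain ⟨i', d5⟩ : Iᶜ.Nonempty := by
      rw [nonempty_iff_ne_empty]
      simpa using d2
    have d6 : pv v (res e I) + pv v (res e Iᶜ) = ∑ i, v (e i) := by
      rw [pv_res, pv_res, sum_add_sum_compl]
    obtain ⟨τ, e1, e2, e3, e4⟩ := hT2 (k * M - pv v (res e Iᶜ))
      (mem_union_right _ (mem_image_of_mem _ d4)) (pv v (res e I) - k * M)
      (mem_union_left _ (mem_image_of_mem _ d3)) (by omega)
    exact rep_two v hM e d1 d5 (τ := τ) (by rw [← hk]; omega) (by rw [← hk]; omega) hC0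
      (hC1 _ d3 i (mem_union_right _ (mem_union_left _ (mem_image_of_mem _ e2))))
      (hC1 _ d4 i' (mem_union_right _ (mem_union_right _ (mem_image_of_mem _ e1))))
  · have d5 := abs_lt.1 (ha₀ _ e I rfl (by omega) b2 d4)
    refine rep_one v hM e i (by rw [← hk]; omega) hC0
      fun c e1 e2 e3 => hC1 _ d3 i (mem_union_left _ ?_)
    rw [← hk] at e2
    refine mem_prog hM (by simpa [res, d1, ov] using e1) ?_ ?_
    · dsimp only
      linarith [d5.1]
    · dsimp only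
      push_cast
      linarith [d5.2]

end Pool.Agent.Lib.MP_36fd63_nt.Up
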