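import Mathlib

set_option autoImplicit false

namespace Pool.Agent.Lib.MP_36fd63_nt.H32

open Finset Module Submodule

/-- A family of vectors in dimension at most `N` is spanned by a list of `N` of its members. -/
theorem exists_code {T W : Type} [AddCommGroup W] [Module ℚ W] [FiniteDimensional ℚ W]
    (r : T → W) (R : Set T) {N : ℕ} (hN : finrank ℚ W ≤ N) :
    ∃ L : Fin N → Option T, (∀ i ρ, L i = some ρ → ρ ∈ R) ∧
      ∀ ρ ∈ R, r ρ ∈ span ℚ (Set.range fun i => (L i).elim 0 r) := by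
  classical
  obtain ⟨b, hb, hsp, hli⟩ := exists_linearIndependent ℚ (r '' R)
  have hfin : Finite b := hli.finite
  have := Fintype.ofFinite b
  have hc : Fintype.card b ≤ Fintype.card (Fin N) := by
    rw [Fintype.card_fin]
    exact hli.fintype_card_le_finrank.trans hN
  obtain ⟨g⟩ := Function.Embedding.nonempty_of_card_le hc
  choose pre hpre hr using fun x : b => hb x.2
  refine ⟨fun i => (Function.partialInv g i).map pre, fun i ρ h => ?_, fun ρ hρ => ?_⟩
  · obtain ⟨x, -, rfl⟩ := Option.map_eq_some_iff.1 h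
    exact hpre x
  · have h1 : r ρ ∈ span ℚ b := by
      rw [hsp]
      exact subset_span ⟨ρ, hρ, rfl⟩
    refine span_mono (fun x hx => ?_) h1
    refine Set.mem_range.2 ⟨g ⟨x, hx⟩, ?_⟩
    simp only [Function.partialInv_left g.injective, Option.map_some, Option.elim_some]
    exact hr _

/-- The relation vector of a tuple of indices and an edge. -/
noncomputable def rel {k m S : ℕ} (ρ : (Fin k → Fin S) × (Fin k → Fin m)) :
    Fin S ⊕ Fin k × Fin m → ℚ :=
  ∑ i, (Pi.single (Sum.inl (ρ.1 i)) 1 - Pi.single (Sum.inr (i, ρ.2 i)) 1)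

/-- Counting: if every hypergraph is the set of edges whose weight is a sum of `k` of `S` reals,
then there are enough codes. -/
theorem count {k m S : ℕ}
    (h : ∀ G : Finset (Fin k → Fin m), ∃ (β : Fin k × Fin m → ℝ) (γ : Fin S → ℝ),
      ∀ e, e ∈ G ↔ ∃ j : Fin k → Fin S, ∑ i, γ (j i) = ∑ i, β (i, e i)) :
    2 ^ (m ^ k) ≤ (S ^ k * m ^ k + 1) ^ (S + k * m) := by
  classical
  let dec : (Fin (S + k * m) → Option ((Fin k → Fin S) × (Fin k → Fin m))) →
      Finset (Fin k → Fin m) := fun L =>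
    univ.filter fun e => ∃ j, rel (j, e) ∈ span ℚ (Set.range fun i => (L i).elim 0 rel)
  have hs : Function.Surjective dec := by
    intro G
    obtain ⟨β, γ, hG⟩ := h G
    let φ : (Fin S ⊕ Fin k × Fin m → ℚ) →ₗ[ℚ] ℝ := Fintype.linearCombination ℚ (Sum.elim γ β)
    have hφ : ∀ ρ, φ (rel ρ) = ∑ i, γ (ρ.1 i) - ∑ i, β (i, ρ.2 i) := fun ρ => by
      simp only [rel, map_sum, map_sub, φ, Fintype.linearCombination_apply_single, one_smul,
        Sum.elim_inl, Sum.elim_inr, sum_sub_distrib]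
    obtain ⟨L, h1, h2⟩ := exists_code (rel (k := k) (m := m) (S := S)) {ρ | φ (rel ρ) = 0}
      (N := S + k * m) (by simp)
    refine ⟨L, ?_⟩
    ext e
    simp only [dec, mem_filter, mem_univ, true_and, hG]
    refine exists_congr fun j => ⟨fun hj => ?_, fun hj => h2 _ ?_⟩
    · have : span ℚ (Set.range fun i => (L i).elim 0 rel) ≤ LinearMap.ker φ := by
        rw [span_le]
        rintro _ ⟨i, rfl⟩
        cases hL : L i with
        | none => simp [hL]
        | some ρ => simpa [hL] using h1 i ρ hL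
      have h3 : φ (rel (j, e)) = 0 := this hj
      rw [hφ] at h3
      exact sub_eq_zero.1 h3
    · change φ (rel (j, e)) = 0
      rw [hφ]
      exact sub_eq_zero.2 hj
  have := Fintype.card_le_of_surjective dec hs
  simpa using this

/-- The rational number of a vertex: a prime for each edge outside `G`. -/
noncomputable def vert {k m : ℕ} (p : (Fin k → Fin m) → ℕ) (G : Finset (Fin k → Fin m))
    (x : Fin k × Fin m) : ℚ :=
  ∏ e ∈ Gᶜ, (p e : ℚ) ^ (if e x.1 = x.2 then (-1 : ℤ) else k)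

theorem vert_pos {k m : ℕ} {p : (Fin k → Fin m) → ℕ} (hp : ∀ e, (p e).Prime)
    (G : Finset (Fin k → Fin m)) (x : Fin k × Fin m) : 0 < vert p G x :=
  prod_pos fun e _ => zpow_pos (by exact_mod_cast (hp e).pos) _

theorem prod_vert {k m : ℕ} {p : (Fin k → Fin m) → ℕ} (hp : ∀ e, (p e).Prime)
    (G : Finset (Fin k → Fin m)) (e : Fin k → Fin m) :
    ∏ i, vert p G (i, e i) =
      ∏ e' ∈ Gᶜ, (p e' : ℚ) ^ (∑ i, if e' i = e i then (-1 : ℤ) else k) := by
  unfold vert
  rw [prod_comm]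
  refine prod_congr rfl fun e' _ => ?_
  have h0 : (p e' : ℚ) ≠ 0 := by exact_mod_cast (hp e').ne_zero
  induction (univ : Finset (Fin k)) using Finset.induction_on with
  | empty => simp
  | insert a s ha ih => rw [prod_insert ha, sum_insert ha, zpow_add₀ h0, ih]

theorem exp_nonneg {k m : ℕ} {e e' : Fin k → Fin m} (h : e' ≠ e) :
    0 ≤ ∑ i, if e' i = e i then (-1 : ℤ) else k := by
  obtain ⟨i, hi⟩ := Function.ne_iff.1 h
  rw [← add_sum_erase _ _ (mem_univ i), if_neg hi]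
  have : ∑ _j ∈ univ.erase i, (-1 : ℤ) ≤
      ∑ j ∈ univ.erase i, if e' j = e j then (-1 : ℤ) else k :=
    sum_le_sum fun j _ => by split_ifs <;> omega
  have h2 : #(univ.erase i) ≤ k := by simp
  simp only [sum_const, smul_neg, nsmul_eq_mul, mul_one] at this
  omega

theorem nat_iff {k m : ℕ} (hk : 1 ≤ k) {p : (Fin k → Fin m) → ℕ} (hp : ∀ e, (p e).Prime)
    (hi : Function.Injective p) (G : Finset (Fin k → Fin m)) (e : Fin k → Fin m) :
    e ∈ G ↔ ∃ a : ℕ, ∏ i, vert p G (i, e i) = a := by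
  classical
  have hnat : ∀ s : Finset (Fin k → Fin m), e ∉ s →
      ∏ e' ∈ s, (p e' : ℚ) ^ (∑ i, if e' i = e i then (-1 : ℤ) else k) =
        ((∏ e' ∈ s, p e' ^ (∑ i, if e' i = e i then (-1 : ℤ) else k).toNat : ℕ) : ℚ) := by
    intro s hs
    push_cast
    refine prod_congr rfl fun e' he' => ?_
    rw [← zpow_natCast, Int.toNat_of_nonneg (exp_nonneg (ne_of_mem_of_not_mem he' hs))]
  rw [prod_vert hp]
  refine ⟨fun he => ⟨_, hnat _ (by simpa using he)⟩, fun ⟨a, ha⟩ => ?_⟩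
  by_contra he
  rw [← mul_prod_erase _ _ (mem_compl.2 he), hnat _ (notMem_erase _ _)] at ha
  have h0 : (p e : ℚ) ≠ 0 := by exact_mod_cast (hp e).ne_zero
  simp only [if_true, sum_const, card_univ, Fintype.card_fin, smul_neg, nsmul_eq_mul, mul_one,
    zpow_neg, zpow_natCast] at ha
  rw [inv_mul_eq_iff_eq_mul₀ (pow_ne_zero _ h0)] at ha
  have hd : p e ∣ ∏ e' ∈ Gᶜ.erase e, p e' ^ (∑ i, if e' i = e i then (-1 : ℤ) else k).toNat := by
    have : (∏ e' ∈ Gᶜ.erase e, p e' ^ (∑ i, if e' i = e i then (-1 : ℤ) else k).toNat) =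
        p e ^ k * a := by exact_mod_cast ha
    rw [this]
    exact (dvd_pow_self _ (by omega)).mul_right _
  obtain ⟨e', he', hd'⟩ := (Prime.dvd_finsetProd_iff (hp e).prime _).1 hd
  exact (mem_erase.1 he').1
    (hi ((Nat.prime_dvd_prime_iff_eq (hp e) (hp e')).1 ((hp e).dvd_of_dvd_pow hd'))).symm

/-- `C` is a multiplicative basis of order `k` for the natural numbers in the `k`-fold product
set of `B`. -/
def Covers (k : ℕ) (B : Finset ℚ) (C : Finset ℕ) : Prop :=
  ∀ a : ℕ, (∃ b : Fin k → ℚ, (∀ i, b i ∈ B) ∧ ∏ i, b i = (a : ℚ)) →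
    ∃ c : Fin k → ℕ, (∀ i, c i ∈ C) ∧ ∏ i, c i = a

theorem discrete {k m n S : ℕ} (hk : 1 ≤ k) (hm : k * m ≤ n) (hn : 1 ≤ n)
    (h : ∀ B : Finset ℚ, #B = n → (∀ b ∈ B, 0 < b) → ∃ C, Covers k B C ∧ #C ≤ S) :
    2 ^ (m ^ k) ≤ (S ^ k * m ^ k + 1) ^ (S + k * m) := by
  classical
  obtain ⟨ι⟩ : Nonempty ((Fin k → Fin m) ↪ ℕ) := nonempty_embedding_nat _
  let p : (Fin k → Fin m) → ℕ := fun e => Nat.nth Nat.Prime (ι e)
  have hp : ∀ e, (p e).Prime := fun e => Nat.prime_nth_prime _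
  have hi : Function.Injective p :=
    (Nat.nth_injective Nat.infinite_setOfPred_prime).comp ι.injective
  refine count fun G => ?_
  obtain ⟨B, hB1, hB2, hB3⟩ := (Set.Ioi_infinite (0 : ℚ)).exists_superset_ncard_eq
    (s := Set.range (vert p G)) (k := n) (by rintro _ ⟨x, rfl⟩; exact vert_pos hp G x)
    (Set.finite_range _) (by
      rw [← Set.image_univ]
      refine (Set.ncard_image_le (Set.toFinite _)).trans ?_
      simpa [Set.ncard_univ] using hm)
  have hBf : B.Finite := Set.finite_of_ncard_pos (by omega)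
  obtain ⟨C, hC, hS⟩ := h hBf.toFinset (by rw [← Set.ncard_eq_toFinset_card B hBf, hB3])
    fun b hb => hB2 (hBf.mem_toFinset.1 hb)
  obtain ⟨g⟩ : Nonempty (C ↪ Fin S) := Function.Embedding.nonempty_of_card_le (by simpa using hS)
  let d : Fin S → ℕ := fun j => max ((Function.partialInv g j).elim 1 Subtype.val) 1
  have hd : ∀ j, (0 : ℝ) < d j := fun j => by
    exact_mod_cast lt_of_lt_of_le one_pos (le_max_right _ _)
  have hv : ∀ x, (0 : ℝ) < (vert p G x : ℝ) := fun x => by exact_mod_cast vert_pos hp G x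
  refine ⟨fun x => Real.log (vert p G x), fun j => Real.log (d j), fun e => ?_⟩
  rw [nat_iff hk hp hi]
  constructor
  · rintro ⟨a, ha⟩
    obtain ⟨c, hc, hca⟩ := hC a ⟨_, fun i => hBf.mem_toFinset.2 (hB1 ⟨_, rfl⟩), ha⟩
    have ha0 : a ≠ 0 := by
      rintro rfl
      exact (prod_pos fun i _ => vert_pos hp G (i, e i)).ne' (by simpa using ha)
    have hc0 : ∀ i, c i ≠ 0 := fun i => prod_ne_zero_iff.1 (hca ▸ ha0) i (mem_univ i)
    have hdc : ∀ i, d (g ⟨c i, hc i⟩) = c i := fun i => by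
      simp only [d, Function.partialInv_left g.injective, Option.elim_some]
      exact max_eq_left (Nat.one_le_iff_ne_zero.2 (hc0 i))
    refine ⟨fun i => g ⟨c i, hc i⟩, ?_⟩
    rw [← Real.log_prod fun i _ => (hd _).ne', ← Real.log_prod fun i _ => (hv _).ne']
    congr 1
    simp only [hdc]
    have h1 : ∏ i, (vert p G (i, e i) : ℝ) = a := by exact_mod_cast ha
    rw [h1, ← hca]
    push_cast
    rfl
  · rintro ⟨j, hj⟩
    rw [← Real.log_prod fun i _ => (hd _).ne', ← Real.log_prod fun i _ => (hv _).ne'] at hj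
    have h1 := Real.log_injOn_pos (prod_pos fun i _ => hd (j i))
      (prod_pos fun i _ => hv (i, e i)) hj
    exact ⟨∏ i, d (j i), by exact_mod_cast h1.symm⟩

theorem main (k : ℕ) (hk : 2 ≤ k) : ∃ c : ℝ, 0 < c ∧ ∃ n₀ : ℕ, ∀ n, n₀ ≤ n → ∃ B : Finset ℚ,
    #B = n ∧ (∀ b ∈ B, 0 < b) ∧ ∀ C, Covers k B C → c * (n : ℝ) ^ k / Real.log n ≤ #C := by
  obtain ⟨K, hK⟩ : ∃ K : ℕ, K = k * k + k + 1 := ⟨_, rfl⟩
  have hK0 : (1 : ℝ) ≤ K := by exact_mod_cast (by omega : 1 ≤ K)
  have hk0 : (1 : ℝ) ≤ 2 * k := by exact_mod_cast (by omega : 1 ≤ 2 * k)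
  have hq : (1 : ℝ) ≤ (2 * k) ^ k := one_le_pow₀ hk0
  have hl2 : 0 < Real.log 2 := Real.log_pos one_lt_two
  have hl2' : Real.log 2 ≤ 1 := by linarith [Real.log_two_lt_d9]
  obtain ⟨c, hc⟩ : ∃ c : ℝ, c = Real.log 2 / (4 * K * (2 * k) ^ k) := ⟨_, rfl⟩
  have hc0 : 0 < c := by rw [hc]; positivity
  have hc1 : c ≤ 1 := by
    rw [hc, div_le_one (by positivity)]
    nlinarith
  have hev := (Real.isLittleO_log_id_atTop.comp_tendsto tendsto_natCast_atTop_atTop).def hc0
  obtain ⟨n₁, hn₁⟩ := Filter.eventually_atTop.1 hev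
  refine ⟨c, hc0, max n₁ (k + 3), fun n hn => ?_⟩
  have h1 : Real.log n ≤ c * n := by
    have := hn₁ n (le_of_max_le_left hn)
    simp only [Function.comp, id, Real.norm_eq_abs, Nat.abs_cast] at this
    exact (le_abs_self _).trans this
  have hn3 : k + 3 ≤ n := le_of_max_le_right hn
  have hn0 : (3 : ℝ) ≤ n := by exact_mod_cast (by omega : 3 ≤ n)
  have hlog : 1 ≤ Real.log n := by
    rw [Real.le_log_iff_exp_le (by linarith)]
    linarith [Real.exp_one_lt_d9]
  by_contra hcon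
  push Not at hcon
  obtain ⟨S, hS⟩ : ∃ S, S = ⌊c * (n : ℝ) ^ k / Real.log n⌋₊ := ⟨_, rfl⟩
  have hS1 : (S : ℝ) ≤ c * (n : ℝ) ^ k / Real.log n := hS ▸ Nat.floor_le (by positivity)
  have hnk : (0 : ℝ) < (n : ℝ) ^ k := by positivity
  have hS2 : S ≤ n ^ k := by
    have : (S : ℝ) ≤ (n : ℝ) ^ k := by
      refine hS1.trans ?_
      rw [div_le_iff₀ (by linarith)]
      nlinarith
    exact_mod_cast this
  have hm : k * (n / k) ≤ n := Nat.mul_div_le n k
  have hd := discrete (m := n / k) (S := S) (by omega) hm (by omega) fun B h2 h3 => by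
    obtain ⟨C, h4, h5⟩ := hcon B h2 h3
    exact ⟨C, h4, hS ▸ Nat.le_floor h5.le⟩
  have hb : S ^ k * (n / k) ^ k + 1 ≤ n ^ K := by
    have a1 : S ^ k * (n / k) ^ k ≤ n ^ (k * k + k) := by
      rw [pow_add, pow_mul]
      exact Nat.mul_le_mul (Nat.pow_le_pow_left hS2 k) (Nat.pow_le_pow_left (Nat.div_le_self n k) k)
    have a2 : 1 ≤ n ^ (k * k + k) := Nat.one_le_pow _ _ (by omega)
    rw [hK, pow_succ]
    nlinarith
  have hd2 : 2 ^ ((n / k) ^ k) ≤ (n ^ K) ^ (S + n) :=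
    hd.trans ((Nat.pow_le_pow_left hb _).trans
      (Nat.pow_le_pow_right (Nat.one_le_pow _ _ (by omega)) (by omega)))
  have hd3 : ((n / k : ℕ) : ℝ) ^ k * Real.log 2 ≤ (S + n) * (K * Real.log n) := by
    have : (2 : ℝ) ^ ((n / k) ^ k) ≤ ((n : ℝ) ^ K) ^ (S + n) := by exact_mod_cast hd2
    have := Real.log_le_log (by positivity) this
    rw [Real.log_pow, Real.log_pow, Real.log_pow] at this
    push_cast at this
    exact this
  have hm2 : (n : ℝ) ≤ 2 * k * ((n / k : ℕ) : ℝ) := by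
    have a1 := Nat.div_add_mod n k
    have a2 := Nat.mod_lt n (show 0 < k by omega)
    have a3 : 1 ≤ n / k := (Nat.one_le_div_iff (by omega)).2 (by omega)
    have a4 : k * 1 ≤ k * (n / k) := Nat.mul_le_mul_left k a3
    have : n ≤ 2 * k * (n / k) := by rw [mul_assoc]; omega
    exact_mod_cast this
  have hm3 : (n : ℝ) ^ k ≤ (2 * k) ^ k * ((n / k : ℕ) : ℝ) ^ k := by
    rw [← mul_pow]
    exact pow_le_pow_left₀ (by positivity) hm2 k
  have e1 : S * Real.log n ≤ c * (n : ℝ) ^ k := (le_div_iff₀ (by linarith)).1 hS1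
  have e2 : n * Real.log n ≤ c * (n : ℝ) ^ k := by
    have : (n : ℝ) ^ 2 ≤ (n : ℝ) ^ k := pow_le_pow_right₀ (by linarith) hk
    nlinarith
  have e3 : ((n / k : ℕ) : ℝ) ^ k * Real.log 2 ≤ 2 * K * c * (n : ℝ) ^ k := by nlinarith
  have e4 : 4 * K * (2 * k) ^ k * c = Real.log 2 := by rw [hc]; field_simp
  have e5 := mul_le_mul_of_nonneg_left e3 (show (0 : ℝ) ≤ (2 * k) ^ k by positivity)
  have e6 := mul_le_mul_of_nonneg_right hm3 hl2.le
  have e7 : (2 * k) ^ k * (2 * K * c * (n : ℝ) ^ k) = Real.log 2 / 2 * (n : ℝ) ^ k := by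
    rw [← e4]; ring
  nlinarith [mul_pos hl2 hnk]

end Pool.Agent.Lib.MP_36fd63_nt.H32
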