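import Pool.Agent.Lib.MP_36fd63_nt.H32Mul

set_option autoImplicit false

namespace Pool.Agent.Lib.MP_36fd63_nt.H32

open Finset

/-- A finite nonempty set of positive rationals has a greatest common divisor. -/
theorem exists_gcd (S : Finset ℚ) (hS : S.Nonempty) (hpos : ∀ b ∈ S, 0 < b) :
    ∃ g : ℚ, 0 < g ∧ (∀ b ∈ S, ∃ a : ℕ, b = g * a) ∧
      ∀ u : ℚ, (∀ b ∈ S, ∃ a : ℕ, u * b = a) → ∃ z : ℤ, u * g = z := by
  classical
  induction hS using Finset.Nonempty.cons_induction with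
  | singleton b =>
    refine ⟨b, hpos b (by simp), fun x hx => ⟨1, by simpa using hx⟩, fun u hu => ?_⟩
    obtain ⟨a, ha⟩ := hu b (by simp)
    exact ⟨a, by simpa using ha⟩
  | cons b s hb hs ih =>
    obtain ⟨g, hg, h1, h2⟩ := ih fun x hx => hpos x (mem_cons.2 (Or.inr hx))
    have hb0 := hpos b (mem_cons.2 (Or.inl rfl))
    obtain ⟨p, q, hp, hq, hco, hr⟩ : ∃ p q : ℕ, 0 < p ∧ 0 < q ∧ Nat.Coprime p q ∧ b * q = g * p := by
      have hr : 0 < b / g := div_pos hb0 hg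
      refine ⟨(b / g).num.natAbs, (b / g).den, Int.natAbs_pos.2 (Rat.num_ne_zero.2 hr.ne'),
        (b / g).den_pos, (b / g).reduced, ?_⟩
      have e1 : (((b / g).num.natAbs : ℕ) : ℚ) = ((b / g).num : ℚ) := by
        rw [← Int.cast_natCast, Int.natAbs_of_nonneg (Rat.num_nonneg.2 hr.le)]
      rw [e1, ← Rat.mul_den_eq_num]
      field_simp
    have hq0 : (q : ℚ) ≠ 0 := by exact_mod_cast hq.ne'
    refine ⟨g / q, by positivity, fun x hx => ?_, fun u hu => ?_⟩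
    · rcases mem_cons.1 hx with rfl | hx
      · exact ⟨p, by field_simp; linarith⟩
      · obtain ⟨a, ha⟩ := h1 x hx
        exact ⟨q * a, by push_cast; rw [ha]; field_simp⟩
    · obtain ⟨z, hz⟩ := h2 u fun x hx => hu x (mem_cons.2 (Or.inr hx))
      obtain ⟨a, ha⟩ := hu b (mem_cons.2 (Or.inl rfl))
      obtain ⟨s, t, hst⟩ := Nat.isCoprime_iff_coprime.2 hco
      have hst' : (s : ℚ) * p + t * q = 1 := by exact_mod_cast hst
      refine ⟨s * a + t * z, ?_⟩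
      push_cast
      rw [← ha, ← hz]
      field_simp
      linear_combination (-u * g) * hst' - u * s * hr

theorem cover_blocks {j : ℕ} (B : Finset ℚ) (hB : ∀ b ∈ B, 0 < b) {ℓ : ℕ} (hl : 0 < ℓ) :
    ∃ C, Covers (j + 2) B C ∧
      #C ≤ 1 + (#B / ℓ + 1) * (#B ^ (j + 1) + 2 ^ ℓ * ℓ) := by
  classical
  let e := B.equivFin
  let blk : ℚ → ℕ := fun b => if h : b ∈ B then (e ⟨b, h⟩ : ℕ) / ℓ else 0
  let T : ℕ → Finset ℚ := fun t => B.filter fun b => blk b = t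
  have hT : ∀ t, #(T t) ≤ ℓ := fun t => by
    have := card_le_card_of_injOn (s := T t) (t := range ℓ)
      (fun b => if h : b ∈ B then (e ⟨b, h⟩ : ℕ) % ℓ else 0) (fun b hb => by
        have hb' := (mem_filter.1 hb).1
        simpa [hb'] using Nat.mod_lt _ hl) (fun b hb b' hb' h => by
        obtain ⟨h1, h2⟩ := mem_filter.1 hb
        obtain ⟨h3, h4⟩ := mem_filter.1 hb'
        simp only [blk, h1, h3, dif_pos] at h h2 h4
        have : (e ⟨b, h1⟩ : ℕ) = e ⟨b', h3⟩ := by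
          rw [← Nat.div_add_mod (e ⟨b, h1⟩) ℓ, ← Nat.div_add_mod (e ⟨b', h3⟩) ℓ, h, h2, h4]
        exact congrArg Subtype.val (e.injective (Fin.ext this)))
    simpa using this
  have hg : ∀ S : Finset ℚ, ∃ g : ℚ, S.Nonempty → S ⊆ B → 0 < g ∧ (∀ b ∈ S, ∃ a : ℕ, b = g * a) ∧
      ∀ u : ℚ, (∀ b ∈ S, ∃ a : ℕ, u * b = a) → ∃ z : ℤ, u * g = z := fun S => by
    by_cases h : S.Nonempty ∧ S ⊆ B
    · obtain ⟨g, hg⟩ := exists_gcd S h.1 fun b hb => hB b (h.2 hb)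
      exact ⟨g, fun _ _ => hg⟩
    · exact ⟨1, fun h1 h2 => absurd ⟨h1, h2⟩ h⟩
  choose g hg using hg
  let S : ℚ → ℕ → Finset ℚ := fun u t => (T t).filter fun b => ∃ a : ℕ, u * b = a
  let C₁ : ℕ → Finset ℕ := fun t => (Fintype.piFinset fun _ : Fin (j + 1) => B).image
    fun f => ⌊(∏ i, f i) * g (S (∏ i, f i) t)⌋₊
  let C₂ : ℕ → Finset ℕ := fun t => ((T t).powerset ×ˢ T t).image fun x => ⌊x.2 / g x.1⌋₊
  refine ⟨{1} ∪ (range (#B / ℓ + 1)).biUnion fun t => C₁ t ∪ C₂ t, ?_, ?_⟩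
  · rintro a ⟨b, hb, ha⟩
    rw [Fin.prod_univ_succ, mul_comm] at ha
    obtain ⟨u, hu⟩ : ∃ u, u = ∏ i : Fin (j + 1), b i.succ := ⟨_, rfl⟩
    rw [← hu] at ha
    have hu0 : 0 < u := hu ▸ prod_pos fun i _ => hB _ (hb _)
    have hm : b 0 ∈ S u (blk (b 0)) := mem_filter.2 ⟨mem_filter.2 ⟨hb 0, rfl⟩, a, ha⟩
    obtain ⟨g0, g1, g2⟩ := hg (S u (blk (b 0))) ⟨_, hm⟩
      ((filter_subset _ _).trans (filter_subset _ _))
    obtain ⟨a₂, ha₂⟩ := g1 _ hm
    obtain ⟨z, hz⟩ := g2 u fun x hx => (mem_filter.1 hx).2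
    have hz0 : 0 ≤ z := by
      have : (0 : ℚ) ≤ z := hz ▸ (mul_pos hu0 g0).le
      exact_mod_cast this
    obtain ⟨a₁, rfl⟩ := Int.eq_ofNat_of_zero_le hz0
    have ht : blk (b 0) ∈ range (#B / ℓ + 1) := by
      simp only [blk, hb 0, dif_pos, mem_range]
      exact Nat.lt_succ_of_le (Nat.div_le_div_right (e ⟨b 0, hb 0⟩).2.le)
    refine ⟨Fin.cons a₁ (Fin.cons a₂ fun _ => 1), fun i => ?_, ?_⟩
    · refine Fin.cases ?_ (fun i => Fin.cases ?_ (fun i => ?_) i) i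
      · refine mem_union_right _ (mem_biUnion.2 ⟨_, ht, mem_union_left _ (mem_image.2
          ⟨fun i => b i.succ, Fintype.mem_piFinset.2 fun i => hb _, ?_⟩)⟩)
        rw [← hu, hz]
        simp
      · refine mem_union_right _ (mem_biUnion.2 ⟨_, ht, mem_union_right _ (mem_image.2
          ⟨(S u (blk (b 0)), b 0), mem_product.2 ⟨mem_powerset.2 (filter_subset _ _),
            (mem_filter.1 hm).1⟩, ?_⟩)⟩)
        have : b 0 / g (S u (blk (b 0))) = a₂ := by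
          rw [div_eq_iff g0.ne', mul_comm]; exact ha₂
        simp [this]
      · simp
    · simp only [Fin.prod_cons, prod_const_one, mul_one]
      have : (a₁ : ℚ) * a₂ = a := by
        rw [← ha, ← Int.cast_natCast (R := ℚ) a₁, ← hz, mul_assoc, ← ha₂]
      exact_mod_cast this
  · refine (card_union_le _ _).trans (add_le_add (by simp) ?_)
    refine card_biUnion_le.trans ((sum_le_card_nsmul _ _ (#B ^ (j + 1) + 2 ^ ℓ * ℓ)
      fun t _ => ?_).trans_eq (by simp))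
    refine (card_union_le _ _).trans (add_le_add (card_image_le.trans (by simp)) ?_)
    refine card_image_le.trans ?_
    rw [card_product, card_powerset]
    exact Nat.mul_le_mul (Nat.pow_le_pow_right two_pos (hT t)) (hT t)

theorem upper (k : ℕ) (hk : 2 ≤ k) (B : Finset ℚ) (hB : ∀ b ∈ B, 0 < b) (hn : 2 ≤ #B) :
    ∃ C, Covers k B C ∧ (#C : ℝ) ≤ 14 * (#B : ℝ) ^ k / Real.log #B := by
  obtain ⟨j, rfl⟩ : ∃ j, k = j + 2 := ⟨k - 2, by omega⟩
  obtain ⟨n, hn'⟩ : ∃ n, n = #B := ⟨_, rfl⟩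
  obtain ⟨ℓ, hℓ⟩ : ∃ ℓ, ℓ = Nat.log 2 n / 2 + 1 := ⟨_, rfl⟩
  obtain ⟨C, h1, h2⟩ := cover_blocks (j := j) B hB (ℓ := ℓ) (by omega)
  refine ⟨C, h1, ?_⟩
  rw [← hn'] at h2 hn ⊢
  have a1 : 2 ^ Nat.log 2 n ≤ n := Nat.pow_log_le_self 2 (by omega)
  have a2 : n < 2 ^ (Nat.log 2 n + 1) := Nat.lt_pow_succ_log_self one_lt_two n
  have a3 : ℓ ≤ 2 ^ (ℓ - 1) := by
    have := Nat.lt_two_pow_self (n := ℓ - 1)
    omega
  have a4 : 2 ^ ℓ * ℓ ≤ 2 * n := by
    have b1 : 2 ^ ℓ * 2 ^ (ℓ - 1) ≤ 2 * 2 ^ Nat.log 2 n := by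
      rw [← pow_add, ← pow_succ']
      exact Nat.pow_le_pow_right two_pos (by omega)
    exact ((Nat.mul_le_mul_left _ a3).trans b1).trans (Nat.mul_le_mul_left 2 a1)
  have a5 : n ≤ n ^ (j + 1) := Nat.le_self_pow (by omega) n
  have a6 : ℓ ≤ n := by
    have := Nat.lt_two_pow_self (n := Nat.log 2 n)
    omega
  have a7 : (n / ℓ + 1) * ℓ ≤ 2 * n := by
    have := Nat.div_mul_le_self n ℓ
    rw [add_mul]
    omega
  have a8 : #C * ℓ ≤ 7 * n ^ (j + 2) := by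
    have b1 : #C ≤ 1 + (n / ℓ + 1) * (3 * n ^ (j + 1)) :=
      h2.trans (Nat.add_le_add_left (Nat.mul_le_mul_left _ (by omega)) 1)
    have b2 := Nat.mul_le_mul_right (3 * n ^ (j + 1)) a7
    have b3 : n ≤ n ^ (j + 2) := Nat.le_self_pow (by omega) n
    have b4 := Nat.mul_le_mul_right ℓ b1
    rw [pow_succ n (j + 1)] at b3 ⊢
    nlinarith
  have hn1 : (1 : ℝ) < n := by exact_mod_cast (by omega : 1 < n)
  have c1 : Real.log n ≤ 2 * ℓ := by
    have b1 : (n : ℝ) ≤ 2 ^ (2 * ℓ) := by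
      exact_mod_cast a2.le.trans (Nat.pow_le_pow_right two_pos (by omega))
    have b2 := Real.log_le_log (by linarith) b1
    rw [Real.log_pow] at b2
    push_cast at b2
    have b3 : Real.log 2 ≤ 1 := by linarith [Real.log_two_lt_d9]
    have b4 : (0 : ℝ) ≤ ℓ := Nat.cast_nonneg _
    nlinarith
  have c2 : (#C : ℝ) * ℓ ≤ 7 * (n : ℝ) ^ (j + 2) := by exact_mod_cast a8
  rw [le_div_iff₀ (Real.log_pos hn1)]
  have c3 : (0 : ℝ) ≤ #C := Nat.cast_nonneg _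
  have c4 : (0 : ℝ) ≤ (n : ℝ) ^ (j + 2) := by positivity
  nlinarith

end Pool.Agent.Lib.MP_36fd63_nt.H32
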