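import Mathlib
import Pool.Agent.Lib.MP_36fd63_nt.H41Embed

/-!
A four-query matching vector code over the integers.
-/

set_option autoImplicit false

namespace Pool.Agent.Lib.MP_36fd63_nt

open Finset

theorem exists_coef (p e t : ℕ) [hp : Fact p.Prime] : ∃ co : ℕ → ZMod p,
    (∀ i, p ^ e ≤ i → co i = 0) ∧
      ∀ j, ∑ i ∈ range (j + 1), j.choose i • co i = if j ≡ t [MOD p ^ e] then 0 else 1 := by
  let f : ℕ → ZMod p := fun j => if j ≡ t [MOD p ^ e] then 0 else 1
  refine ⟨fun i => (fwdDiff 1)^[i] f 0, fun i hi => ?_, fun j => ?_⟩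
  · have h0 : (fwdDiff 1)^[p ^ e] f = 0 := by
      funext y
      obtain ⟨q, hq⟩ := Nat.exists_eq_succ_of_ne_zero (pow_pos hp.out.pos e).ne'
      have h1 : f (y + p ^ e) = f y := if_congr (by simp only [Nat.ModEq, Nat.add_mod_right]) rfl rfl
      have h2 : ((-1 : ZMod p)) ^ p ^ e = -1 := neg_one_pow_char_pow _ p e
      rw [fwdDiff_iter_eq_sum_shift, sum_range_succ, hq, sum_range_succ', ← hq, sum_eq_zero]
      · simp [h1, h2]
      · intro k hk
        have := (ZMod.natCast_eq_zero_iff _ _).2 (hp.out.dvd_choose_pow (n := e) (k := k + 1)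
          (by omega) (by have := mem_range.1 hk; omega))
        simp [this]
    obtain ⟨j, rfl⟩ := Nat.exists_eq_add_of_le' hi
    show (fwdDiff 1)^[j + p ^ e] f 0 = 0
    rw [Function.iterate_add_apply, h0, Function.iterate_fixed (by ext; simp [fwdDiff])]
    rfl
  · have := shift_eq_sum_fwdDiff_iter 1 f j 0
    rw [← this]
    simp [f]

theorem exists_mv (p e t h r : ℕ) [Fact p.Prime] (hr : p ^ e ≤ r) :
    ∃ (u : (Fin t → Fin h) → ({σ : Finset (Fin t × Fin h) // #σ < r} → ZMod p) →+ ZMod p)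
      (v : (Fin t → Fin h) → {σ : Finset (Fin t × Fin h) // #σ < r} → ZMod p),
      ∀ x y, u x (v y) = if #{i | x i = y i} ≡ t [MOD p ^ e] then 0 else 1 := by
  obtain ⟨co, h1, h2⟩ := exists_coef p e t
  let gr : (Fin t → Fin h) → Finset (Fin t × Fin h) := fun x => {q | x q.1 = q.2}
  refine ⟨fun x => AddMonoidHom.mk' (fun w => ∑ σ, if σ.1 ⊆ gr x then w σ else 0) fun a b => ?_,
    fun y σ => if σ.1 ⊆ gr y then co #σ.1 else 0, fun x y => ?_⟩
  · rw [← sum_add_distrib]
    exact sum_congr rfl fun σ _ => by split_ifs <;> simp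
  · have e1 : #(gr x ∩ gr y) = #{i | x i = y i} := by
      refine (card_bij (fun i _ => (i, x i)) ?_ ?_ ?_).symm
      · intro i hi; simpa [gr] using (mem_filter.1 hi).2.symm
      · intro i _ j _ h; exact congrArg Prod.fst h
      · rintro ⟨i, c⟩ hc
        simp only [gr, mem_inter, mem_filter, mem_univ, true_and] at hc
        exact ⟨i, by simp [hc.1, hc.2], by simp [hc.1]⟩
    rw [← e1, ← h2, ← sum_powerset_apply_card co, AddMonoidHom.mk'_apply]
    have e2 : ∀ σ : Finset (Fin t × Fin h), (if σ ⊆ gr x then if σ ⊆ gr y then co #σ else 0 else 0) =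
        if σ ∈ (gr x ∩ gr y).powerset then co #σ else 0 := fun σ => by
      simp only [mem_powerset, subset_inter_iff, ite_and]
    simp only [e2]
    rw [← sum_subtype (s := {σ | #σ < r}) (p := fun σ => #σ < r) (by simp)
      (fun σ => if σ ∈ (gr x ∩ gr y).powerset then co #σ else 0), sum_filter_of_ne, sum_ite_mem,
      univ_inter]
    intro σ _ hσ
    by_contra hlt
    exact hσ (by rw [h1 _ (hr.trans (not_lt.1 hlt)), ite_self])

theorem exists_code (a h k : ℕ) : Nonempty (Code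
    (({σ : Finset (Fin (6 ^ a - 1) × Fin h) // #σ < 3 ^ a} → ZMod 2) ×
      ({σ : Finset (Fin (6 ^ a - 1) × Fin h) // #σ < 3 ^ a} → ZMod 3))
    ((Bool × Bool) ⊕ Fin k) (h ^ (6 ^ a - 1))) := by
  obtain ⟨u, v, huv⟩ := exists_mv 2 a (6 ^ a - 1) h (3 ^ a) (Nat.pow_le_pow_left (by omega) _)
  obtain ⟨u', v', huv'⟩ := exists_mv 3 a (6 ^ a - 1) h (3 ^ a) le_rfl
  let e : Fin (h ^ (6 ^ a - 1)) ≃ (Fin (6 ^ a - 1) → Fin h) := finFunctionFinEquiv.symm
  let F : ∀ p : ℕ, Bool → ZMod p → ℤ := fun p s y =>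
    cond s (if y = 0 then 1 else 0) (-(if y + 1 = 0 then 1 else 0))
  refine ⟨{ v := fun γ j l => j.elim (fun s => F 2 s.1 (u (e l) γ.1) * F 3 s.2 (u' (e l) γ.2))
              fun _ => 0
            W := fun l => {γ | u (e l) γ.1 = 0 ∧ u' (e l) γ.2 = 0}
            pos := fun l γ j => γ + j.elim
              (fun s => (cond s.1 (v (e l)) 0, cond s.2 (v' (e l)) 0)) fun _ => 0
            inj := fun l j => add_left_injective _
            sum := fun l γ hγ l' => ?_
            big := fun l => ?_ }⟩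
  · have e1 : ∀ g2 g3 y x, u (e l') (v (e l)) = g2 → u' (e l') (v' (e l)) = g3 →
        u (e l') γ.1 = y → u' (e l') γ.2 = x →
        ∑ j : (Bool × Bool) ⊕ Fin k, (j.elim (fun s => F 2 s.1 (u (e l') (γ + j.elim
          (fun s => (cond s.1 (v (e l)) 0, cond s.2 (v' (e l)) 0)) fun _ => 0).1) *
          F 3 s.2 (u' (e l') (γ + j.elim
          (fun s => (cond s.1 (v (e l)) 0, cond s.2 (v' (e l)) 0)) fun _ => 0).2)) fun _ => 0) =
        (F 2 true (y + g2) + F 2 false y) * (F 3 true (x + g3) + F 3 false x) := by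
      rintro _ _ _ _ rfl rfl rfl rfl
      simp only [Fintype.sum_sum_type, Fintype.sum_prod_type, Fintype.sum_bool, Sum.elim_inl,
        Sum.elim_inr, sum_const_zero, add_zero, cond_true, cond_false, Prod.fst_add, Prod.snd_add,
        map_add, map_zero]
      ring
    rw [e1 _ _ _ _ (huv _ _) (huv' _ _) rfl rfl]
    by_cases hl : l' = l
    · subst hl
      obtain ⟨h1, h2⟩ := (mem_filter.1 hγ).2
      rw [h1, h2, if_pos rfl, if_pos (by simp [Nat.ModEq]), if_pos (by simp [Nat.ModEq])]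
      simp [F]
    · rw [if_neg hl]
      by_cases h2 : #{i | e l' i = e l i} ≡ 6 ^ a - 1 [MOD 2 ^ a]
      · by_cases h3 : #{i | e l' i = e l i} ≡ 6 ^ a - 1 [MOD 3 ^ a]
        · exfalso
          have h4 := (Nat.modEq_and_modEq_iff_modEq_mul
            (Nat.Coprime.pow a a (by norm_num : Nat.Coprime 2 3))).1 ⟨h2, h3⟩
          rw [← mul_pow, show 2 * 3 = 6 from rfl] at h4
          have h5 : #{i | e l' i = e l i} ≤ 6 ^ a - 1 := (card_le_univ _).trans (by simp)
          have h6 : 0 < 6 ^ a := by positivity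
          have h7 := Nat.ModEq.eq_of_lt_of_lt h4 (by omega) (by omega)
          have h8 := eq_univ_of_card _ (h7.trans (Fintype.card_fin _).symm)
          refine hl (e.injective (funext fun i => ?_))
          have h9 := mem_univ i
          rw [← h8] at h9
          exact (mem_filter.1 h9).2
        · rw [if_neg h3]; simp [F]
      · rw [if_neg h2]; simp [F]
  · let f := (u (e l)).prodMap (u' (e l))
    have h1 := AddSubgroup.card_mul_index f.ker
    rw [AddSubgroup.index_ker] at h1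
    have h2 : Nat.card f.range ≤ 6 := (AddSubgroup.card_le_card_addGroup _).trans (by simp)
    rw [← Nat.card_eq_fintype_card, ← h1, mul_comm 6]
    refine Nat.mul_le_mul (le_of_eq ?_) h2
    rw [← Fintype.card_coe, ← Nat.card_eq_fintype_card]
    exact Nat.card_congr (Equiv.subtypeEquivRight fun γ => by simp [f, Prod.ext_iff])

theorem card_small (N r : ℕ) (α : Type) [Fintype α] [DecidableEq α] (hN : Fintype.card α = N)
    (h0 : 0 < N) : Fintype.card {σ : Finset α // #σ < r} ≤ r * N ^ r := by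
  rw [Fintype.card_subtype]
  have : ({σ | #σ < r} : Finset (Finset α)) ⊆ (range r).biUnion fun i => powersetCard i univ :=
    fun σ hσ => mem_biUnion.2 ⟨#σ, by simpa using hσ, by simp⟩
  refine (card_le_card this).trans (card_biUnion_le.trans
    ((sum_le_card_nsmul _ _ (N ^ r) fun i hi => ?_).trans (by simp)))
  rw [card_powersetCard, card_univ, hN]
  exact (Nat.choose_le_pow _ _).trans (Nat.pow_le_pow_right h0 (mem_range.1 hi).le)

theorem main (k D n0 : ℕ) : ∃ B : Finset ℤ, n0 < #B ∧ ∀ C : Finset ℕ,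
    (∀ a : ℕ, (∃ f : (Bool × Bool) ⊕ Fin k → ℤ, (∀ i, f i ∈ B) ∧ ∑ i, f i = a) →
      ∃ g : (Bool × Bool) ⊕ Fin k → ℕ, (∀ i, g i ∈ C) ∧ ∑ i, g i = a) →
    (#B : ℝ) * Real.log #B ^ D ≤ #C := by
  obtain ⟨t, ht⟩ : ∃ t, t = 6 ^ (D + 1) - 1 := ⟨_, rfl⟩
  obtain ⟨r, hr⟩ : ∃ r, r = 3 ^ (D + 1) := ⟨_, rfl⟩
  have hr0 : 0 < r := by rw [hr]; positivity
  have htr : r * D + 1 ≤ t := by
    have h1 : D + 1 < 2 ^ (D + 1) := Nat.lt_two_pow_self
    have h2 : 6 ^ (D + 1) = r * 2 ^ (D + 1) := by rw [hr, ← mul_pow]; norm_num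
    have h3 : r * (D + 2) ≤ r * 2 ^ (D + 1) := Nat.mul_le_mul_left _ h1
    rw [ht, h2]
    have : r * (D + 2) = r * D + 2 * r := by ring
    omega
  obtain ⟨q, hq⟩ : ∃ q, q = 4 + k := ⟨_, rfl⟩
  have hq0 : 0 < q := by omega
  obtain ⟨c, hc⟩ : ∃ c, c = (200 * q ^ 4 + t + 3 * (r * t ^ r)) * (3 * q + 4) := ⟨_, rfl⟩
  obtain ⟨h, hh⟩ : ∃ h, h = 200 * q ^ 3 * c ^ D + n0 + 1 := ⟨_, rfl⟩
  have hh0 : 0 < h := by omega
  obtain ⟨K⟩ := exists_code (D + 1) h k
  have hι : Fintype.card ((Bool × Bool) ⊕ Fin k) = q := by simp [hq]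
  obtain ⟨B, h1, h2, h3⟩ := transfer K (by omega) (by positivity) Fintype.card_pos
  rw [hι] at h2 h3
  have hM := card_small (t * h) (3 ^ (D + 1)) (Fin (6 ^ (D + 1) - 1) × Fin h) (by simp [ht])
    (Nat.mul_pos (by omega) hh0)
  rw [Fintype.card_prod, Fintype.card_fun, Fintype.card_fun, ZMod.card, ZMod.card, ← mul_pow] at h2
  generalize Fintype.card {σ : Finset (Fin (6 ^ (D + 1) - 1) × Fin h) // #σ < 3 ^ (D + 1)} = M
    at h2 hM
  rw [← ht] at h1 h2 h3
  rw [← hr, mul_pow] at hM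
  have h4 : h ≤ h ^ r := Nat.le_self_pow hr0.ne' _
  have h5 : #B ≤ 2 ^ (c * h ^ r) := by
    refine h2.trans ?_
    calc _ ≤ (2 ^ (200 * q ^ 4) * (2 ^ h) ^ t * (2 ^ 3) ^ M) ^ (3 * q + 4) := by
          gcongr
          · exact Nat.lt_two_pow_self.le
          · exact Nat.lt_two_pow_self.le
          · norm_num
      _ = 2 ^ ((200 * q ^ 4 * 1 + t * h + 3 * M) * (3 * q + 4)) := by
          rw [← pow_mul, ← pow_mul, ← pow_add, ← pow_add, ← pow_mul]; congr 1; ring
      _ ≤ 2 ^ ((200 * q ^ 4 * h ^ r + t * h ^ r + 3 * (r * (t ^ r * h ^ r))) * (3 * q + 4)) := by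
          gcongr
          · norm_num
          · omega
      _ = _ := by rw [hc]; congr 1; ring
  have h6 : h ≤ #B := (Nat.le_self_pow (by omega) _).trans h1
  refine ⟨B, by omega, fun C hC => ?_⟩
  have h7 : Real.log #B ≤ (c * h ^ r : ℕ) := by
    have hB : (0 : ℝ) < #B := by exact_mod_cast hh0.trans_le h6
    have : (#B : ℝ) ≤ 2 ^ (c * h ^ r) := by exact_mod_cast h5
    refine (Real.log_le_log hB this).trans ?_
    rw [Real.log_pow]
    refine mul_le_of_le_one_right (Nat.cast_nonneg _) ?_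
    have := Real.log_le_sub_one_of_pos (show (0 : ℝ) < 2 by norm_num)
    linarith
  have h8 : 200 * q ^ 3 * (#B * (c * h ^ r) ^ D) ≤ 200 * q ^ 3 * #C := by
    refine le_trans ?_ (h3 C hC)
    calc _ = #B * ((200 * q ^ 3 * c ^ D) * h ^ (r * D)) := by rw [mul_pow, ← pow_mul]; ring
      _ ≤ #B * (h * h ^ (r * D)) := by gcongr; omega
      _ ≤ _ := by rw [← pow_succ']; gcongr
  have h9 : ((#B * (c * h ^ r) ^ D : ℕ) : ℝ) ≤ #C := by
    exact_mod_cast Nat.le_of_mul_le_mul_left h8 (by positivity)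
  refine le_trans ?_ h9
  rw [Nat.cast_mul, Nat.cast_pow]
  gcongr

end Pool.Agent.Lib.MP_36fd63_nt
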