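import Mathlib
import Pool.Agent.Lib.MP_36fd63_nt.H41Code
import Pool.Agent.Lib.MP_36fd63_nt.H62Embed

/-!
One moving summand and one shared centre for every prime.
-/

set_option autoImplicit false

namespace Pool.Agent.Lib.MP_36fd63_nt

open Finset

theorem exists_stars {J S : Type} [Fintype J] [DecidableEq J] [Fintype S] [DecidableEq S]
    (p : S → ℕ) [∀ s, NeZero (p s)] {A : S → Type} [∀ s, Fintype (A s)]
    [∀ s, AddCommGroup (A s)] [∀ s, Module (ZMod (p s)) (A s)]
    (u : ∀ s, J → A s →+ ZMod (p s)) (v : ∀ s, J → A s) (h1 : ∀ s i, u s i (v s i) = 1)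
    (h0 : ∀ i j, i ≠ j → ∃ s, u s i (v s j) = 0) (ρ : ℕ) (hρ : ∀ s, Fintype.card J ≤ p s ^ ρ) :
    Nonempty (CodeG (∀ s, Fin ρ → A s) (Option S) (Fintype.card J * ∏ s, p s ^ ρ)
      (∏ s, p s ^ ρ)) := by
  classical
  let Z := ∀ s, Fin ρ → ZMod (p s)
  have hZ : Fintype.card Z = ∏ s, p s ^ ρ := by simp [Z]
  let Φ : J → (∀ s, Fin ρ → A s) → Z := fun i w s r => u s i (w s r)
  let sh : J → (∀ s, Fin ρ → A s) → Z → ∀ s, Fin ρ → A s := fun i w z s r =>
    w s r + z s r • v s i
  have hsh : ∀ i' i w z s r, Φ i' (sh i w z) s r = Φ i' w s r + z s r * u s i' (v s i) :=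
    fun i' i w z s r => by simp only [Φ, sh, map_add, ZMod.map_smul, smul_eq_mul]
  have hinj : ∀ i z w w', sh i w z = sh i w' z → w = w' := fun i z w w' h =>
    funext fun s => funext fun r => add_right_cancel (congrFun (congrFun h s) r)
  let Cn := fun s => {q : J × (∀ s, Fin ρ → A s) // Φ q.1 q.2 s = 0}
  have hCn : ∀ s, Fintype.card (Cn s) ≤ Fintype.card (∀ s, Fin ρ → A s) := fun s => by
    have h2 : Fintype.card (Cn s × (Fin ρ → ZMod (p s))) ≤
        Fintype.card (J × (∀ s, Fin ρ → A s)) := by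
      refine Fintype.card_le_of_injective
        (fun q => (q.1.1.1, sh q.1.1.1 q.1.1.2 (Pi.single s q.2))) ?_
      rintro ⟨⟨⟨i, w⟩, hw⟩, z⟩ ⟨⟨⟨i', w'⟩, hw'⟩, z'⟩ h
      simp only [Prod.mk.injEq] at h hw hw'
      obtain ⟨rfl, h⟩ := h
      have h3 : z = z' := funext fun r => by
        have h4 := hsh i i w (Pi.single s z) s r
        rw [h, hsh, hw, hw', h1, mul_one, mul_one, Pi.single_eq_same, Pi.single_eq_same] at h4
        exact (add_left_cancel h4).symm
      subst h3
      obtain rfl := hinj _ _ _ _ h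
      rfl
    rw [Fintype.card_prod, Fintype.card_prod, Fintype.card_fun, ZMod.card, Fintype.card_fin] at h2
    refine Nat.le_of_mul_le_mul_right (h2.trans ?_) (pow_pos (NeZero.pos (p s)) ρ)
    rw [mul_comm]
    exact Nat.mul_le_mul_left _ (hρ s)
  have emb := fun s => (Function.Embedding.nonempty_of_card_le (hCn s)).some
  let e : Fin (Fintype.card J * ∏ s, p s ^ ρ) ≃ J × Z :=
    (Fintype.equivFinOfCardEq (by rw [Fintype.card_prod, hZ])).symm
  choose τ hτ using h0
  let x : (∀ s, Fin ρ → A s) → J × Z → ℤ := fun w c => if Φ c.1 w = c.2 then 1 else 0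
  let cv : ∀ s, Cn s → J × Z → ℤ := fun s q c =>
    if h : c.1 = q.1.1 then 0 else if τ _ _ h = s then -x q.1.2 c else 0
  let ce : ∀ s, J → (∀ s, Fin ρ → A s) → Cn s := fun s i w =>
    ⟨(i, sh i w (Pi.single s (-Φ i w s))), funext fun r => by
      rw [hsh, h1, mul_one, Pi.single_eq_same]
      exact add_neg_cancel _⟩
  refine ⟨{ v := fun γ j l => j.elim (x γ (e l)) fun s => Function.extend (emb s) (cv s) 0 γ (e l)
            W := fun l => {w | Φ (e l).1 w = (e l).2}
            pos := fun l w j => j.elim w fun s => emb s (ce s (e l).1 w)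
            inj := ?_
            sum := fun l w hw l' => ?_
            big := fun l => ?_ }⟩
  · rintro l (_ | s) w hw w' hw' h
    · exact h
    · have h2 := congrArg (fun q : Cn s => q.1.2) ((emb s).injective h)
      simp only [ce, (mem_filter.1 hw).2, (mem_filter.1 hw').2] at h2
      exact hinj _ _ _ _ h2
  · have hw1 := (mem_filter.1 hw).2
    simp only [Fintype.sum_option, Option.elim, (emb _).injective.extend_apply]
    rw [show (if l' = l then (1 : ℤ) else 0) = if e l' = e l then 1 else 0 by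
      simp only [EmbeddingLike.apply_eq_iff_eq]]
    generalize e l = c at hw1
    generalize e l' = c'
    obtain ⟨i, z⟩ := c
    obtain ⟨i', z'⟩ := c'
    simp only at hw1
    by_cases hi : i' = i
    · subst hi
      simp [cv, ce, x, hw1, eq_comm]
    · rw [if_neg fun h => hi (congrArg Prod.fst h)]
      simp only [cv, ce, dif_neg hi, sum_ite_eq, mem_univ, if_true]
      have h2 : Φ i' (sh i w (Pi.single (τ _ _ hi) (-Φ i w (τ _ _ hi)))) = Φ i' w :=
        funext fun s => funext fun r => by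
          rw [hsh]
          by_cases hs : s = τ _ _ hi
          · subst hs
            rw [hτ, mul_zero, add_zero]
          · rw [Pi.single_eq_of_ne hs, Pi.zero_apply, zero_mul, add_zero]
      simp only [x, h2]
      ring
  · generalize e l = c
    obtain ⟨i, z⟩ := c
    rw [← Fintype.card_coe, ← hZ, ← Fintype.card_prod]
    refine Fintype.card_le_of_injective (fun w => (Φ i w,
      ⟨sh i w (z - Φ i w), mem_filter.2 ⟨mem_univ _, funext fun s => funext fun r => ?_⟩⟩))
      fun w w' h => ?_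
    · show Φ i _ s r = z s r
      rw [hsh, h1, mul_one]
      exact add_sub_cancel _ _
    · simp only [Prod.mk.injEq, Subtype.mk.injEq] at h
      obtain ⟨h3, h4⟩ := h
      rw [h3] at h4
      exact hinj _ _ _ _ h4

theorem exists_codes {S : Type} [Fintype S] [DecidableEq S] (p : S → ℕ)
    [hp : ∀ s, Fact (p s).Prime] [∀ s, NeZero (p s)] (hpi : Function.Injective p) (r t : ℕ)
    (ht : t + 1 = ∏ s, p s ^ Nat.log (p s) r) (hr : r ≠ 0) : Nonempty (CodeG
    (∀ s, Fin t → ({σ : Finset (Fin t × Fin 2) // #σ < r} → ZMod (p s)) × ZMod (p s))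
    (Option S) (2 ^ t * ∏ s, p s ^ t) (∏ s, p s ^ t)) := by
  choose u v huv using fun s =>
    exists_mv (p s) (Nat.log (p s) r) t 2 r (Nat.pow_log_le_self _ hr)
  have hJ : Fintype.card (Fin t → Fin 2) = 2 ^ t := by simp
  rw [← hJ]
  refine exists_stars p (fun s i => AddMonoidHom.snd _ _ - (u s i).comp (AddMonoidHom.fst _ _))
    (fun s i => (v s i, 1)) (fun s i => ?_) (fun i j hij => ?_) _ fun s => ?_
  · simp [huv, Nat.ModEq]
  · by_contra hno
    push Not at hno
    have h5 : #{c | i c = j c} ≤ t := (card_le_univ _).trans (by simp)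
    have h2 : ∀ s, p s ^ Nat.log (p s) r ∣ t - #{c | i c = j c} := fun s => by
      rw [← Nat.modEq_iff_dvd' h5]
      by_contra h3
      exact hno s (by simp [huv, h3])
    have h4 : t + 1 ∣ t - #{c | i c = j c} := by
      rw [ht]
      exact Finset.prod_dvd_of_isRelPrime (fun a _ b _ hab => Nat.coprime_iff_isRelPrime.1
        (Nat.Coprime.pow _ _ ((Nat.coprime_primes (hp a).out (hp b).out).2 fun h => hab (hpi h))))
        fun s _ => h2 s
    have h7 := Nat.eq_zero_of_dvd_of_lt h4 (by omega)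
    have h8 := eq_univ_of_card ({c | i c = j c} : Finset (Fin t)) (by rw [Fintype.card_fin]; omega)
    refine hij (funext fun c => ?_)
    have h9 := mem_univ c
    rw [← h8] at h9
    exact (mem_filter.1 h9).2
  · rw [hJ]
    exact Nat.pow_le_pow_left (hp s).out.two_le _

theorem mainN (j : ℕ) (hj : 0 < j) : ∃ P : ℕ, 0 < P ∧ ∀ᶠ r : ℕ in Filter.atTop, ∃ t : ℕ,
    r ^ j ≤ P * (t + 1) ∧ ∃ B : Finset ℤ, t < #B ∧ #B ≤ 2 ^ r ^ ((2 * j + 4) * r) ∧
      ∀ C : Finset ℕ, (∀ a : ℕ, (∃ f : Option (Fin j) → ℤ, (∀ i, f i ∈ B) ∧ ∑ i, f i = a) →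
        ∃ g : Option (Fin j) → ℕ, (∀ i, g i ∈ C) ∧ ∑ i, g i = a) →
        #B * 2 ^ t ≤ 32 * (j + 1) ^ 3 * #C := by
  let p : Fin j → ℕ := fun s => Nat.nth Nat.Prime s
  have hp : ∀ s, Fact (p s).Prime := fun s => ⟨Nat.prime_nth_prime s⟩
  have hz : ∀ s, NeZero (p s) := fun s => ⟨(hp s).out.ne_zero⟩
  have hpi : Function.Injective p := fun a b h =>
    Fin.ext (Nat.nth_injective Nat.infinite_setOfPred_prime h)
  obtain ⟨P, hP⟩ : ∃ P, P = ∏ s, p s := ⟨_, rfl⟩
  have hP0 : 0 < P := hP ▸ prod_pos fun s _ => (hp s).out.pos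
  obtain ⟨c, hc⟩ : ∃ c, c = (200 * (j + 1) ^ 4 + 1 + 2 * P) * (3 * (j + 1) + 4) := ⟨_, rfl⟩
  refine ⟨P, hP0, (Filter.eventually_ge_atTop (c + 2 * P + 2)).mono fun r hr => ?_⟩
  obtain ⟨t, ht⟩ : ∃ t, t + 1 = ∏ s, p s ^ Nat.log (p s) r :=
    ⟨_, Nat.sub_add_cancel (prod_pos fun s _ => pow_pos (hp s).out.pos _)⟩
  have a1 : r ^ j ≤ P * (t + 1) := by
    rw [ht, hP, ← prod_mul_distrib]
    refine le_trans (by simp) (prod_le_prod' (f := fun _ => r) fun s _ => ?_)
    rw [← pow_succ']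
    exact (Nat.lt_pow_succ_log_self (hp s).out.one_lt r).le
  have a2 : t + 1 ≤ r ^ j := by
    rw [ht]
    exact (prod_le_prod' (g := fun _ => r) fun s _ => Nat.pow_log_le_self _ (by omega)).trans
      (by simp)
  have a3 : 0 < t := by
    rcases Nat.eq_zero_or_pos t with h | h
    · have := Nat.le_self_pow hj.ne' r
      rw [h] at a1
      omega
    · exact h
  obtain ⟨K⟩ := exists_codes p hpi r t ht (by omega)
  have hι : Fintype.card (Option (Fin j)) = j + 1 := by simp
  have hG : 0 < ∏ s, p s ^ t := prod_pos fun s _ => pow_pos (hp s).out.pos _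
  obtain ⟨B, h1, h2, h3⟩ := transferG K (by omega) (by positivity) Fintype.card_pos
  rw [hι] at h2 h3
  have hM := card_small (t * 2) r (Fin t × Fin 2) (by simp) (by omega)
  simp only [Fintype.card_pi, Fintype.card_prod, ZMod.card, Fintype.card_fin, prod_const,
    card_univ] at h2
  generalize Fintype.card {σ : Finset (Fin t × Fin 2) // #σ < r} = M at h2 hM
  simp only [← pow_succ, prod_pow, ← hP] at h2
  refine ⟨t, a1, B, lt_of_lt_of_le Nat.lt_two_pow_self
    ((Nat.le_mul_of_pos_right _ hG).trans h1), h2.trans ?_, fun C hC => ?_⟩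
  · have b1 : M + 1 ≤ r * r * (r * r ^ j) ^ r := by
      have b2 : (t * 2) ^ r ≤ (r * r ^ j) ^ r :=
        Nat.pow_le_pow_left (by rw [mul_comm]; exact Nat.mul_le_mul (by omega) (by omega)) r
      have b3 : 0 < r * (r * r ^ j) ^ r := by
        have : 0 < r := by omega
        positivity
      have b4 := Nat.mul_le_mul_left r b2
      have b5 : 2 * (r * (r * r ^ j) ^ r) ≤ r * (r * (r * r ^ j) ^ r) :=
        Nat.mul_le_mul_right _ (by omega)
      rw [mul_assoc]
      omega
    have b6 : 1 ≤ t * (M + 1) := Nat.mul_pos a3 M.succ_pos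
    have b7 : t ≤ t * (M + 1) := Nat.le_mul_of_pos_right _ M.succ_pos
    calc _ ≤ (2 ^ (200 * (j + 1) ^ 4) * (2 ^ t * (2 ^ P) ^ t) * ((2 ^ P) ^ (M + 1)) ^ t) ^
            (3 * (j + 1) + 4) := by
          gcongr <;> exact Nat.lt_two_pow_self.le
      _ = 2 ^ ((200 * (j + 1) ^ 4 * 1 + t + P * t + P * (t * (M + 1))) * (3 * (j + 1) + 4)) := by
          simp only [← pow_mul, ← pow_add]
          congr 1
          ring
      _ ≤ 2 ^ ((200 * (j + 1) ^ 4 * (t * (M + 1)) + t * (M + 1) + P * (t * (M + 1)) +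
            P * (t * (M + 1))) * (3 * (j + 1) + 4)) := by
          gcongr
          norm_num
      _ = 2 ^ (c * (t * (M + 1))) := by
          rw [hc]
          congr 1
          ring
      _ ≤ 2 ^ (r * (r ^ j * (r * r * (r * r ^ j) ^ r))) := by
          gcongr
          · norm_num
          · omega
          · omega
      _ = 2 ^ r ^ ((j + 3) * 1 + (j + 1) * r) := by
          congr 1
          rw [← pow_succ', ← pow_mul]
          ring
      _ ≤ 2 ^ r ^ ((j + 3) * r + (j + 1) * r) := by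
          gcongr
          · norm_num
          · omega
          · omega
      _ = _ := by
          congr 2
          ring
  · refine Nat.le_of_mul_le_mul_right ?_ hG
    calc _ = #B * (2 ^ t * ∏ s, p s ^ t) := by ring
      _ ≤ _ := h3 C hC
      _ = _ := by ring

theorem numer (j P : ℕ) (hj : 0 < j) (hP : 0 < P) {γ : ℝ} (hγ : γ < j) (L : ℝ) :
    ∀ᶠ r : ℕ in Filter.atTop, ∀ t : ℕ, r ^ j ≤ P * (t + 1) →
      ((2 * j + 4) * r * Real.log r) ^ γ + L ≤ t * Real.log 2 := by
  have hc : (0 : ℝ) < (2 * j + 4) ^ γ := Real.rpow_pos_of_pos (by positivity) _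
  have hP' : (0 : ℝ) < P := by exact_mod_cast hP
  have h1 := (isLittleO_log_rpow_rpow_atTop γ (sub_pos.2 hγ)).bound
    (c := 1 / (4 * P * (2 * j + 4) ^ γ)) (by positivity)
  filter_upwards [tendsto_natCast_atTop_atTop.eventually h1, Filter.eventually_ge_atTop 1,
    tendsto_natCast_atTop_atTop.eventually (Filter.eventually_ge_atTop ((3 * |L| + 3) * P))]
    with r a1 a2 a3 t ht
  have hr : (1 : ℝ) ≤ r := by exact_mod_cast a2
  have hl : 0 ≤ Real.log r := Real.log_nonneg hr
  rw [Real.norm_of_nonneg (Real.rpow_nonneg hl _),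
    Real.norm_of_nonneg (Real.rpow_nonneg (by linarith) _)] at a1
  have a4 : ((2 * j + 4) * r * Real.log r : ℝ) ^ γ ≤ (r : ℝ) ^ j / P / 4 := by
    rw [Real.mul_rpow (by positivity) hl, Real.mul_rpow (by positivity) (by positivity)]
    refine (mul_le_mul_of_nonneg_left a1 (by positivity)).trans (le_of_eq ?_)
    rw [Real.rpow_sub (by linarith), Real.rpow_natCast]
    have : (0 : ℝ) < (r : ℝ) ^ γ := Real.rpow_pos_of_pos (by linarith) _
    field_simp
  have a5 : (r : ℝ) ^ j / P ≤ t + 1 := by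
    rw [div_le_iff₀ hP', mul_comm]
    exact_mod_cast ht
  have a6 : 3 * |L| + 3 ≤ (r : ℝ) ^ j / P := by
    rw [le_div_iff₀ hP']
    exact a3.trans (le_self_pow₀ hr hj.ne')
  have a7 := Real.log_two_gt_d9
  have a8 := le_abs_self L
  have a9 : (t : ℝ) * 0.69 ≤ t * Real.log 2 :=
    mul_le_mul_of_nonneg_left (by linarith) (Nat.cast_nonneg t)
  have := abs_nonneg L
  linarith

theorem mainL (j : ℕ) (hj : 0 < j) {γ : ℝ} (hγ : γ < j) (n0 : ℕ) : ∃ B : Finset ℤ, n0 < #B ∧
    ∀ C : Finset ℕ, (∀ a : ℕ, (∃ f : Option (Fin j) → ℤ, (∀ i, f i ∈ B) ∧ ∑ i, f i = a) →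
      ∃ g : Option (Fin j) → ℕ, (∀ i, g i ∈ C) ∧ ∑ i, g i = a) →
    (#B : ℝ) * Real.exp (Real.log (Real.log #B) ^ γ) ≤ #C := by
  obtain ⟨P, hP, h⟩ := mainN j hj
  have hγ' : max γ 0 < j := max_lt hγ (by exact_mod_cast hj)
  obtain ⟨r, ⟨t, a1, B, b1, b2, b3⟩, a2, a3⟩ := (h.and ((numer j P hj hP hγ'
    (Real.log (32 * (j + 1) ^ 3))).and (Filter.eventually_ge_atTop (P * (n0 + 28))))).exists
  have a4 : n0 + 28 ≤ t + 1 :=
    Nat.le_of_mul_le_mul_left (a3.trans ((Nat.le_self_pow hj.ne' r).trans a1)) hP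
  have hr : 0 < r := lt_of_lt_of_le (by positivity) a3
  refine ⟨B, by omega, fun C hC => ?_⟩
  have c1 : (27 : ℝ) ≤ #B := by exact_mod_cast (by omega : 27 ≤ #B)
  have e1 := Real.exp_one_lt_d9
  have c2 : 3 ≤ Real.log #B := by
    rw [Real.le_log_iff_exp_le (by linarith), show (3 : ℝ) = (3 : ℕ) * 1 by norm_num,
      Real.exp_nat_mul]
    exact (pow_le_pow_left₀ (Real.exp_pos 1).le (by linarith : Real.exp 1 ≤ 3) 3).trans
      (by linarith)
  have c3 : 1 ≤ Real.log (Real.log #B) := by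
    rw [Real.le_log_iff_exp_le (by linarith)]
    linarith
  have c4 : Real.log #B ≤ (r : ℝ) ^ ((2 * j + 4) * r) := by
    have : (#B : ℝ) ≤ 2 ^ r ^ ((2 * j + 4) * r) := by exact_mod_cast b2
    refine (Real.log_le_log (by linarith) this).trans ?_
    rw [Real.log_pow, Nat.cast_pow]
    refine mul_le_of_le_one_right (by positivity) ?_
    have := Real.log_le_sub_one_of_pos (show (0 : ℝ) < 2 by norm_num)
    linarith
  have c5 : Real.log (Real.log #B) ≤ (2 * j + 4) * r * Real.log r := by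
    refine (Real.log_le_log (by linarith) c4).trans (le_of_eq ?_)
    rw [Real.log_pow]
    push_cast
    ring
  have c6 := (Real.rpow_le_rpow_of_exponent_le c3 (le_max_left γ 0)).trans
    (Real.rpow_le_rpow (by linarith) c5 (le_max_right γ 0))
  have c7 : Real.exp (Real.log (Real.log #B) ^ γ) * (32 * (j + 1) ^ 3) ≤ 2 ^ t := by
    rw [← Real.exp_log (show (0 : ℝ) < 32 * (j + 1) ^ 3 by positivity), ← Real.exp_add,
      ← Real.exp_log (show (0 : ℝ) < 2 ^ t by positivity), Real.log_pow]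
    exact Real.exp_le_exp.2 (by linarith [a2 t a1])
  have c8 : (#B : ℝ) * 2 ^ t ≤ 32 * (j + 1) ^ 3 * #C := by exact_mod_cast b3 C hC
  refine le_of_mul_le_mul_right ?_ (show (0 : ℝ) < 32 * (j + 1) ^ 3 by positivity)
  rw [mul_assoc, mul_comm (#C : ℝ)]
  exact (mul_le_mul_of_nonneg_left c7 (by positivity)).trans c8

end Pool.Agent.Lib.MP_36fd63_nt
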