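import Mathlib
import Pool.Agent.Lib.MP_36fd63_nt.H41Code
import Pool.Agent.Lib.MP_36fd63_nt.H62Embed

/-!
A three-summand family over the integers: two matching-vector positions and one shared centre.
-/

set_option autoImplicit false

namespace Pool.Agent.Lib.MP_36fd63_nt

open Finset

theorem exists_star {J A A' : Type} [Fintype J] [DecidableEq J] [Fintype A] [AddCommGroup A]
    [Module (ZMod 2) A] [Fintype A'] [AddCommGroup A'] [Module (ZMod 3) A']
    (u : J → A →+ ZMod 2) (v : J → A) (u' : J → A' →+ ZMod 3) (v' : J → A')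
    (h1 : ∀ i, u i (v i) = 1) (h1' : ∀ i, u' i (v' i) = 1)
    (h0 : ∀ i j, i ≠ j → u i (v j) = 0 ∨ u' i (v' j) = 0) (ρ k : ℕ)
    (hρ : Fintype.card J ≤ 3 ^ ρ) :
    Nonempty (CodeG (A × (Fin ρ → A')) (Option Bool ⊕ Fin k) (Fintype.card J * 3 ^ ρ)
      (2 * 3 ^ ρ)) := by
  classical
  let Z := Fin ρ → ZMod 3
  have hZ : Fintype.card Z = 3 ^ ρ := by simp [Z]
  let Φ : J → A × (Fin ρ → A') → Z := fun i w r => u' i (w.2 r)
  let sh : J → A × (Fin ρ → A') → Z → A × (Fin ρ → A') := fun i w z =>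
    (w.1, fun r => w.2 r + z r • v' i)
  have hsh : ∀ i' i w z r, Φ i' (sh i w z) r = Φ i' w r + z r * u' i' (v' i) := fun i' i w z r => by
    simp only [Φ, sh, map_add, ZMod.map_smul, smul_eq_mul]
  have hinj : ∀ i z w w', sh i w z = sh i w' z → w = w' := fun i z w w' h =>
    Prod.ext (Prod.ext_iff.1 h).1
      (funext fun r => add_right_cancel (congrFun (Prod.ext_iff.1 h).2 r))
  let Cn := {p : J × A × (Fin ρ → A') // Φ p.1 p.2 = 0}
  have hCn : Fintype.card Cn ≤ Fintype.card (A × (Fin ρ → A')) := by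
    have h2 : Fintype.card (Cn × Z) ≤ Fintype.card (J × A × (Fin ρ → A')) := by
      refine Fintype.card_le_of_injective (fun p => (p.1.1.1, sh p.1.1.1 p.1.1.2 p.2)) ?_
      rintro ⟨⟨⟨i, w⟩, hw⟩, z⟩ ⟨⟨⟨i', w'⟩, hw'⟩, z'⟩ h
      simp only [Prod.mk.injEq] at h hw hw'
      obtain ⟨rfl, h⟩ := h
      have h3 : z = z' := funext fun r => by
        have h4 := hsh i i w z r
        rw [h, hsh, hw, hw', h1', mul_one, mul_one] at h4
        exact (add_left_cancel h4).symm
      subst h3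
      obtain rfl := hinj _ _ _ _ h
      rfl
    rw [Fintype.card_prod, Fintype.card_prod, hZ] at h2
    refine Nat.le_of_mul_le_mul_right (h2.trans ?_) (pow_pos (by norm_num : 0 < 3) ρ)
    rw [mul_comm]
    exact Nat.mul_le_mul_left _ hρ
  obtain ⟨emb⟩ := Function.Embedding.nonempty_of_card_le hCn
  let e : Fin (Fintype.card J * 3 ^ ρ) ≃ J × Z :=
    (Fintype.equivFinOfCardEq (by rw [Fintype.card_prod, hZ])).symm
  let x : A × (Fin ρ → A') → J × Z → ℤ := fun w c =>
    if u c.1 w.1 = 0 ∧ Φ c.1 w = c.2 then 1 else 0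
  let cv : Cn → J × Z → ℤ := fun p c =>
    if c.1 = p.1.1 then 0 else x (p.1.2 + (v p.1.1, 0)) c - x p.1.2 c
  let ce : J → A × (Fin ρ → A') → Cn := fun i w => ⟨(i, sh i w (-Φ i w)), funext fun r => by
    rw [hsh, h1', mul_one]
    exact add_neg_cancel _⟩
  have hΦ : ∀ i w a, Φ i (w + (a, 0)) = Φ i w := fun i w a => funext fun r => by simp [Φ]
  refine ⟨{ v := fun γ j l => j.elim (fun o => o.elim (Function.extend emb cv 0 γ (e l))
              fun s => cond s (-x γ (e l)) (x γ (e l))) fun _ => 0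
            W := fun l => {w | u (e l).1 w.1 = 0 ∧ Φ (e l).1 w = (e l).2}
            pos := fun l w j => j.elim (fun o => o.elim (emb (ce (e l).1 w))
              fun s => cond s (w + (v (e l).1, 0)) w) fun _ => w
            inj := ?_
            sum := fun l w hw l' => ?_
            big := fun l => ?_ }⟩
  · rintro l ((_ | _ | _) | j) w hw w' hw' h
    · have h2 := congrArg (fun p : Cn => p.1.2) (emb.injective h)
      simp only [ce, (mem_filter.1 hw).2.2, (mem_filter.1 hw').2.2] at h2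
      exact hinj _ _ _ _ h2
    · exact h
    · exact add_right_cancel h
    · exact h
  · obtain ⟨hw1, hw2⟩ := (mem_filter.1 hw).2
    simp only [Fintype.sum_sum_type, Fintype.sum_option, Fintype.sum_bool, Sum.elim_inl,
      Sum.elim_inr, Option.elim, sum_const_zero, add_zero, cond_true, cond_false,
      emb.injective.extend_apply]
    rw [show (if l' = l then (1 : ℤ) else 0) = if e l' = e l then 1 else 0 by
      simp only [EmbeddingLike.apply_eq_iff_eq]]
    generalize e l = c at hw1 hw2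
    generalize e l' = c'
    obtain ⟨i, z⟩ := c
    obtain ⟨i', z'⟩ := c'
    simp only at hw1 hw2
    by_cases hi : i' = i
    · subst hi
      simp [cv, ce, x, hw1, hw2, h1, eq_comm]
    · rw [if_neg fun h => hi (congrArg Prod.fst h)]
      simp only [cv, ce, if_neg hi]
      rcases h0 i' i hi with h | h
      · simp [x, hΦ, h]
      · have h2 : Φ i' (sh i w (-Φ i w)) = Φ i' w := funext fun r => by
          rw [hsh, h, mul_zero, add_zero]
        simp only [x, hΦ, h2, Prod.fst_add, sh]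
        ring
  · generalize e l = c
    obtain ⟨i, z⟩ := c
    rw [← Fintype.card_coe, show 2 * 3 ^ ρ = Fintype.card (ZMod 2 × Z) by
      rw [Fintype.card_prod, hZ, ZMod.card], ← Fintype.card_prod]
    refine Fintype.card_le_of_injective (fun w => ((u i w.1, Φ i w),
      ⟨sh i (w + (-(u i w.1 • v i), 0)) (z - Φ i w), mem_filter.2 ⟨mem_univ _, ?_, funext fun r => ?_⟩⟩))
      fun w w' h => ?_
    · show u i (w.1 + -(u i w.1 • v i)) = 0
      rw [map_add, map_neg, ZMod.map_smul, h1, smul_eq_mul, mul_one, add_neg_cancel]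
    · show Φ i _ r = z r
      rw [hsh, hΦ, h1', mul_one]
      exact add_sub_cancel _ _
    · simp only [Prod.mk.injEq, Subtype.mk.injEq] at h
      obtain ⟨⟨h2, h3⟩, h4⟩ := h
      rw [h2, h3] at h4
      exact add_right_cancel (hinj _ _ _ _ h4)

theorem exists_code3 (a h k : ℕ) : Nonempty (CodeG
    ((({σ : Finset (Fin (6 ^ a - 1) × Fin h) // #σ < 3 ^ a} → ZMod 2) × ZMod 2) ×
      (Fin ((6 ^ a - 1) * h) →
        ({σ : Finset (Fin (6 ^ a - 1) × Fin h) // #σ < 3 ^ a} → ZMod 3) × ZMod 3))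
    (Option Bool ⊕ Fin k) (h ^ (6 ^ a - 1) * 3 ^ ((6 ^ a - 1) * h))
    (2 * 3 ^ ((6 ^ a - 1) * h))) := by
  obtain ⟨u, v, huv⟩ := exists_mv 2 a (6 ^ a - 1) h (3 ^ a) (Nat.pow_le_pow_left (by omega) _)
  obtain ⟨u', v', huv'⟩ := exists_mv 3 a (6 ^ a - 1) h (3 ^ a) le_rfl
  have hJ : Fintype.card (Fin (6 ^ a - 1) → Fin h) = h ^ (6 ^ a - 1) := by simp
  rw [← hJ]
  refine exists_star (fun i => AddMonoidHom.snd _ _ - (u i).comp (AddMonoidHom.fst _ _))
    (fun i => (v i, 1)) (fun i => AddMonoidHom.snd _ _ - (u' i).comp (AddMonoidHom.fst _ _))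
    (fun i => (v' i, 1)) (fun i => ?_) (fun i => ?_) (fun i j hij => ?_) _ k ?_
  · simp [huv, Nat.ModEq]
  · simp [huv', Nat.ModEq]
  · by_cases h2 : #{c | i c = j c} ≡ 6 ^ a - 1 [MOD 2 ^ a]
    · by_cases h3 : #{c | i c = j c} ≡ 6 ^ a - 1 [MOD 3 ^ a]
      · exfalso
        have h4 := (Nat.modEq_and_modEq_iff_modEq_mul
          (Nat.Coprime.pow a a (by norm_num : Nat.Coprime 2 3))).1 ⟨h2, h3⟩
        rw [← mul_pow, show 2 * 3 = 6 from rfl] at h4
        have h5 : #{c | i c = j c} ≤ 6 ^ a - 1 := (card_le_univ _).trans (by simp)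
        have h6 : 0 < 6 ^ a := by positivity
        have h7 := Nat.ModEq.eq_of_lt_of_lt h4 (by omega) (by omega)
        have h8 := eq_univ_of_card _ (h7.trans (Fintype.card_fin _).symm)
        refine hij (funext fun c => ?_)
        have h9 := mem_univ c
        rw [← h8] at h9
        exact (mem_filter.1 h9).2
      · right; simp [huv', h3]
    · left; simp [huv, h2]
  · rw [hJ, mul_comm, pow_mul]
    exact Nat.pow_le_pow_left (Nat.lt_pow_self (by norm_num)).le _

theorem main3 (k D n0 : ℕ) : ∃ B : Finset ℤ, n0 < #B ∧ ∀ C : Finset ℕ,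
    (∀ a : ℕ, (∃ f : Option Bool ⊕ Fin k → ℤ, (∀ i, f i ∈ B) ∧ ∑ i, f i = a) →
      ∃ g : Option Bool ⊕ Fin k → ℕ, (∀ i, g i ∈ C) ∧ ∑ i, g i = a) →
    (#B : ℝ) * Real.log #B ^ D ≤ #C := by
  obtain ⟨t, ht⟩ : ∃ t, t = 6 ^ (D + 1) - 1 := ⟨_, rfl⟩
  obtain ⟨r, hr⟩ : ∃ r, r = 3 ^ (D + 1) := ⟨_, rfl⟩
  have hr0 : D + 1 < r := by rw [hr]; exact Nat.lt_pow_self (by norm_num)
  have htr : (r + 1) * D + 1 ≤ t := by
    have h1 : D + 1 < 2 ^ (D + 1) := Nat.lt_two_pow_self
    have h2 : 6 ^ (D + 1) = r * 2 ^ (D + 1) := by rw [hr, ← mul_pow]; norm_num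
    have h3 : r * (D + 2) ≤ r * 2 ^ (D + 1) := Nat.mul_le_mul_left _ h1
    rw [ht, h2]
    have : r * (D + 2) = r * D + 2 * r := by ring
    have : (r + 1) * D = r * D + D := by ring
    omega
  obtain ⟨q, hq⟩ : ∃ q, q = 3 + k := ⟨_, rfl⟩
  have hq0 : 0 < q := by omega
  obtain ⟨c, hc⟩ : ∃ c, c = (200 * q ^ 4 + 3 * t + (r * t ^ r + 1) * (2 * t + 1)) * (3 * q + 4) :=
    ⟨_, rfl⟩
  obtain ⟨h, hh⟩ : ∃ h, h = 64 * q ^ 3 * c ^ D + n0 + 1 := ⟨_, rfl⟩
  have hh0 : 0 < h := by omega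
  obtain ⟨K⟩ := exists_code3 (D + 1) h k
  have hι : Fintype.card (Option Bool ⊕ Fin k) = q := by simp [hq]
  obtain ⟨B, h1, h2, h3⟩ := transferG K (by omega) (by positivity) Fintype.card_pos
  rw [hι] at h2 h3
  have hM := card_small (t * h) (3 ^ (D + 1)) (Fin (6 ^ (D + 1) - 1) × Fin h) (by simp [ht])
    (Nat.mul_pos (by omega) hh0)
  simp only [Fintype.card_prod, Fintype.card_fun, ZMod.card, Fintype.card_fin] at h2
  generalize Fintype.card {σ : Finset (Fin (6 ^ (D + 1) - 1) × Fin h) // #σ < 3 ^ (D + 1)} = M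
    at h2 hM
  rw [← ht] at h1 h2 h3
  rw [← hr, mul_pow] at hM
  have h4 : h ≤ h ^ (r + 1) := Nat.le_self_pow (by omega) _
  have h4' : 1 ≤ h ^ r := Nat.one_le_pow _ _ hh0
  have hM' : M + 1 ≤ (r * t ^ r + 1) * h ^ r := by rw [add_mul, mul_assoc]; omega
  have h5 : #B ≤ 2 ^ (c * h ^ (r + 1)) := by
    refine h2.trans ?_
    calc _ ≤ (2 ^ (200 * q ^ 4) * ((2 ^ h) ^ t * (2 ^ 2) ^ (t * h)) *
          (2 ^ M * 2 * ((2 ^ 2) ^ M * 2 ^ 2) ^ (t * h))) ^ (3 * q + 4) := by
          gcongr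
          · exact Nat.lt_two_pow_self.le
          · exact Nat.lt_two_pow_self.le
          all_goals norm_num
      _ = 2 ^ ((200 * q ^ 4 * 1 + 3 * t * h + (M + 1) * (2 * t * h + 1)) * (3 * q + 4)) := by
          rw [← pow_succ, ← pow_succ]
          simp only [← pow_mul, ← pow_add]
          congr 1; ring
      _ ≤ 2 ^ ((200 * q ^ 4 * h ^ (r + 1) + 3 * t * h ^ (r + 1) +
            ((r * t ^ r + 1) * h ^ r) * (2 * t * h + h)) * (3 * q + 4)) := by
          gcongr
          · norm_num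
          · omega
          · omega
      _ = _ := by rw [hc]; congr 1; ring
  have h6 : h ≤ #B := ((Nat.le_self_pow (by omega) _).trans
    (Nat.le_mul_of_pos_right _ (by positivity))).trans h1
  refine ⟨B, by omega, fun C hC => ?_⟩
  have h7 : Real.log #B ≤ (c * h ^ (r + 1) : ℕ) := by
    have hB : (0 : ℝ) < #B := by exact_mod_cast hh0.trans_le h6
    have : (#B : ℝ) ≤ 2 ^ (c * h ^ (r + 1)) := by exact_mod_cast h5
    refine (Real.log_le_log hB this).trans ?_
    rw [Real.log_pow]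
    refine mul_le_of_le_one_right (Nat.cast_nonneg _) ?_
    have := Real.log_le_sub_one_of_pos (show (0 : ℝ) < 2 by norm_num)
    linarith
  have h3' : #B * h ^ t ≤ 64 * q ^ 3 * #C := by
    refine Nat.le_of_mul_le_mul_right ?_ (pow_pos (by norm_num : 0 < 3) (t * h))
    calc _ = #B * (h ^ t * 3 ^ (t * h)) := by ring
      _ ≤ _ := h3 C hC
      _ = _ := by ring
  have h8 : 64 * q ^ 3 * (#B * (c * h ^ (r + 1)) ^ D) ≤ 64 * q ^ 3 * #C := by
    refine le_trans ?_ h3'
    calc _ = #B * ((64 * q ^ 3 * c ^ D) * h ^ ((r + 1) * D)) := by rw [mul_pow, ← pow_mul]; ring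
      _ ≤ #B * (h * h ^ ((r + 1) * D)) := by gcongr; omega
      _ ≤ _ := by rw [← pow_succ']; gcongr
  have h9 : ((#B * (c * h ^ (r + 1)) ^ D : ℕ) : ℝ) ≤ #C := by
    exact_mod_cast Nat.le_of_mul_le_mul_left h8 (by positivity)
  refine le_trans ?_ h9
  rw [Nat.cast_mul, Nat.cast_pow]
  gcongr

end Pool.Agent.Lib.MP_36fd63_nt
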